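import Pool.Agent.H1.TB.Gen2

set_option autoImplicit false
set_option linter.unusedSectionVars false
set_option linter.unusedVariables false

/-! # Quadric bundles over the line: the global theorem -/

namespace Pool.Agent.H1.TB

open MvPolynomial Pool.Agent.W428.MOT Pool.Agent.TH192.MT Pool.Agent.TH192.DT Pool.Agent.Q49.CO
open Pool.Agent.Y229 Pool.Agent.Q57.MC Pool.Agent.Q57.MD
open Pool.Agent.H1.QB (GQ GQ_local)

section asm

variable {M : Meas ℂ (MK ℂ)} (hL : M.L = ((Lu ℂ : (MK ℂ)ˣ) : MK ℂ))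
  (hχ : ∀ (ι : Type) [Fintype ι] (S : Set (Pt ℂ ι)),
    M.χ ι S = algebraMap (K0 ℂ) (MK ℂ) (cls ι S))
variable {N : Type} [Fintype N] [DecidableEq N]
include hL hχ

omit hL hχ in
/-- the fibres over a finite set -/
theorem constr_fin (s : Finset ℂ) :
    Constr {z : Pt ℂ (Option N) | ∃ t ∈ s, z none = algebraMap ℂ (AlgebraicClosure ℂ) t} := by
  classical
  induction s using Finset.induction_on with
  | empty =>
    have h1 : {z : Pt ℂ (Option N) | ∃ t ∈ (∅ : Finset ℂ),
        z none = algebraMap ℂ (AlgebraicClosure ℂ) t} = (Set.univ)ᶜ := by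
      ext z
      simp
    rw [h1]
    exact Constr.univ.compl
  | insert a s ha ih =>
    have h1 : {z : Pt ℂ (Option N) | ∃ t ∈ insert a s,
        z none = algebraMap ℂ (AlgebraicClosure ℂ) t} = Ft N a ∪ {z | ∃ t ∈ s,
          z none = algebraMap ℂ (AlgebraicClosure ℂ) t} := by
      ext z
      simp only [Finset.mem_insert, Set.mem_union, Set.mem_ofPred_eq, Ft]
      constructor
      · rintro ⟨t, rfl | ht, h⟩
        · exact Or.inl h
        · exact Or.inr ⟨t, ht, h⟩
      · rintro (h | ⟨t, ht, h⟩)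
        · exact ⟨a, Or.inl rfl, h⟩
        · exact ⟨t, Or.inr ht, h⟩
    rw [h1]
    exact (constr_Ft a).union ih

/-- adding fibres -/
theorem add_fibres (c : Polynomial ℂ) (b : N → Polynomial ℂ) (q : N → N → Polynomial ℂ)
    (hne : qb c b q ≠ 0) (w : Polynomial ℂ) (Q : Finset (ℤ × ℤ))
    (hQ : ∀ x ∈ Q, x.1 < 0 ∧ 0 < x.2 ∧ ∃ p : Option N → ℂ,
      SF (fun _ : Fin 1 => qb c b q) p ((x.1 : ℂ) / x.2))
    (hz : SW M false (((Lu ℂ)⁻¹ : (MK ℂ)ˣ) : MK ℂ)
      (fun _ : Fin 1 => qb c b q) (Dw N w) ∈ ratU (Lu ℂ) (Q : Set (ℤ × ℤ)))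
    (s : Finset ℂ) (hs : ∀ t ∈ s, w.eval t = 0) :
    ∃ Q : Finset (ℤ × ℤ), (∀ x ∈ Q, x.1 < 0 ∧ 0 < x.2 ∧ ∃ p : Option N → ℂ,
      SF (fun _ : Fin 1 => qb c b q) p ((x.1 : ℂ) / x.2)) ∧
      SW M false (((Lu ℂ)⁻¹ : (MK ℂ)ˣ) : MK ℂ) (fun _ : Fin 1 => qb c b q)
        (Dw N w ∪ {z | ∃ t ∈ s, z none = algebraMap ℂ (AlgebraicClosure ℂ) t}) ∈
          ratU (Lu ℂ) (Q : Set (ℤ × ℤ)) := by
  classical
  induction s using Finset.induction_on with
  | empty =>
    refine ⟨Q, hQ, ?_⟩
    have h1 : (Dw N w ∪ {z : Pt ℂ (Option N) | ∃ t ∈ (∅ : Finset ℂ),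
        z none = algebraMap ℂ (AlgebraicClosure ℂ) t}) = Dw N w := by
      ext z
      simp
    rw [h1]
    exact hz
  | insert a s ha ih =>
    obtain ⟨Q₁, hQ₁, hz₁⟩ := ih fun t ht => hs t (Finset.mem_insert_of_mem ht)
    obtain ⟨Q₂, hQ₂, hz₂⟩ := fibre_at hL hχ c b q hne a
    refine ⟨Q₁ ∪ Q₂, fun x hx => ?_, ?_⟩
    · rcases Finset.mem_union.1 hx with hx | hx
      · exact hQ₁ x hx
      · exact hQ₂ x hx
    · have h1 : (Dw N w ∪ {z : Pt ℂ (Option N) | ∃ t ∈ insert a s,
          z none = algebraMap ℂ (AlgebraicClosure ℂ) t}) = (Dw N w ∪ {z | ∃ t ∈ s,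
            z none = algebraMap ℂ (AlgebraicClosure ℂ) t}) ∪ Ft N a := by
        ext z
        simp only [Finset.mem_insert, Set.mem_union, Set.mem_ofPred_eq, Ft]
        constructor
        · rintro (h | ⟨t, rfl | ht, h⟩)
          · exact Or.inl (Or.inl h)
          · exact Or.inr h
          · exact Or.inl (Or.inr ⟨t, ht, h⟩)
        · rintro ((h | ⟨t, ht, h⟩) | h)
          · exact Or.inl h
          · exact Or.inr ⟨t, Or.inr ht, h⟩
          · exact Or.inr ⟨a, Or.inl rfl, h⟩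
      rw [h1, SW_add M (fun _ : Fin 1 => qb c b q) ((constr_Dw w).union (constr_fin s))
        (constr_Ft a) ?_]
      · exact Subalgebra.add_mem _
          (rat_mono (Lu ℂ) (fun x hx => Finset.mem_coe.2
            (Finset.mem_union_left _ (Finset.mem_coe.1 hx))) hz₁)
          (rat_mono (Lu ℂ) (fun x hx => Finset.mem_coe.2
            (Finset.mem_union_right _ (Finset.mem_coe.1 hx))) hz₂)
      · rw [Set.disjoint_left]
        rintro z (h | ⟨t, ht, h⟩) h'
        · have h2 : z none = algebraMap ℂ (AlgebraicClosure ℂ) a := h'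
          apply h
          rw [h2, Polynomial.aeval_algebraMap_apply, Polynomial.coe_aeval_eq_eval,
            hs a (Finset.mem_insert_self _ _), map_zero]
        · have h2 : z none = algebraMap ℂ (AlgebraicClosure ℂ) a := h'
          rw [h2] at h
          have h3 := (algebraMap ℂ (AlgebraicClosure ℂ)).injective h
          rw [h3] at ha
          exact ha ht

/-- **Quadric bundles over the line.** -/
theorem gm_qb (c : Polynomial ℂ) (b : N → Polynomial ℂ) (q : N → N → Polynomial ℂ)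
    (hne : qb c b q ≠ 0) : GM M false (fun _ : Fin 1 => qb c b q) := by
  classical
  -- symmetric coefficients
  obtain ⟨c', b', q', hq', h⟩ := tr_qb c b q 0
  have h0 : tr (fun o : Option N => Option.elim o (0 : ℂ) fun _ => 0) = AlgHom.id ℂ _ := by
    refine algHom_ext fun i => ?_
    rw [tr_X, AlgHom.id_apply]
    rcases i with _ | i
    · simp
    · simp
  rw [h0, AlgHom.id_apply] at h
  rw [h] at hne ⊢
  obtain ⟨w, Q, hw, hQ, hz⟩ := gen_rat hL hχ c' b' q' hq' hne
  obtain ⟨Q', hQ', hz'⟩ := add_fibres hL hχ c' b' q' hne w Q hQ hz w.roots.toFinset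
    (fun t ht => (Polynomial.mem_roots hw).1 (Multiset.mem_toFinset.1 ht))
  refine ⟨⟨0, hne⟩, Q', hQ', ?_⟩
  have h1 : (Set.univ : Set (Pt ℂ (Option N))) = Dw N w ∪ {z | ∃ t ∈ w.roots.toFinset,
      z none = algebraMap ℂ (AlgebraicClosure ℂ) t} := by
    ext z
    simp only [Set.mem_univ, Set.mem_union, Set.mem_ofPred_eq, true_iff]
    by_cases hz : Polynomial.aeval (z none) w = 0
    · right
      obtain ⟨t, ht⟩ := IsAlgClosed.algebraMap_bijective_of_isIntegral
        (k := ℂ) (K := AlgebraicClosure ℂ) |>.2 (z none)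
      refine ⟨t, ?_, ht.symm⟩
      rw [Multiset.mem_toFinset, Polynomial.mem_roots hw]
      rw [← ht, Polynomial.aeval_algebraMap_apply, Polynomial.coe_aeval_eq_eval,
        map_eq_zero] at hz
      exact hz
    · left
      exact hz
  rw [h1]
  exact hz'

end asm

section ren

variable {M : Meas ℂ (MK ℂ)} (hL : M.L = ((Lu ℂ : (MK ℂ)ˣ) : MK ℂ))
include hL

/-- other names of the variables -/
theorem gm_ren {b : Bool} {σ τ J κ : Type} [Fintype σ] [Fintype τ] [Fintype J] [Fintype κ]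
    [DecidableEq J] [DecidableEq κ] [DecidableEq σ] [DecidableEq τ]
    (e : σ ≃ τ) (k : J ≃ κ) (f : J → MvPolynomial σ ℂ) (g : κ → MvPolynomial τ ℂ)
    (h : ∀ j, g (k j) = rename e (f j)) (hf : GM M b f) : GM M b g := by
  have hv : M.L * (((Lu ℂ)⁻¹ : (MK ℂ)ˣ) : MK ℂ) = 1 := by rw [hL, Units.mul_inv]
  obtain ⟨⟨j, hj⟩, S, hS, hz⟩ := hf
  refine ⟨⟨k j, ?_⟩, S, fun q hq => ?_, ?_⟩
  · rw [h, Ne, map_eq_zero_iff _ (rename_injective _ e.injective)]
    exact hj
  · obtain ⟨h1, h2, p, h3⟩ := hS q hq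
    refine ⟨h1, h2, p ∘ e.symm, sf_equiv e k f g h _ _ ?_⟩
    have h4 : (p ∘ e.symm) ∘ e = p := by
      funext i
      simp
    rw [h4]
    exact h3
  · rw [SW_ren M hv e k f g h Constr.univ (W' := Set.univ)
      fun z => ⟨fun _ => trivial, fun _ => trivial⟩]
    exact hz

/-- constants -/
theorem gm_one {σ : Type} [Fintype σ] : GM M false (fun _ : Fin 1 => (1 : MvPolynomial σ ℂ)) := by
  have hv : M.L * (((Lu ℂ)⁻¹ : (MK ℂ)ˣ) : MK ℂ) = 1 := by rw [hL, Units.mul_inv]
  refine ⟨⟨0, one_ne_zero⟩, ∅, fun q hq => absurd hq (Finset.notMem_empty q), ?_⟩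
  obtain ⟨a, ha⟩ := SW_off M (b := false) hv (fun _ : Fin 1 => (1 : MvPolynomial σ ℂ))
    (W := Set.univ) Constr.univ fun w _ => ⟨0, by rw [map_one]; exact one_ne_zero⟩
  rw [ha]
  exact rat_C _ _

/-- **Products.** -/
theorem gm_prod2 {σ τ : Type} [Fintype σ] [Fintype τ] [DecidableEq σ] [DecidableEq τ]
    (f : MvPolynomial σ ℂ) (g : MvPolynomial τ ℂ) (hf : GM M false fun _ : Fin 1 => f)
    (hg : GM M false fun _ : Fin 1 => g) :
    GM M false fun _ : Fin 1 => (rename Sum.inl f * rename Sum.inr g :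
      MvPolynomial (σ ⊕ τ) ℂ) := by
  classical
  set e₁ := Fintype.equivFin σ with he₁
  set e₂ := Fintype.equivFin τ with he₂
  have h1 := gm_ren hL e₁ (Equiv.refl (Fin 1)) _ (fun _ : Fin 1 => rename e₁ f)
    (fun _ => rfl) hf
  have h2 := gm_ren hL e₂ (Equiv.refl (Fin 1)) _ (fun _ : Fin 1 => rename e₂ g)
    (fun _ => rfl) hg
  have h3 := gm_mul hL (fun _ : Fin 1 => rename e₁ f) (fun _ : Fin 1 => rename e₂ g) h1 h2
  refine gm_ren hL ((finSumFinEquiv.symm.trans (Equiv.sumCongr e₁.symm e₂.symm)) :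
    Fin (Fintype.card σ + Fintype.card τ) ≃ σ ⊕ τ)
    (Equiv.refl (Fin 1) : Fin (1 * 1) ≃ Fin 1) _ _ (fun j => ?_) h3
  change rename Sum.inl f * rename Sum.inr g = rename _
    (rename (Fin.castAdd _) (rename e₁ f) * rename (Fin.natAdd _) (rename e₂ g))
  rw [map_mul, rename_rename, rename_rename, rename_rename, rename_rename]
  congr 1
  · congr 1
    congr 1
    funext i
    simp [finSumFinEquiv_symm_apply_castAdd]
  · congr 1
    congr 1
    funext i
    simp [finSumFinEquiv_symm_apply_natAdd]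

/-- **Products of several factors.** -/
theorem gm_prod {K : ℕ} : ∀ (V : Fin K → Type) [∀ k, Fintype (V k)] [∀ k, DecidableEq (V k)]
    (f : (k : Fin K) → MvPolynomial (V k) ℂ),
    (∀ k, GM M false fun _ : Fin 1 => f k) →
    GM M false fun _ : Fin 1 => (∏ k, rename (fun x => (⟨k, x⟩ : Σ k, V k)) (f k) :
      MvPolynomial (Σ k, V k) ℂ) := by
  classical
  induction K with
  | zero =>
    intro V _ _ f _
    simp only [Finset.univ_eq_empty, Finset.prod_empty]
    exact gm_one hL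
  | succ K ih =>
    intro V _ _ f hf
    have h1 := ih (fun k => V k.succ) (fun k => f k.succ) fun k => hf k.succ
    have h2 := gm_prod2 hL (f 0) _ (hf 0) h1
    set e : V 0 ⊕ (Σ k : Fin K, V k.succ) ≃ Σ k, V k := Equiv.ofBijective
      (Sum.elim (fun x => ⟨0, x⟩) fun y => ⟨y.1.succ, y.2⟩) (by
        constructor
        · rintro (x | ⟨k, x⟩) (y | ⟨l, y⟩) h
          · simp only [Sum.elim_inl, Sigma.mk.injEq, heq_eq_eq, true_and] at h
            rw [h]
          · exact absurd (congrArg Sigma.fst h) (Fin.succ_ne_zero l).symm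
          · exact absurd (congrArg Sigma.fst h) (Fin.succ_ne_zero k)
          · have h3 : k = l := Fin.succ_injective _ (congrArg Sigma.fst h)
            subst h3
            simp only [Sum.elim_inr, Sigma.mk.injEq, heq_eq_eq, true_and] at h
            rw [h]
        · rintro ⟨k, x⟩
          induction k using Fin.cases with
          | zero => exact ⟨Sum.inl x, rfl⟩
          | succ k => exact ⟨Sum.inr ⟨k, x⟩, rfl⟩) with he
    refine gm_ren hL e (Equiv.refl (Fin 1)) _ _ (fun _ => ?_) h2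
    change _ = rename e (rename Sum.inl (f 0) * rename Sum.inr
      (∏ k : Fin K, rename (fun x => (⟨k, x⟩ : Σ k : Fin K, V k.succ)) (f k.succ)))
    rw [map_mul, rename_rename, map_prod, map_prod, Fin.prod_univ_succ]
    congr 1
    refine Finset.prod_congr rfl fun k _ => ?_
    rw [rename_rename, rename_rename]
    rfl

end ren

end Pool.Agent.H1.TB
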