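import Pool.Agent.H1.TB.CV

set_option autoImplicit false
set_option linter.unusedSectionVars false
set_option linter.unusedVariables false

/-! # Changes of variables along a fibre -/

namespace Pool.Agent.H1.TB

open MvPolynomial Pool.Agent.W428.MOT Pool.Agent.TH192.MT Pool.Agent.TH192.DT Pool.Agent.Q49.CO

theorem aeval_sub_mem {K A σ : Type} [Field K] [CommRing A] [Algebra K A] (I : Ideal A)
    (P : MvPolynomial σ K) (x y : σ → A) (h : ∀ i, x i - y i ∈ I) :
    aeval x P - aeval y P ∈ I := by
  induction P using MvPolynomial.induction_on with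
  | C a =>
    rw [algHom_C, algHom_C, sub_self]
    exact I.zero_mem
  | add p q hp hq =>
    have h1 : aeval x (p + q) - aeval y (p + q) =
        (aeval x p - aeval y p) + (aeval x q - aeval y q) := by
      rw [map_add, map_add]
      ring
    rw [h1]
    exact I.add_mem hp hq
  | mul_X p i hp =>
    have h1 : aeval x (p * X i) - aeval y (p * X i) =
        x i * (aeval x p - aeval y p) + aeval y p * (x i - y i) := by
      rw [map_mul, map_mul, aeval_X, aeval_X]
      ring
    rw [h1]
    exact I.add_mem (I.mul_mem_left _ hp) (I.mul_mem_left _ (h i))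

theorem aeval_sub_dvd {K A σ : Type} [Field K] [CommRing A] [Algebra K A] (d : A)
    (P : MvPolynomial σ K) (x y : σ → A) (h : ∀ i, d ∣ x i - y i) :
    d ∣ aeval x P - aeval y P := by
  rw [← Ideal.mem_span_singleton]
  exact aeval_sub_mem _ P x y fun i => Ideal.mem_span_singleton.2 (h i)

theorem cg_iff {F : Type} [Field F] {N : ℕ} {a b : PowerSeries F} :
    Cg N a b ↔ (PowerSeries.X : PowerSeries F) ^ (N + 1) ∣ a - b := by
  rw [PowerSeries.X_pow_dvd_iff]
  constructor
  · intro h m hm
    rw [map_sub, h m (by omega), sub_self]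
  · intro h k hk
    have h1 := h k (by omega)
    rw [map_sub, sub_eq_zero] at h1
    exact h1

section fib

variable {K : Type} [Field K] {N : Type} [Fintype N] [DecidableEq N]

/-- the map which is the identity on the parameter -/
noncomputable def opt (φ : N → MvPolynomial (Option N) K) (o : Option N) :
    MvPolynomial (Option N) K := o.elim (X none) φ

/-- the maps which are affine automorphisms on the fibre over `0` -/
def IsFib (α : Matrix N N K) (β : N → K) (g φ : N → MvPolynomial (Option N) K) : Prop :=
  α.det ≠ 0 ∧ ∀ j, φ j = C (β j) + (∑ k, C (α j k) * X (some k)) + X none * g j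

variable (α : Matrix N N K) (β : N → K) (g : N → MvPolynomial (Option N) K)

/-- the inverse up to order `k` -/
noncomputable def psi : ℕ → N → MvPolynomial (Option N) K
  | 0 => fun _ => 0
  | k + 1 => fun j => ∑ i, C (α⁻¹ j i) *
      (X (some i) - C (β i) - X none * aeval (opt (psi k)) (g i))

theorem psi_step (k : ℕ) (j : N) :
    (X none : MvPolynomial (Option N) K) ^ k ∣ psi α β g (k + 1) j - psi α β g k j := by
  induction k generalizing j with
  | zero =>
    rw [pow_zero]
    exact one_dvd _
  | succ k ih =>
    have h1 : psi α β g (k + 1 + 1) j - psi α β g (k + 1) j = ∑ i, C (α⁻¹ j i) *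
        (-(X none * (aeval (opt (psi α β g (k + 1))) (g i) - aeval (opt (psi α β g k)) (g i)))) := by
      rw [psi, psi, ← Finset.sum_sub_distrib]
      refine Finset.sum_congr rfl fun i _ => ?_
      ring
    rw [h1]
    refine Finset.dvd_sum fun i _ => Dvd.dvd.mul_left (Dvd.dvd.neg_right ?_) _
    rw [pow_succ, mul_comm]
    refine mul_dvd_mul_left _ (aeval_sub_dvd _ _ _ _ fun o => ?_)
    rcases o with _ | o
    · change _ ∣ X none - X none
      rw [sub_self]
      exact dvd_zero _
    · exact ih o

theorem psi_inv {φ : N → MvPolynomial (Option N) K} (hφ : IsFib α β g φ) (k : ℕ) (j : N) :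
    (X none : MvPolynomial (Option N) K) ^ (k + 1) ∣
      aeval (opt (psi α β g (k + 1))) (φ j) - X (some j) := by
  have h1 : ∀ i, aeval (opt (psi α β g (k + 1))) (X (some i) : MvPolynomial (Option N) K) =
      psi α β g (k + 1) i := fun i => aeval_X _ _
  have h2 : aeval (opt (psi α β g (k + 1))) (φ j) = C (β j) +
      (∑ i, C (α j i) * psi α β g (k + 1) i) +
        X none * aeval (opt (psi α β g (k + 1))) (g j) := by
    rw [hφ.2, map_add, map_add, map_mul, map_sum, algHom_C, aeval_X]
    simp only [map_mul, algHom_C, h1]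
    rfl
  have hdet : IsUnit α.det := isUnit_iff_ne_zero.2 hφ.1
  have h3 : ∑ i, C (α j i) * psi α β g (k + 1) i =
      X (some j) - C (β j) - X none * aeval (opt (psi α β g k)) (g j) := by
    have h4 : ∀ (v : N → MvPolynomial (Option N) K), ∑ i, C (α j i) * ∑ l, C (α⁻¹ i l) * v l =
        v j := by
      intro v
      simp only [Finset.mul_sum]
      rw [Finset.sum_comm]
      have h5 : ∀ l, ∑ i, C (α j i) * (C (α⁻¹ i l) * v l) =
          C ((1 : Matrix N N K) j l) * v l := by
        intro l
        rw [← Matrix.mul_nonsing_inv α hdet, Matrix.mul_apply, map_sum, Finset.sum_mul]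
        refine Finset.sum_congr rfl fun i _ => ?_
        rw [map_mul, mul_assoc]
      simp only [h5, Matrix.one_apply, apply_ite C, map_one, map_zero, ite_mul, one_mul, zero_mul,
        Finset.sum_ite_eq, Finset.mem_univ, if_true]
    exact h4 _
  have h6 : aeval (opt (psi α β g (k + 1))) (φ j) - X (some j) =
      X none * (aeval (opt (psi α β g (k + 1))) (g j) - aeval (opt (psi α β g k)) (g j)) := by
    rw [h2, h3]
    ring
  rw [h6, pow_succ, mul_comm]
  refine mul_dvd_mul_left _ (aeval_sub_dvd _ _ _ _ fun o => ?_)
  rcases o with _ | o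
  · change _ ∣ X none - X none
    rw [sub_self]
    exact dvd_zero _
  · exact psi_step α β g k o

theorem fib_inj {F : Type} [Field F] [Algebra K F] {φ : N → MvPolynomial (Option N) K}
    (hφ : IsFib α β g φ) {L : ℕ}
    (x x' : Option N → PowerSeries F) (h0 : PowerSeries.coeff 0 (x none) = 0)
    (hn : Cg L (x none) (x' none))
    (h : ∀ j, Cg L (aeval x (φ j)) (aeval x' (φ j))) (o : Option N) : Cg L (x o) (x' o) := by
  have hX : (PowerSeries.X : PowerSeries F) ∣ x none := by
    rw [PowerSeries.X_dvd_iff, ← PowerSeries.coeff_zero_eq_constantCoeff_apply]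
    exact h0
  have key : ∀ k ≤ L + 1, ∀ o, (PowerSeries.X : PowerSeries F) ^ k ∣ x o - x' o := by
    intro k
    induction k with
    | zero =>
      intro _ o
      rw [pow_zero]
      exact one_dvd _
    | succ k ih =>
      intro hk o
      rcases o with _ | j
      · exact (pow_dvd_pow _ hk).trans (cg_iff.1 hn)
      have h1 : ∀ i, (PowerSeries.X : PowerSeries F) ^ (k + 1) ∣
          ∑ l, algebraMap K (PowerSeries F) (α i l) * (x (some l) - x' (some l)) := by
        intro i
        have e1 : ∀ y : Option N → PowerSeries F, aeval y (φ i) =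
            algebraMap K (PowerSeries F) (β i) +
            (∑ l, algebraMap K (PowerSeries F) (α i l) * y (some l)) +
            y none * aeval y (g i) := by
          intro y
          rw [hφ.2]
          simp only [map_add, map_mul, map_sum, aeval_X, algHom_C]
        have e2 : ∑ l, algebraMap K (PowerSeries F) (α i l) * (x (some l) - x' (some l)) =
            (aeval x (φ i) - aeval x' (φ i)) - (x none * (aeval x (g i) - aeval x' (g i)) +
              (x none - x' none) * aeval x' (g i)) := by
          rw [e1, e1]
          simp only [mul_sub, Finset.sum_sub_distrib]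
          ring
        rw [e2]
        refine dvd_sub ((pow_dvd_pow _ hk).trans (cg_iff.1 (h i))) (dvd_add ?_ ?_)
        · rw [pow_succ, mul_comm]
          exact mul_dvd_mul hX (aeval_sub_dvd _ _ _ _ fun o => ih (by omega) o)
        · exact Dvd.dvd.mul_right ((pow_dvd_pow _ hk).trans (cg_iff.1 hn)) _
      have hdet : IsUnit α.det := isUnit_iff_ne_zero.2 hφ.1
      have h2 : x (some j) - x' (some j) = ∑ i, algebraMap K (PowerSeries F) (α⁻¹ j i) *
          ∑ l, algebraMap K (PowerSeries F) (α i l) * (x (some l) - x' (some l)) := by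
        simp only [Finset.mul_sum]
        rw [Finset.sum_comm]
        have h5 : ∀ l, ∑ i, algebraMap K (PowerSeries F) (α⁻¹ j i) *
            (algebraMap K (PowerSeries F) (α i l) * (x (some l) - x' (some l))) =
            algebraMap K (PowerSeries F) ((1 : Matrix N N K) j l) *
              (x (some l) - x' (some l)) := by
          intro l
          rw [← Matrix.nonsing_inv_mul α hdet, Matrix.mul_apply, map_sum, Finset.sum_mul]
          refine Finset.sum_congr rfl fun i _ => ?_
          rw [map_mul, mul_assoc]
        simp only [h5, Matrix.one_apply, apply_ite (algebraMap K (PowerSeries F)), map_one,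
          map_zero, ite_mul, one_mul, zero_mul, Finset.sum_ite_eq, Finset.mem_univ, if_true]
      rw [h2]
      exact Finset.dvd_sum fun i _ => Dvd.dvd.mul_left (h1 i) _
  exact cg_iff.2 (key (L + 1) le_rfl o)

variable {R : Type} [CommRing R] (M : Meas K R)

/-- the fibre over `0` -/
def F0 (K N : Type) [Field K] : Set (Pt K (Option N)) := {z | z none = 0}

theorem constr_F0 : Constr (F0 K N) := by
  have h := Constr.zero (X none : MvPolynomial (Option N) K)
  simp only [aeval_X] at h
  exact h

/-- powers of the parameter along an arc -/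
theorem dvd_arc {F : Type} [Field F] [Algebra K F] (y : Option N → PowerSeries F)
    (h0 : PowerSeries.coeff 0 (y none) = 0) (k : ℕ) (P : MvPolynomial (Option N) K)
    (h : (X none : MvPolynomial (Option N) K) ^ k ∣ P) :
    (PowerSeries.X : PowerSeries F) ^ k ∣ aeval y P := by
  obtain ⟨Q, rfl⟩ := h
  rw [map_mul, map_pow, aeval_X]
  refine Dvd.dvd.mul_right (pow_dvd_pow_of_dvd ?_ k) _
  rw [PowerSeries.X_dvd_iff, ← PowerSeries.coeff_zero_eq_constantCoeff_apply]
  exact h0

/-- **Changes of variables along the fibre over `0`.** -/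
theorem chi_fibre {L : ℕ} {φ : N → MvPolynomial (Option N) K}
    (hφ : IsFib α β g φ) (f h D U : MvPolynomial (Option N) K)
    (hD : ∀ z ∈ F0 K N, aeval z D ≠ 0) (hU : ∀ z ∈ F0 K N, aeval z U ≠ 0)
    (hdvd : (X none : MvPolynomial (Option N) K) ^ L ∣ D * f - U * aeval (opt φ) h) :
    M.χ _ (GW (fun _ : Fin 1 => f) (F0 K N) L L) =
      M.χ _ (GW (fun _ : Fin 1 => h) (F0 K N) L L) := by
  have hcomp : ∀ (z : Pt K (Option N × Fin (L + 1))) (ξ : Option N → MvPolynomial (Option N) K)
      (P : MvPolynomial (Option N) K),
      aeval (fun o => aeval (ar z) (ξ o)) P = aeval (ar z) (aeval ξ P) := by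
    intro z ξ P
    rw [← AlgHom.comp_apply]
    congr 1
    refine algHom_ext fun i => ?_
    rw [AlgHom.comp_apply, aeval_X, aeval_X]
  have hz0 : ∀ z : Pt K (Option N × Fin (L + 1)), (fun i => z (i, 0)) ∈ F0 K N →
      PowerSeries.coeff 0 (ar z none) = 0 := by
    intro z hz
    rw [coeff_ar_zero]
    exact hz
  refine chi_cov M (fun _ : Fin 1 => f) (fun _ : Fin 1 => h) constr_F0 constr_F0
    (fun z o => aeval (ar z) (opt φ o)) (fun z o => aeval (ar z) (opt (psi α β g (L + 1)) o))
    (fun o => ra_poly _ (fun z => z) (fun i => IsPF.coord _) _)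
    (fun o => ra_poly _ (fun z => z) (fun i => IsPF.coord _) _) ?_ ?_ ?_ ?_ ?_
  · intro z hz
    change PowerSeries.coeff 0 (aeval (ar z) (X none : MvPolynomial (Option N) K)) = 0
    rw [aeval_X]
    exact hz0 z hz
  · intro z hz
    change PowerSeries.coeff 0 (aeval (ar z) (X none : MvPolynomial (Option N) K)) = 0
    rw [aeval_X]
    exact hz0 z hz
  · intro z hz o
    set A : Option N → PowerSeries (AlgebraicClosure K) := fun o => aeval (ar z) (opt φ o) with hA
    set y := ar (tj L A) with hy
    have hyA : ∀ o, Cg L (y o) (A o) := ar_tj L A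
    have hAn : A none = ar z none := by
      rw [hA]
      exact aeval_X _ _
    have hy0 : PowerSeries.coeff 0 (y none) = 0 := by
      rw [hyA none 0 (Nat.zero_le _), hAn]
      exact hz0 z hz
    refine fib_inj α β g hφ (fun o => aeval y (opt (psi α β g (L + 1)) o)) (ar z) ?_ ?_ ?_ o
    · change PowerSeries.coeff 0 (aeval y (X none : MvPolynomial (Option N) K)) = 0
      rw [aeval_X]
      exact hy0
    · change Cg L (aeval y (X none : MvPolynomial (Option N) K)) (ar z none)
      rw [aeval_X, ← hAn]
      exact hyA none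
    · intro j
      rw [hy, hcomp, ← hy]
      have h1 := dvd_arc y hy0 (L + 1) _ (psi_inv α β g hφ L j)
      rw [map_sub, aeval_X] at h1
      exact cg_trans (cg_iff.2 h1) (hyA (some j))
  · intro z hz o
    have h1 := cg_aevalK (opt φ o) L _ _ (ar_tj L fun o => aeval (ar z)
      (opt (psi α β g (L + 1)) o))
    refine cg_trans h1 ?_
    rw [hcomp]
    rcases o with _ | j
    · change Cg L (aeval (ar z) (aeval (opt (psi α β g (L + 1)))
        (X none : MvPolynomial (Option N) K))) _
      rw [aeval_X]
      change Cg L (aeval (ar z) (X none : MvPolynomial (Option N) K)) _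
      rw [aeval_X]
      exact cg_refl _
    · have h2 := dvd_arc (ar z) (hz0 z hz) (L + 1) _ (psi_inv α β g hφ L j)
      rw [map_sub, aeval_X] at h2
      exact cg_iff.2 h2
  · intro z hz
    have hu : ∀ P : MvPolynomial (Option N) K, (∀ z ∈ F0 K N, aeval z P ≠ 0) →
        PowerSeries.coeff 0 (aeval (ar z) P) ≠ 0 := by
      intro P hP
      rw [coeff_zero_aevalK]
      have h1 : (fun i => PowerSeries.coeff 0 (ar z i)) = fun i => z (i, 0) := by
        funext i
        rw [coeff_ar_zero]
      rw [h1]
      exact hP _ hz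
    have e1 : Vn L (aeval (ar z) f) ↔ Vn L (aeval (ar z) (D * f)) := by
      rw [map_mul, vn_unit (hu D hD)]
    have e2 : Vn L (aeval (ar z) (aeval (opt φ) h)) ↔
        Vn L (aeval (ar z) (U * aeval (opt φ) h)) := by
      rw [map_mul (aeval (ar z)) U, vn_unit (hu U hU)]
    have h1 := dvd_arc (ar z) (hz0 z hz) L _ hdvd
    rw [map_sub] at h1
    have e3 : Vn L (aeval (ar z) f) ↔ Vn L (aeval (ar z) (aeval (opt φ) h)) := by
      rw [e1, e2, vn_iff, vn_iff]
      exact dvd_iff_dvd_of_dvd_sub h1
    have e4 := hcomp z (opt φ) h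
    constructor
    · intro h5 _
      change Vn L (aeval (fun o => aeval (ar z) (opt φ o)) h)
      rw [e4]
      exact e3.1 (h5 0)
    · intro h5 _
      refine e3.2 ?_
      rw [← e4]
      exact h5 0

end fib

end Pool.Agent.H1.TB
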