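import Pool.Agent.H1.TB.CF

set_option autoImplicit false
set_option linter.unusedSectionVars false
set_option linter.unusedVariables false

/-! # Changes of variables over an open subset of the line -/

namespace Pool.Agent.H1.TB

open MvPolynomial Pool.Agent.W428.MOT Pool.Agent.TH192.MT Pool.Agent.TH192.DT Pool.Agent.Q49.CO

theorem cg_mul {F : Type} [Field F] {N : ℕ} {a b c d : PowerSeries F} (h : Cg N a b)
    (h' : Cg N c d) : Cg N (a * c) (b * d) := by
  rw [cg_iff] at *
  have h1 : a * c - b * d = a * (c - d) + (a - b) * d := by ring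
  rw [h1]
  exact dvd_add (Dvd.dvd.mul_left h' _) (Dvd.dvd.mul_right h _)

theorem cg_cancel {F : Type} [Field F] {N : ℕ} {u a b : PowerSeries F}
    (hu : PowerSeries.coeff 0 u ≠ 0) (h : Cg N (u * a) (u * b)) : Cg N a b := by
  rw [cg_iff, ← mul_sub] at h
  rw [cg_iff]
  have h1 := (vn_unit (N := N + 1) (a := a - b) hu)
  rw [vn_iff, vn_iff] at h1
  exact h1.1 h

theorem mul_inv_ps {F : Type} [Field F] {u : PowerSeries F} (hu : PowerSeries.coeff 0 u ≠ 0) :
    u * u⁻¹ = 1 := by
  rw [PowerSeries.coeff_zero_eq_constantCoeff_apply] at hu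
  exact PowerSeries.mul_inv_cancel _ hu

section gen

variable {K : Type} [Field K] {N : Type} [Fintype N] [DecidableEq N]

/-- polynomials in the parameter -/
noncomputable def pt (c : Polynomial K) : MvPolynomial (Option N) K :=
  Polynomial.aeval (X none) c

/-- affine maps with coefficients in `K[t]` -/
noncomputable def aff (α : Matrix N N (Polynomial K)) (β : N → Polynomial K) (j : N) :
    MvPolynomial (Option N) K := pt (β j) + ∑ k, pt (α j k) * X (some k)

/-- the adjoint map -/
noncomputable def adj (α : Matrix N N (Polynomial K)) (β : N → Polynomial K) (k : N) :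
    MvPolynomial (Option N) K := ∑ j, pt (α.adjugate k j) * (X (some j) - pt (β j))

theorem aeval_pt' {A : Type} [CommRing A] [Algebra K A] (x : Option N → A) (c : Polynomial K) :
    aeval x (pt c : MvPolynomial (Option N) K) = Polynomial.aeval (x none) c := by
  unfold pt
  rw [← Polynomial.aeval_algHom_apply, aeval_X]

theorem opt_pt (ℓ : N → MvPolynomial (Option N) K) (c : Polynomial K) :
    aeval (opt ℓ) (pt c : MvPolynomial (Option N) K) = pt c := by
  rw [aeval_pt']
  rfl

theorem adj_aff (α : Matrix N N (Polynomial K)) (β : N → Polynomial K) (k : N) :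
    aeval (opt (aff α β)) (adj α β k) = pt α.det * X (some k) := by
  have h1 : ∀ i, aeval (opt (aff α β)) (X (some i) : MvPolynomial (Option N) K) = aff α β i :=
    fun i => aeval_X _ _
  unfold adj
  simp only [map_sum, map_mul, map_sub, h1, opt_pt]
  unfold aff
  simp only [add_sub_cancel_left, Finset.mul_sum]
  rw [Finset.sum_comm]
  have h5 : ∀ l, ∑ i, (pt (α.adjugate k i) : MvPolynomial (Option N) K) * (pt (α i l) *
      X (some l)) = pt ((α.det • (1 : Matrix N N (Polynomial K))) k l) * X (some l) := by
    intro l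
    rw [← Matrix.adjugate_mul, Matrix.mul_apply]
    unfold pt
    rw [map_sum, Finset.sum_mul]
    refine Finset.sum_congr rfl fun i _ => ?_
    rw [map_mul, mul_assoc]
  simp only [h5, Matrix.smul_apply, Matrix.one_apply, smul_eq_mul, mul_ite, mul_one, mul_zero]
  rw [Finset.sum_eq_single k]
  · rw [if_pos rfl]
  · intro l _ hl
    rw [if_neg (Ne.symm hl)]
    unfold pt
    rw [map_zero, zero_mul]
  · exact fun h => absurd (Finset.mem_univ _) h

theorem aff_adj (α : Matrix N N (Polynomial K)) (β : N → Polynomial K) (j : N) :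
    ∑ k, pt (α j k) * adj α β k = pt α.det * (X (some j) - pt (β j)) := by
  unfold adj
  simp only [Finset.mul_sum]
  rw [Finset.sum_comm]
  have h5 : ∀ l, ∑ i, (pt (α j i) : MvPolynomial (Option N) K) * (pt (α.adjugate i l) *
      (X (some l) - pt (β l))) = pt ((α.det • (1 : Matrix N N (Polynomial K))) j l) *
        (X (some l) - pt (β l)) := by
    intro l
    rw [← Matrix.mul_adjugate, Matrix.mul_apply]
    unfold pt
    rw [map_sum, Finset.sum_mul]
    refine Finset.sum_congr rfl fun i _ => ?_
    rw [map_mul, mul_assoc]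
  simp only [h5, Matrix.smul_apply, Matrix.one_apply, smul_eq_mul, mul_ite, mul_one, mul_zero]
  rw [Finset.sum_eq_single j]
  · rw [if_pos rfl]
  · intro l _ hl
    rw [if_neg (Ne.symm hl)]
    unfold pt
    rw [map_zero, zero_mul]
  · exact fun h => absurd (Finset.mem_univ _) h

/-- the open set over which `w` does not vanish -/
def Dw (N : Type) (w : Polynomial K) : Set (Pt K (Option N)) :=
  {z | Polynomial.aeval (z none) w ≠ 0}

theorem constr_Dw (w : Polynomial K) : Constr (Dw N w) := by
  have h := (Constr.zero (pt w : MvPolynomial (Option N) K)).compl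
  have h1 : Dw N w = {z : Pt K (Option N) | aeval z (pt w : MvPolynomial (Option N) K) = 0}ᶜ := by
    ext z
    rw [Set.mem_compl_iff, Set.mem_ofPred_eq, aeval_pt']
    rfl
  rw [h1]
  exact h

variable {R : Type} [CommRing R] (M : Meas K R)

/-- **Changes of variables over an open subset of the line.** -/
theorem chi_open {L : ℕ} (α : Matrix N N (Polynomial K)) (β : N → Polynomial K)
    (w : Polynomial K) (hw : α.det ∣ w) (f h D : MvPolynomial (Option N) K)
    (hD : ∀ z ∈ Dw N w, aeval z D ≠ 0) (hf : D * f = aeval (opt (aff α β)) h) :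
    M.χ _ (GW (fun _ : Fin 1 => f) (Dw N w) L L) =
      M.χ _ (GW (fun _ : Fin 1 => h) (Dw N w) L L) := by
  have hcomp : ∀ (z : Pt K (Option N × Fin (L + 1))) (ξ : Option N → MvPolynomial (Option N) K)
      (P : MvPolynomial (Option N) K),
      aeval (fun o => aeval (ar z) (ξ o)) P = aeval (ar z) (aeval ξ P) := by
    intro z ξ P
    rw [← AlgHom.comp_apply]
    congr 1
    refine algHom_ext fun i => ?_
    rw [AlgHom.comp_apply, aeval_X, aeval_X]
  have hu : ∀ (P : MvPolynomial (Option N) K), (∀ z ∈ Dw N w, aeval z P ≠ 0) →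
      ∀ z : Pt K (Option N × Fin (L + 1)), (fun i => z (i, 0)) ∈ Dw N w →
        PowerSeries.coeff 0 (aeval (ar z) P) ≠ 0 := by
    intro P hP z hz
    rw [coeff_zero_aevalK]
    have h1 : (fun i => PowerSeries.coeff 0 (ar z i)) = fun i => z (i, 0) := by
      funext i
      rw [coeff_ar_zero]
    rw [h1]
    exact hP _ hz
  set δ : MvPolynomial (Option N) K := pt α.det with hδ
  have hδ0 : ∀ z ∈ Dw N w, aeval z δ ≠ 0 := by
    intro z hz h0
    obtain ⟨q, hq⟩ := hw
    apply hz
    rw [hδ, aeval_pt'] at h0
    rw [hq, map_mul, h0, zero_mul]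
  set B : Pt K (Option N × Fin (L + 1)) → Option N → PowerSeries (AlgebraicClosure K) :=
    fun z o => o.elim (ar z none) fun k => aeval (ar z) (adj α β k) * (aeval (ar z) δ)⁻¹ with hB
  have hor : ∀ z : Pt K (Option N × Fin (L + 1)), ∀ F : Option N →
      PowerSeries (AlgebraicClosure K), F none = ar z none → (fun i => z (i, 0)) ∈ Dw N w →
      (fun i => PowerSeries.coeff 0 (F i)) ∈ Dw N w := by
    intro z F hF hz
    change Polynomial.aeval (PowerSeries.coeff 0 (F none)) w ≠ 0
    rw [hF, coeff_ar_zero]
    exact hz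
  refine chi_cov M (fun _ : Fin 1 => f) (fun _ : Fin 1 => h) (constr_Dw w) (constr_Dw w)
    (fun z o => aeval (ar z) (opt (aff α β) o)) B
    (fun o => ra_poly _ (fun z => z) (fun i => IsPF.coord _) _) (fun o => ?_) ?_ ?_ ?_ ?_ ?_
  · rcases o with _ | k
    · have h1 := ra_poly {z : Pt K (Option N × Fin (L + 1)) | (fun i => z (i, 0)) ∈ Dw N w}
        (fun z => z) (fun i => IsPF.coord _) (X none : MvPolynomial (Option N) K)
      simp only [aeval_X] at h1
      exact h1
    · exact ra_mul (ra_poly _ (fun z => z) (fun i => IsPF.coord _) _)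
        (ra_inv (ra_poly _ (fun z => z) (fun i => IsPF.coord _) _) fun z hz => hu δ hδ0 z hz)
  · intro z hz
    exact hor z _ (aeval_X _ _) hz
  · intro z hz
    exact hor z _ rfl hz
  · intro z hz o
    set A : Option N → PowerSeries (AlgebraicClosure K) :=
      fun o => aeval (ar z) (opt (aff α β) o) with hA
    have hyA : ∀ o, Cg L (ar (tj L A) o) (A o) := ar_tj L A
    have hAn : A none = ar z none := by
      rw [hA]
      exact aeval_X _ _
    have hyW : (fun i => tj L A (i, 0)) ∈ Dw N w := hor z A hAn hz
    rcases o with _ | k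
    · change Cg L (ar (tj L A) none) (ar z none)
      rw [← hAn]
      exact hyA none
    · refine cg_cancel (hu δ hδ0 _ hyW) ?_
      have h1 : aeval (ar (tj L A)) δ * B (tj L A) (some k) = aeval (ar (tj L A)) (adj α β k) := by
        change aeval (ar (tj L A)) δ * (aeval (ar (tj L A)) (adj α β k) *
          (aeval (ar (tj L A)) δ)⁻¹) = _
        rw [mul_left_comm, mul_inv_ps (hu δ hδ0 _ hyW), mul_one]
      rw [h1]
      refine cg_trans (cg_aevalK (adj α β k) L _ _ hyA) ?_
      rw [hA, hcomp, adj_aff, map_mul, aeval_X]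
      refine cg_mul (cg_symm ?_) (cg_refl _)
      have h2 := cg_aevalK δ L _ _ hyA
      rw [hA, hcomp, hδ, opt_pt, ← hδ, ← hA] at h2
      exact h2
  · intro z hz o
    refine cg_trans (cg_aevalK (opt (aff α β) o) L _ _ (ar_tj L (B z))) ?_
    rcases o with _ | j
    · change Cg L (aeval (B z) (X none : MvPolynomial (Option N) K)) _
      rw [aeval_X]
      exact cg_refl _
    · have h3 : ∀ c : Polynomial K, aeval (B z) (pt c : MvPolynomial (Option N) K) =
          aeval (ar z) (pt c) := by
        intro c
        rw [aeval_pt', aeval_pt']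
        rfl
      have h1 : aeval (B z) (aff α β j) = ar z (some j) := by
        have h4 := congrArg (aeval (ar z)) (aff_adj α β j)
        rw [map_sum, map_mul, map_sub, aeval_X] at h4
        simp only [map_mul] at h4
        unfold aff
        rw [map_add, map_sum, h3]
        simp only [map_mul, h3, aeval_X]
        have h5 : ∀ k, aeval (ar z) (pt (α j k)) * B z (some k) =
            (aeval (ar z) (pt (α j k)) * aeval (ar z) (adj α β k)) * (aeval (ar z) δ)⁻¹ := by
          intro k
          change _ * (aeval (ar z) (adj α β k) * (aeval (ar z) δ)⁻¹) = _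
          ring
        simp only [h5]
        rw [← Finset.sum_mul, h4]
        have h6 := mul_inv_ps (hu δ hδ0 z hz)
        linear_combination (ar z (some j) - aeval (ar z) (pt (β j))) * h6
      change Cg L (aeval (B z) (aff α β j)) _
      rw [h1]
      exact cg_refl _
  · intro z hz
    have e1 : Vn L (aeval (ar z) f) ↔ Vn L (aeval (ar z) (D * f)) := by
      rw [map_mul, vn_unit (hu D hD z hz)]
    have e4 := hcomp z (opt (aff α β)) h
    constructor
    · intro h5 _
      rw [e4, ← hf]
      exact e1.1 (h5 0)
    · intro h5 _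
      refine e1.2 ?_
      rw [hf, ← e4]
      exact h5 0

end gen

end Pool.Agent.H1.TB
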