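import Pool.Graph.R_pool_sql_team_seeded_3997aac3.Q57.MD.Rows

set_option autoImplicit false
set_option linter.unusedSectionVars false
set_option linter.unusedVariables false

/-! # Changes of variables for sets of jets -/

namespace Pool.Agent.H1.TB

open MvPolynomial Pool.Agent.W428.MOT Pool.Agent.TH192.MT Pool.Agent.TH192.DT Pool.Agent.Q49.CO

section cov

variable {K : Type} [Field K] {σ τ J J' : Type} [Fintype σ] [Fintype τ] [Finite J] [Finite J']
  {R : Type} [CommRing R] (M : Meas K R)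

/-- the jet of level `N` of a family of power series -/
noncomputable def tj (N : ℕ) (F : σ → PowerSeries (AlgebraicClosure K)) :
    Pt K (σ × Fin (N + 1)) := fun q => PowerSeries.coeff q.2 (F q.1)

theorem ar_tj (N : ℕ) (F : σ → PowerSeries (AlgebraicClosure K)) (i : σ) :
    Cg N (ar (tj N F) i) (F i) := by
  intro k hk
  rw [coeff_ar, dif_pos (by omega)]
  rfl

theorem cg_symm {F : Type} [Field F] {N : ℕ} {a b : PowerSeries F} (h : Cg N a b) : Cg N b a :=
  fun k hk => (h k hk).symm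

theorem cg_trans {F : Type} [Field F] {N : ℕ} {a b c : PowerSeries F} (h : Cg N a b)
    (h' : Cg N b c) : Cg N a c := fun k hk => (h k hk).trans (h' k hk)

theorem cg_refl {F : Type} [Field F] {N : ℕ} (a : PowerSeries F) : Cg N a a := fun k hk => rfl

theorem eq_tj_of_cg {N : ℕ} {z : Pt K (σ × Fin (N + 1))}
    {F : σ → PowerSeries (AlgebraicClosure K)} (h : ∀ i, Cg N (F i) (ar z i)) : tj N F = z := by
  funext q
  have h1 := h q.1 q.2 (by have := q.2.2; omega)
  rw [tj, h1, coeff_ar, dif_pos q.2.2]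

/-- **Changes of variables.** -/
theorem chi_cov {N : ℕ} (f : J → MvPolynomial σ K) (h : J' → MvPolynomial τ K)
    {W : Set (Pt K σ)} {W' : Set (Pt K τ)} (hW : Constr W) (hW' : Constr W')
    (A : Pt K (σ × Fin (N + 1)) → τ → PowerSeries (AlgebraicClosure K))
    (B : Pt K (τ × Fin (N + 1)) → σ → PowerSeries (AlgebraicClosure K))
    (hA : ∀ i, IsRA {z : Pt K (σ × Fin (N + 1)) | (fun i => z (i, 0)) ∈ W} fun z => A z i)
    (hB : ∀ i, IsRA {z : Pt K (τ × Fin (N + 1)) | (fun i => z (i, 0)) ∈ W'} fun z => B z i)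
    (hAW : ∀ z, (fun i => z (i, 0)) ∈ W → (fun i => PowerSeries.coeff 0 (A z i)) ∈ W')
    (hBW : ∀ z, (fun i => z (i, 0)) ∈ W' → (fun i => PowerSeries.coeff 0 (B z i)) ∈ W)
    (hBA : ∀ z, (fun i => z (i, 0)) ∈ W → ∀ i, Cg N (B (tj N (A z)) i) (ar z i))
    (hAB : ∀ z, (fun i => z (i, 0)) ∈ W' → ∀ i, Cg N (A (tj N (B z)) i) (ar z i))
    (hfh : ∀ z : Pt K (σ × Fin (N + 1)), (fun i => z (i, 0)) ∈ W →
      ((∀ j, Vn N (aeval (ar z) (f j))) ↔ ∀ j, Vn N (aeval (A z) (h j)))) :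
    M.χ _ (GW f W N N) = M.χ _ (GW h W' N N) := by
  refine M.iso _ _ (constr_GW f hW N N) (constr_GW h hW' N N) (fun z => tj N (A z))
    (fun w => tj N (B w)) (fun q => ?_) (fun q => ?_) ?_ ?_ ?_ ?_
  · exact rf_mono (hA q.1 q.2) fun z hz => hz.1
  · exact rf_mono (hB q.1 q.2) fun z hz => hz.1
  · intro z hz
    refine ⟨hAW z hz.1, fun j => ?_⟩
    rw [vn_congr' (cg_aevalK (h j) N _ _ (ar_tj N (A z))) (by omega)]
    exact (hfh z hz.1).1 hz.2 j
  · intro w hw
    have h1 : (fun i => tj N (B w) (i, 0)) ∈ W := hBW w hw.1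
    refine ⟨h1, (hfh _ h1).2 fun j => ?_⟩
    rw [vn_congr' (cg_aevalK (h j) N _ _ (hAB w hw.1)) (by omega)]
    exact hw.2 j
  · intro z hz
    exact eq_tj_of_cg (hBA z hz.1)
  · intro w hw
    exact eq_tj_of_cg (hAB w hw.1)

/-- polynomials of jets are regular -/
theorem ra_poly {κ : Type} {N : ℕ} (S : Set (Pt K κ)) (φ : Pt K κ → σ × Fin (N + 1) →
    AlgebraicClosure K) (hφ : ∀ i, IsPF fun z => φ z i) (P : MvPolynomial σ K) :
    IsRA S fun z => aeval (ar (φ z)) P := fun j => (pf_coeffK φ hφ P j).isRF S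

end cov

end Pool.Agent.H1.TB
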