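import Pool.Agent.H1.TB.CF
import Pool.Graph.R_pool_sql_team_seeded_3997aac3.Q57.MD.Glob

set_option autoImplicit false
set_option linter.unusedSectionVars false
set_option linter.unusedVariables false

/-! # Charts over constructible sets; monomials -/

namespace Pool.Agent.H1.TB

open MvPolynomial Pool.Agent.W428.MOT Pool.Agent.TH192.MT Pool.Agent.TH192.DT Pool.Agent.Q49.CO
open Pool.Agent.Y229 Pool.Agent.Q57.MC Pool.Agent.Q57.MD
open Pool.Agent.W749.JI (fam JInd)

/-- the complex points as points over the algebraic closure -/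
noncomputable def cpt {σ : Type} (p : σ → ℂ) : Pt ℂ σ :=
  fun i => algebraMap ℂ (AlgebraicClosure ℂ) (p i)

section charts

variable {M : Meas ℂ (MK ℂ)} (hL : M.L = ((Lu ℂ : (MK ℂ)ˣ) : MK ℂ))
include hL

/-- **Charts over constructible sets.** -/
theorem charts_on {b : Bool} {σ J : Type} [Fintype σ] [DecidableEq σ] [Fintype J]
    [DecidableEq J] (f : J → MvPolynomial σ ℂ)
    (S : Finset (Chart σ)) (hS : ∀ A ∈ S, A.Fits f) (W : Set (Pt ℂ σ)) (hW : Constr W)
    (hp : ∀ p : σ → ℂ, cpt p ∈ W → (∀ j, eval p (f j) = 0) → ∃ A ∈ S, A.Mem p)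
    (ih : ∀ A ∈ S, PM M b A.h) :
    ∃ Q : Finset (ℤ × ℤ), (∀ q ∈ Q, q.1 < 0 ∧ 0 < q.2 ∧
      ∃ p, cpt p ∈ W ∧ SF f p ((q.1 : ℂ) / q.2)) ∧
      SW M b (((Lu ℂ)⁻¹ : (MK ℂ)ˣ) : MK ℂ) f W ∈ ratU (Lu ℂ) (Q : Set (ℤ × ℤ)) := by
  classical
  obtain ⟨Q, hQ, hz⟩ := exists_union hL b (fun p : σ → ℂ => cpt p ∈ W) S ih
  refine ⟨Q, fun q hq => ?_, ?_⟩
  · obtain ⟨h1, h2, A, hA, ⟨p, hpW, hAp⟩, h3⟩ := hQ q hq
    have h4 := sf_chart f A (hS A hA) (ih A hA).1 p hAp _ ((sf_iff A.h (ih A hA).1 _).1 h3)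
    refine ⟨h1, h2, p, hpW, ?_⟩
    convert h4
  · refine mem_chartsB M (Lu ℂ) hL f _ S hS _ hW ?_ fun p hpW hz => hp p hpW hz
    rintro A hA ⟨p, hpW, hAp⟩
    exact hz A hA ⟨p, hpW, hAp⟩

end charts

/-- principal ideals -/
theorem same_of_unit {σ : Type} {c : ℕ} (f : MvPolynomial σ ℂ) (h : MvPolynomial (Fin c) ℂ)
    (a : Fin c → MvPolynomial σ ℂ) (w : MvPolynomial σ ℂ) (u : (Localization.Away w)ˣ)
    (hu : algebraMap (MvPolynomial σ ℂ) (Localization.Away w) f = u * frac a w h) :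
    Same (fun _ : Fin 1 => f) (fun _ : Fin 1 => h) a w := by
  unfold Same
  rw [Set.range_const, Set.range_const, hu, Ideal.span_singleton_mul_left_unit u.isUnit]

/-- the unit `w` -/
noncomputable def wu {σ : Type} (w : MvPolynomial σ ℂ) : (Localization.Away w)ˣ :=
  Units.mkOfMulEqOne (algebraMap (MvPolynomial σ ℂ) (Localization.Away w) w)
    (IsLocalization.Away.invSelf w) (IsLocalization.Away.mul_invSelf w)

theorem wu_val {σ : Type} (w : MvPolynomial σ ℂ) :
    ((wu w : (Localization.Away w)ˣ) : Localization.Away w) =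
      algebraMap (MvPolynomial σ ℂ) (Localization.Away w) w := rfl

/-- monomials -/
noncomputable def mono {c : ℕ} (m : Fin c → ℕ) : Fin 1 → MvPolynomial (Fin c) ℂ :=
  fam (fun _ : Fin 1 => (0 : Fin 1)) (fun _ => m) (fun _ => (1 : ℂ))

theorem mono_eq {c : ℕ} (m : Fin c → ℕ) (i : Fin 1) : mono m i = ∏ t, X t ^ m t := by
  unfold mono fam
  have h0 : i = 0 := Subsingleton.elim _ _
  subst h0
  simp

theorem mono_tower {c : ℕ} (m : Fin c → ℕ) : Tower false c 1 (mono m) := by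
  refine Tower.sparse one_pos _ _ _ ?_ fun _ => one_ne_zero
  intro γ h1 _ j
  have h2 := h1 0
  simp at h2
  have h0 : j = 0 := Subsingleton.elim _ _
  subst h0
  exact h2

theorem frac_mono {σ : Type} {c : ℕ} (a : Fin c → MvPolynomial σ ℂ) (w : MvPolynomial σ ℂ)
    (m : Fin c → ℕ) (i : Fin 1) :
    algebraMap (MvPolynomial σ ℂ) (Localization.Away w) (∏ t, a t ^ m t) =
      ((wu w ^ (∑ t, m t) : (Localization.Away w)ˣ) : Localization.Away w) *
        frac a w (mono m i) := by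
  rw [mono_eq]
  unfold frac
  rw [map_prod, map_prod, Units.val_pow_eq_pow_val, wu_val, ← Finset.prod_pow_eq_pow_sum,
    ← Finset.prod_mul_distrib]
  refine Finset.prod_congr rfl fun t _ => ?_
  rw [map_pow, map_pow, aeval_X, mul_pow]
  have h1 := congrArg (fun x => x ^ m t) (IsLocalization.Away.mul_invSelf (S := Localization.Away w) w)
  simp only [mul_pow, one_pow] at h1
  linear_combination (-(algebraMap (MvPolynomial σ ℂ) (Localization.Away w) (a t) ^ m t)) * h1

/-- a chart for `w ^ l a ^ m` -/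
theorem fits_mono {σ : Type} {c : ℕ} (a : Fin c → MvPolynomial σ ℂ) (w : MvPolynomial σ ℂ)
    (m : Fin c → ℕ) (l : ℕ) (s : Fin c → σ) (f : MvPolynomial σ ℂ)
    (hf : f = w ^ l * ∏ t, a t ^ m t) :
    (⟨c, 1, a, w, s, mono m⟩ : Chart σ).Fits fun _ : Fin 1 => f := by
  have h1 : mono m = fun _ : Fin 1 => mono m 0 := by
    funext i
    have h0 : i = 0 := Subsingleton.elim _ _
    rw [h0]
  change Same (fun _ : Fin 1 => f) (mono m) a w
  rw [h1]
  refine same_of_unit f (mono m 0) a w (wu w ^ l * wu w ^ (∑ t, m t)) ?_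
  rw [hf, map_mul, frac_mono a w m 0, map_pow, Units.val_mul, mul_assoc,
    Units.val_pow_eq_pow_val (wu w) l, wu_val]

section one

variable {M : Meas ℂ (MK ℂ)} (hL : M.L = ((Lu ℂ : (MK ℂ)ˣ) : MK ℂ))
  (hχ : ∀ (ι : Type) [Fintype ι] (S : Set (Pt ℂ ι)),
    M.χ ι S = algebraMap (K0 ℂ) (MK ℂ) (cls ι S))
include hL hχ

/-- the powers of the parameter -/
theorem pow_rat {N : Type} [Fintype N] [DecidableEq N] (k : ℕ) :
    ∃ Q : Finset (ℤ × ℤ), (∀ q ∈ Q, q.1 < 0 ∧ 0 < q.2 ∧ ∃ p, cpt p ∈ F0 ℂ N ∧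
      SF (fun _ : Fin 1 => (X none ^ k : MvPolynomial (Option N) ℂ)) p ((q.1 : ℂ) / q.2)) ∧
      SW M false (((Lu ℂ)⁻¹ : (MK ℂ)ˣ) : MK ℂ)
        (fun _ : Fin 1 => (X none ^ k : MvPolynomial (Option N) ℂ)) (F0 ℂ N) ∈
          ratU (Lu ℂ) (Q : Set (ℤ × ℤ)) := by
  classical
  refine charts_on hL (fun _ : Fin 1 => (X none ^ k : MvPolynomial (Option N) ℂ))
    {⟨1, 1, ![X none], 1, ![none], mono ![k]⟩} ?_ _ constr_F0 ?_ ?_
  · intro A hA
    rw [Finset.mem_singleton.1 hA]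
    refine fits_mono ![X none] 1 ![k] 0 ![none] _ ?_
    simp
  · intro p hp _
    refine ⟨_, Finset.mem_singleton_self _, ?_, ?_, ?_⟩
    · simp
    · intro t
      have h0 : t = 0 := Subsingleton.elim _ _
      subst h0
      change eval p (X none) = 0
      rw [eval_X]
      exact (map_eq_zero _).1 hp
    · simp [Matrix.det_fin_one]
  · intro A hA
    rw [Finset.mem_singleton.1 hA]
    exact pm_tower hL hχ (mono_tower _)

/-- the monomials -/
theorem mon_rat {N : Type} [Fintype N] [DecidableEq N] (i : N) (m e : ℕ) (he : 0 < e) :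
    ∃ Q : Finset (ℤ × ℤ), (∀ q ∈ Q, q.1 < 0 ∧ 0 < q.2 ∧ ∃ p, cpt p ∈ F0 ℂ N ∧
      SF (fun _ : Fin 1 => (X none ^ m * X (some i) ^ e : MvPolynomial (Option N) ℂ)) p
        ((q.1 : ℂ) / q.2)) ∧
      SW M false (((Lu ℂ)⁻¹ : (MK ℂ)ˣ) : MK ℂ)
        (fun _ : Fin 1 => (X none ^ m * X (some i) ^ e : MvPolynomial (Option N) ℂ))
          (F0 ℂ N) ∈ ratU (Lu ℂ) (Q : Set (ℤ × ℤ)) := by
  classical
  refine charts_on hL
    (fun _ : Fin 1 => (X none ^ m * X (some i) ^ e : MvPolynomial (Option N) ℂ))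
    {⟨2, 1, ![X none, X (some i)], 1, ![none, some i], mono ![m, e]⟩,
      ⟨1, 1, ![X none], X (some i), ![none], mono ![m]⟩} ?_ _ constr_F0 ?_ ?_
  · intro A hA
    rcases Finset.mem_insert.1 hA with rfl | hA
    · refine fits_mono ![X none, X (some i)] 1 ![m, e] 0 ![none, some i] _ ?_
      simp
    · rw [Finset.mem_singleton.1 hA]
      refine fits_mono ![X none] (X (some i)) ![m] e ![none] _ ?_
      simp [mul_comm]
  · intro p hp hz
    have h0 : p none = 0 := (map_eq_zero _).1 hp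
    by_cases hi : p (some i) = 0
    · refine ⟨_, Finset.mem_insert_self _ _, ?_, ?_, ?_⟩
      · simp
      · intro t
        fin_cases t
        · change eval p (X none) = 0
          rw [eval_X, h0]
        · change eval p (X (some i)) = 0
          rw [eval_X, hi]
      · simp only [Matrix.det_fin_two, Matrix.of_apply]
        simp [pderiv_X, Pi.single_apply]
    · refine ⟨_, Finset.mem_insert_of_mem (Finset.mem_singleton_self _), ?_, ?_, ?_⟩
      · simpa using hi
      · intro t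
        have h0' : t = 0 := Subsingleton.elim _ _
        subst h0'
        change eval p (X none) = 0
        rw [eval_X, h0]
      · simp [Matrix.det_fin_one]
  · intro A hA
    rcases Finset.mem_insert.1 hA with rfl | hA
    · exact pm_tower hL hχ (mono_tower _)
    · rw [Finset.mem_singleton.1 hA]
      exact pm_tower hL hχ (mono_tower _)

end one

end Pool.Agent.H1.TB
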