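import Pool.Agent.H1.TB.NF

set_option autoImplicit false
set_option linter.unusedSectionVars false
set_option linter.unusedVariables false

/-! # Completion of rows, roots of units modulo powers of the parameter -/

namespace Pool.Agent.H1.TB

open MvPolynomial

section cmp

variable {K : Type} [Field K] {N : Type} [Fintype N] [DecidableEq N]

/-- completion of independent rows -/
theorem complete {T : Type} (r : T → N → K) (hr : LinearIndependent K r) :
    ∃ (ι : T → N) (α : Matrix N N K), Function.Injective ι ∧ α.det ≠ 0 ∧ ∀ j, α (ι j) = r j := by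
  classical
  have h1 : LinearIndepOn K id (Set.range r) := hr.linearIndepOn_id
  set B := Module.Basis.extend h1 with hB
  have hfin : Fintype (h1.extend (Set.subset_univ (Set.range r))) :=
    FiniteDimensional.fintypeBasisIndex B
  have hcard : Fintype.card (h1.extend (Set.subset_univ (Set.range r))) = Fintype.card N := by
    rw [← Module.finrank_eq_card_basis B, Module.finrank_fintype_fun_eq_card]
  set e := Fintype.equivOfCardEq hcard with he
  have hsub : ∀ j, r j ∈ h1.extend (Set.subset_univ (Set.range r)) := fun j =>
    h1.subset_extend (Set.subset_univ _) ⟨j, rfl⟩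
  refine ⟨fun j => e ⟨r j, hsub j⟩, Matrix.of fun n => ((e.symm n : (h1.extend
    (Set.subset_univ (Set.range r)))) : N → K), ?_, ?_, ?_⟩
  · intro i j hij
    have h2 := congrArg Subtype.val (e.injective hij)
    exact hr.injective h2
  · have h2 : LinearIndependent K (Matrix.of fun n => ((e.symm n : (h1.extend
      (Set.subset_univ (Set.range r)))) : N → K)).row := by
      have h3 := B.linearIndependent.comp e.symm e.symm.injective
      have h4 : (B ∘ e.symm : N → N → K) = (Matrix.of fun n => ((e.symm n : (h1.extend
        (Set.subset_univ (Set.range r)))) : N → K)).row := by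
        funext n
        rw [Function.comp_apply, hB, Module.Basis.extend_apply_self]
        rfl
      rw [← h4]
      exact h3
    rw [Matrix.linearIndependent_rows_iff_isUnit] at h2
    exact isUnit_iff_ne_zero.1 ((Matrix.isUnit_iff_isUnit_det _).1 h2)
  · intro j
    funext k
    rw [Matrix.of_apply, Equiv.symm_apply_apply]

/-- units have roots modulo every power of the parameter -/
theorem root_mod [IsAlgClosed K] [CharZero K] {U U₀ : MvPolynomial (Option N) K} (hU : IsU U)
    (hU₀ : IsU U₀) (e : ℕ) (he : 0 < e) (L : ℕ) :
    ∃ V : MvPolynomial (Option N) K, IsU V ∧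
      (X none : MvPolynomial (Option N) K) ^ L ∣ U₀ * V ^ e - U := by
  obtain ⟨c, g, hc, rfl⟩ := hU
  obtain ⟨d, h, hd, rfl⟩ := hU₀
  obtain ⟨r, hr⟩ := IsAlgClosed.exists_pow_nat_eq (c / d) he
  have hr0 : r ≠ 0 := by
    rintro rfl
    rw [zero_pow he.ne'] at hr
    exact div_ne_zero hc hd hr.symm
  have key : ∀ L : ℕ, ∃ G : MvPolynomial (Option N) K,
      (X none : MvPolynomial (Option N) K) ^ (L + 1) ∣
        (C d + X none * h) * (C r + X none * G) ^ e - (C c + X none * g) := by
    intro L
    induction L with
    | zero =>
      refine ⟨0, ?_⟩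
      have h1 : (C d + X none * h) * (C r + X none * (0 : MvPolynomial (Option N) K)) ^ e -
          (C c + X none * g) = X none * (h * C (r ^ e) - g) := by
        have h2 : (C c : MvPolynomial (Option N) K) = C d * C (r ^ e) := by
          rw [← map_mul, hr, mul_div_cancel₀ _ hd]
        rw [mul_zero, add_zero, ← map_pow, h2]
        ring
      rw [h1, zero_add, pow_one]
      exact dvd_mul_right _ _
    | succ L ih =>
      obtain ⟨G, R, hR⟩ := ih
      have hne : d * (e : K) * r ^ (e - 1) ≠ 0 :=
        mul_ne_zero (mul_ne_zero hd (Nat.cast_ne_zero.2 he.ne')) (pow_ne_zero _ hr0)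
      set δ : MvPolynomial (Option N) K := -(C ((d * (e : K) * r ^ (e - 1))⁻¹) * R) with hδ
      refine ⟨G + X none ^ L * δ, ?_⟩
      set V := C r + X none * G with hV
      have h1 : C r + X none * (G + X none ^ L * δ) = V + X none ^ (L + 1) * δ := by
        rw [hV]
        ring
      rw [h1]
      -- expansion of the power
      obtain ⟨A, hA⟩ : ∃ A : MvPolynomial (Option N) K, (V + X none ^ (L + 1) * δ) ^ e =
          V ^ e + (e : MvPolynomial (Option N) K) * V ^ (e - 1) * (X none ^ (L + 1) * δ) +
            A * (X none ^ (L + 1) * δ) ^ 2 := by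
        obtain ⟨A, hA⟩ := Polynomial.powAddExpansion V (X none ^ (L + 1) * δ) e
        exact ⟨A, hA⟩
      obtain ⟨W, hW⟩ : ∃ W : MvPolynomial (Option N) K, V ^ (e - 1) = C (r ^ (e - 1)) +
          X none * W := by
        have h2 : V - C r ∣ V ^ (e - 1) - C r ^ (e - 1) := sub_dvd_pow_sub_pow _ _ _
        obtain ⟨Y, hY⟩ := h2
        refine ⟨G * Y, ?_⟩
        have h3 : V - C r = X none * G := by
          rw [hV]
          ring
        rw [h3] at hY
        rw [map_pow]
        linear_combination hY
      have hCC : (C d : MvPolynomial (Option N) K) * (e : MvPolynomial (Option N) K) *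
          C (r ^ (e - 1)) * C ((d * (e : K) * r ^ (e - 1))⁻¹) = 1 := by
        have h4 : (e : MvPolynomial (Option N) K) = C (e : K) := (map_natCast C e).symm
        rw [h4, ← map_mul, ← map_mul, ← map_mul, mul_inv_cancel₀ hne, map_one]
      rw [hA, hW]
      set E : MvPolynomial (Option N) K := (e : MvPolynomial (Option N) K) with hE
      refine ⟨h * E * C (r ^ (e - 1)) * δ + (C d + X none * h) * E * W * δ +
        (C d + X none * h) * A * X none ^ L * δ ^ 2, ?_⟩
      have h5 : X none ^ (L + 1) * (C d * E * C (r ^ (e - 1)) * δ) =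
          -(X none ^ (L + 1) * R) := by
        rw [hδ]
        linear_combination (-(X none ^ (L + 1) * R)) * hCC
      linear_combination hR + h5
  obtain ⟨G, hG⟩ := key L
  exact ⟨C r + X none * G, ⟨r, G, hr0, rfl⟩, (pow_dvd_pow _ (Nat.le_succ L)).trans hG⟩

end cmp

end Pool.Agent.H1.TB
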