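import Mathlib

set_option autoImplicit false

/-! # Sums of quadric bundles over lines -/

namespace Pool.Agent.H1.TB

open MvPolynomial

/-- The polynomial `c(t) + ∑_j b_j(t) x_j + ∑_{j,j'} q_{j,j'}(t) x_j x_{j'} + ∑_i e_i(t) ∏_j z_{i,j} ^ a_{i,j}`
in the variables `t`, `x_j`, `z_{i,j}`. -/
noncomputable def block {V : Type} {N I : ℕ} {J : Fin I → ℕ} (t : V) (x : Fin N → V)
    (z : (i : Fin I) → Fin (J i) → V) (c : Polynomial ℂ) (b : Fin N → Polynomial ℂ)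
    (q : Fin N → Fin N → Polynomial ℂ) (e : Fin I → Polynomial ℂ)
    (a : (i : Fin I) → Fin (J i) → ℕ) : MvPolynomial V ℂ :=
  Polynomial.aeval (X t) c + (∑ j, Polynomial.aeval (X t) (b j) * X (x j)) +
    (∑ j, ∑ j', Polynomial.aeval (X t) (q j j') * (X (x j) * X (x j'))) +
    ∑ i, Polynomial.aeval (X t) (e i) * ∏ j, X (z i j) ^ a i j

/-- The data of a sum of quadric bundles over lines: the numbers `K`, `N k`, `I k`, `J k i ≥ 1` (for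
`k < K`, `i < I k`), polynomials `c_k, b_{k,j}, q_{k,j,j'}, e_{k,i}` of one variable (`j, j' < N k`) and
exponents `a_{k,i,j} ≥ 1` (`j < J k i`). -/
structure Bundles where
  K : ℕ
  N : Fin K → ℕ
  I : Fin K → ℕ
  J : (k : Fin K) → Fin (I k) → ℕ
  hJ : ∀ k i, 0 < J k i
  c : Fin K → Polynomial ℂ
  b : (k : Fin K) → Fin (N k) → Polynomial ℂ
  q : (k : Fin K) → Fin (N k) → Fin (N k) → Polynomial ℂ
  e : (k : Fin K) → Fin (I k) → Polynomial ℂ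
  a : (k : Fin K) → (i : Fin (I k)) → Fin (J k i) → ℕ
  ha : ∀ k i j, 0 < a k i j

/-- The variables `t_k` (`Sum.inl k`), `x_{k,j}` (`Sum.inr (Sum.inl ⟨k, j⟩)`) and `z_{k,i,j}`
(`Sum.inr (Sum.inr ⟨k, i, j⟩)`). -/
abbrev Bundles.Var (A : Bundles) : Type :=
  Fin A.K ⊕ ((Σ k, Fin (A.N k)) ⊕ (Σ k, Σ i : Fin (A.I k), Fin (A.J k i)))

/-- The polynomial `∑_k (c_k(t_k) + ∑_j b_{k,j}(t_k) x_{k,j} + ∑_{j,j'} q_{k,j,j'}(t_k) x_{k,j} x_{k,j'}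
+ ∑_i e_{k,i}(t_k) ∏_j z_{k,i,j} ^ a_{k,i,j})`. -/
noncomputable def Bundles.poly (A : Bundles) : MvPolynomial A.Var ℂ :=
  ∑ k, block (Sum.inl k : A.Var) (fun j => Sum.inr (Sum.inl ⟨k, j⟩))
    (fun i j => Sum.inr (Sum.inr ⟨k, i, j⟩)) (A.c k) (A.b k) (A.q k) (A.e k) (A.a k)

end Pool.Agent.H1.TB
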