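import Pool.Agent.H1.TB.Cmp
import Pool.Graph.R_pool_sql_team_seeded_3997aac3.Q57.MD.SW

set_option autoImplicit false
set_option linter.unusedSectionVars false
set_option linter.unusedVariables false

/-! # The model polynomials along a fibre -/

namespace Pool.Agent.H1.TB

open MvPolynomial Pool.Agent.W428.MOT Pool.Agent.TH192.MT Pool.Agent.TH192.DT Pool.Agent.Q49.CO
open Pool.Agent.H1.QB (GQ)

section mdl

variable {K : Type} [Field K] {N : Type} [Fintype N] [DecidableEq N]

/-- the model polynomial -/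
noncomputable def mdl (K : Type) [Field K] {N T : Type} [Fintype T] (ι : T → N) (m e : T → ℕ)
    (ζ : Bool) (k : ℕ) : MvPolynomial (Option N) K :=
  (∑ j, X none ^ m j * X (some (ι j)) ^ e j) + if ζ then X none ^ k else 0

/-- the data of a normal form -/
structure FD (f : MvPolynomial (Option N) K) where
  /-- the squares and lines -/
  T : Type
  /-- finite -/
  fT : Fintype T
  /-- the rows -/
  y : T → MvPolynomial (Option N) K
  /-- the linear parts -/
  r : T → N → K
  /-- the exponents of the parameter -/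
  m : T → ℕ
  /-- the exponents of the rows -/
  e : T → ℕ
  /-- units -/
  U : T → MvPolynomial (Option N) K
  /-- is there a pure power of the parameter -/
  ζ : Bool
  /-- the exponent -/
  k : ℕ
  /-- unit -/
  U₀ : MvPolynomial (Option N) K
  /-- unit -/
  D : MvPolynomial (Option N) K
  hy : ∀ j, IsRow (y j) (r j)
  hr : LinearIndependent K r
  he : ∀ j, 0 < e j ∧ e j ≤ 2
  hU : ∀ j, IsU (U j)
  hU₀ : IsU U₀
  hD : IsU D
  hk : ζ = true → ∀ j, m j ≤ k
  heq : D * f = (∑ j, U j * (X none ^ m j * y j ^ e j)) + if ζ then U₀ * X none ^ k else 0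

attribute [instance] FD.fT

/-- the terms which are divisible by `t ^ (k + 1)` are a part of the unit -/
theorem fd_of_nfr {N' : Type} {v : N' → N → K} {f : MvPolynomial (Option N) K}
    (h : NFR v f) : Nonempty (FD f) := by
  classical
  obtain ⟨T, _, y, r, m, e, U, ζ, k, U₀, D, h1, h2, -, h4, h5, h6, h7, h8⟩ := h
  by_cases hζ : ζ
  · refine ⟨⟨{j // m j ≤ k}, inferInstance, fun j => y j, fun j => r j, fun j => m j,
      fun j => e j, fun j => U j, true, k,
      U₀ + X none * ∑ j : {j // ¬ m j ≤ k}, U j * (X none ^ (m j - k - 1) * y j ^ e j), D,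
      fun j => h1 _, h2.comp _ Subtype.val_injective, fun j => h4 _, fun j => h5 _,
      h6.add _, h7, fun _ j => j.2, ?_⟩⟩
    rw [h8, if_pos hζ, if_pos rfl, ← Fintype.sum_subtype_add_sum_subtype (fun j => m j ≤ k)
      (fun j => U j * (X none ^ m j * y j ^ e j)), add_assoc]
    congr 1
    rw [add_mul, add_comm, mul_comm (X none) _, Finset.sum_mul, Finset.sum_mul]
    congr 1
    refine Finset.sum_congr rfl fun j _ => ?_
    have h9 := j.2
    have h10 : m j = (m j - k - 1) + 1 + k := by omega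
    conv_lhs => rw [h10]
    rw [pow_add, pow_add]
    ring
  · refine ⟨⟨T, inferInstance, y, r, m, e, U, false, k, U₀, D, h1, h2, h4, h5, h6, h7, ?_, ?_⟩⟩
    · intro h
      exact absurd h (by simp)
    · rw [h8, if_neg hζ]
      simp

/-- **The normal form of a quadric bundle along the fibre over `0`.** -/
theorem fd_GQ [CharZero K] (c : Polynomial K) (b : N → Polynomial K) (q : N → N → Polynomial K)
    (hq : ∀ j k, q j k = q k j) :
    Nonempty (FD (GQ c b q (X none) fun j => (X (some j) : MvPolynomial (Option N) K))) := by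
  refine fd_of_nfr (nf_main (K := K) (N := N) (Fintype.card N) N inferInstance inferInstance rfl
    (fun j => X (some j)) (fun j => Pi.single j 1) (fun j => IsRow.X j) ?_ c b q hq)
  have h1 := (Pi.basisFun K N).linearIndependent
  have h2 : (fun j : N => (Pi.single j 1 : N → K)) = Pi.basisFun K N := by
    funext j
    exact (Pi.basisFun_apply K N j).symm
  rw [h2]
  exact h1

theorem IsU.ne {U : MvPolynomial (Option N) K} (hU : IsU U) (z : Pt K (Option N))
    (hz : z ∈ F0 K N) : aeval z U ≠ 0 := by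
  obtain ⟨c, g, hc, rfl⟩ := hU
  have h0 : z none = 0 := hz
  rw [map_add, map_mul, aeval_X, h0, zero_mul, add_zero, aeval_C]
  exact (map_ne_zero _).2 hc

theorem IsRow.umul {y : MvPolynomial (Option N) K} {v : N → K} (hy : IsRow y v) (c : K)
    (g : MvPolynomial (Option N) K) : IsRow ((C c + MvPolynomial.X none * g) * y) (c • v) := by
  obtain ⟨β, h, rfl⟩ := hy
  refine ⟨c * β, C c * h + g * (C β + (∑ k, C (v k) * MvPolynomial.X (some k)) +
    MvPolynomial.X none * h), ?_⟩
  simp only [Pi.smul_apply, smul_eq_mul, map_mul, mul_assoc, ← Finset.mul_sum]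
  ring

theorem aeval_mdl {A : Type} [CommRing A] [Algebra K A] {T : Type} [Fintype T] (ι : T → N)
    (m e : T → ℕ) (ζ : Bool) (k : ℕ) (x : Option N → A) :
    aeval x (mdl K ι m e ζ k) =
      (∑ j, x none ^ m j * x (some (ι j)) ^ e j) + if ζ then x none ^ k else 0 := by
  unfold mdl
  rw [map_add, map_sum]
  congr 1
  · refine Finset.sum_congr rfl fun j _ => ?_
    rw [map_mul, map_pow, map_pow, aeval_X, aeval_X]
  · split_ifs
    · rw [map_pow, aeval_X]
    · rw [map_zero]

variable {R : Type} [CommRing R] (M : Meas K R)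

/-- **The model has the same sets of jets along the fibre.** -/
theorem chi_mdl [IsAlgClosed K] [CharZero K] {f : MvPolynomial (Option N) K} (d : FD f)
    (ι : d.T → N) (α : Matrix N N K) (hι : Function.Injective ι) (hα : α.det ≠ 0)
    (hαι : ∀ j, α (ι j) = d.r j) (L : ℕ) :
    M.χ _ (GW (fun _ : Fin 1 => f) (F0 K N) L L) =
      M.χ _ (GW (fun _ : Fin 1 => mdl K ι d.m d.e d.ζ d.k) (F0 K N) L L) := by
  classical
  choose V hV hVd using fun j => root_mod (d.hU j) d.hU₀ (d.e j) (d.he j).1 L
  choose cV gV hcV hVe using hV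
  have key : ∀ n : N, ∃ (γ : K) (β : K) (g φ : MvPolynomial (Option N) K), γ ≠ 0 ∧
      φ = C β + (∑ k, C (γ * α n k) * X (some k)) + X none * g ∧
      ∀ j, ι j = n → φ = V j * d.y j := by
    intro n
    by_cases h : ∃ j, ι j = n
    · obtain ⟨j, rfl⟩ := h
      obtain ⟨β, g, hβ⟩ := IsRow.umul (d.hy j) (cV j) (gV j)
      refine ⟨cV j, β, g, V j * d.y j, hcV j, ?_, fun j' hj' => ?_⟩
      · rw [← hVe] at hβ
        rw [hβ, hαι]
        rfl
      · rw [hι hj']
    · refine ⟨1, 0, 0, _, one_ne_zero, rfl, fun j hj => absurd ⟨j, hj⟩ h⟩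
  choose γ β g φ hγ hφ hφι using key
  have hdet : (Matrix.of fun n k => γ n * α n k).det ≠ 0 := by
    have h1 : (Matrix.of fun n k => γ n * α n k) = Matrix.diagonal γ * α := by
      ext1 n k
      rw [Matrix.diagonal_mul]
      rfl
    rw [h1, Matrix.det_mul, Matrix.det_diagonal]
    exact mul_ne_zero (Finset.prod_ne_zero_iff.2 fun n _ => hγ n) hα
  refine chi_fibre (Matrix.of fun n k => γ n * α n k) β g M (φ := φ) ⟨hdet, hφ⟩ f
    (mdl K ι d.m d.e d.ζ d.k) d.D d.U₀ (fun z hz => d.hD.ne z hz) (fun z hz => d.hU₀.ne z hz) ?_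
  rw [d.heq, aeval_mdl]
  have h1 : (∑ j, d.U j * (X none ^ d.m j * d.y j ^ d.e j)) +
      (if d.ζ then d.U₀ * X none ^ d.k else 0) -
      d.U₀ * ((∑ j, opt φ none ^ d.m j * opt φ (some (ι j)) ^ d.e j) +
        if d.ζ then opt φ none ^ d.k else 0) =
      -∑ j, (d.U₀ * V j ^ d.e j - d.U j) * (X none ^ d.m j * d.y j ^ d.e j) := by
    have h2 : ∀ j, opt φ (some (ι j)) = V j * d.y j := fun j => hφι (ι j) j rfl
    have h3 : opt φ none = X none := rfl
    simp only [h2, h3, mul_pow]
    rw [mul_add, Finset.mul_sum]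
    have h4 : d.U₀ * (if d.ζ then X none ^ d.k else 0) =
        if d.ζ then d.U₀ * X none ^ d.k else 0 := by
      rw [mul_ite, mul_zero]
    rw [h4, ← sub_sub, add_sub_right_comm, add_sub_cancel_right, ← Finset.sum_sub_distrib,
      ← Finset.sum_neg_distrib]
    refine Finset.sum_congr rfl fun j _ => ?_
    ring
  rw [h1, dvd_neg]
  exact Finset.dvd_sum fun j _ => Dvd.dvd.mul_right (hVd j) _

/-- equality of the series from the equality of the sets of jets -/
theorem SW_congr {σ τ : Type} [Fintype σ] [Fintype τ] (b : Bool) (v : R)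
    (hστ : Fintype.card σ = Fintype.card τ) (f : MvPolynomial σ K) (h : MvPolynomial τ K)
    (W : Set (Pt K σ)) (W' : Set (Pt K τ))
    (hL : ∀ L, M.χ _ (GW (fun _ : Fin 1 => f) W L L) = M.χ _ (GW (fun _ : Fin 1 => h) W' L L)) :
    Pool.Agent.Q57.MD.SW M b v (fun _ : Fin 1 => f) W =
      Pool.Agent.Q57.MD.SW M b v (fun _ : Fin 1 => h) W' := by
  have h1 : ∀ N, vol M v (fun _ : Fin 1 => f) W N = vol M v (fun _ : Fin 1 => h) W' N := by
    intro N
    unfold vol
    rw [hL, hστ]
  cases b
  · rw [Pool.Agent.Q57.MD.SW_false, Pool.Agent.Q57.MD.SW_false]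
    ext N
    simp only [ZW, PowerSeries.coeff_mk, h1]
  · rw [Pool.Agent.Q57.MD.SW_true, Pool.Agent.Q57.MD.SW_true]
    ext N
    simp only [Pool.Agent.Q57.MD.VW, PowerSeries.coeff_mk, h1]

end mdl

end Pool.Agent.H1.TB
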