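import Pool.Agent.H1.TB.Germ

set_option autoImplicit false
set_option linter.unusedSectionVars false
set_option linter.unusedVariables false

/-! # Sums of quadric bundles over lines: the block form at every point -/

namespace Pool.Agent.H1.TB

open MvPolynomial
open Pool.Agent.H1.QB

section final

variable {K : Type} [Field K] {κ : Type} [Fintype κ] {N I : κ → Type} [∀ k, Fintype (N k)]
  [∀ k, Fintype (I k)] {J : (k : κ) → I k → Type} [∀ k i, Fintype (J k i)]

/-- the translation by `P` -/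
noncomputable def tr {σ : Type} (P : σ → K) : MvPolynomial σ K →ₐ[K] MvPolynomial σ K :=
  aeval fun i => X i + C (P i)

theorem tr_aev {σ : Type} (P : σ → K) (v : σ) (c : Polynomial K) :
    tr P (Polynomial.aeval (X v) c) = Polynomial.aeval (X v + C (P v)) c := by
  unfold tr
  rw [← Polynomial.aeval_algHom_apply, aeval_X]

theorem tr_X {σ : Type} (P : σ → K) (v : σ) : tr P (X v) = X v + C (P v) := by
  unfold tr
  rw [aeval_X]

theorem tr_inj {σ : Type} (P : σ → K) (F : MvPolynomial σ K) (h : F ≠ 0) : tr P F ≠ 0 := by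
  intro h0
  apply h
  have h1 : (aeval fun i => X i - C (P i) : MvPolynomial σ K →ₐ[K] MvPolynomial σ K)
      (tr P F) = F := by
    have h2 : ((aeval fun i => X i - C (P i) : MvPolynomial σ K →ₐ[K] MvPolynomial σ K).comp
        (tr P)) = AlgHom.id K _ := by
      refine algHom_ext fun i => ?_
      rw [AlgHom.comp_apply, tr_X, map_add, aeval_X, algHom_C, AlgHom.id_apply, algebraMap_eq,
        sub_add_cancel]
    exact congrArg (fun φ : MvPolynomial σ K →ₐ[K] MvPolynomial σ K => φ F) h2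
  rw [← h1, h0, map_zero]

theorem tr_cc {σ : Type} (P : σ → K) (F : MvPolynomial σ K) :
    constantCoeff (tr P F) = eval P F := by
  unfold tr
  rw [← eval_zero, ← coe_aeval_eq_eval, ← coe_aeval_eq_eval]
  change ((aeval (0 : σ → K) : MvPolynomial σ K →ₐ[K] K).comp (aeval fun i => X i + C (P i))) F =
    (aeval P : MvPolynomial σ K →ₐ[K] K) F
  congr 1
  refine algHom_ext fun i => ?_
  simp

theorem tr_qblock (c : κ → Polynomial K)
    (b : (k : κ) → N k → Polynomial K)
    (q : (k : κ) → N k → N k → Polynomial K) (e : (k : κ) → I k → Polynomial K)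
    (a : (k : κ) → (i : I k) → J k i → ℕ)
    (P : κ ⊕ ((Σ k, N k) ⊕ (Σ k, Σ i : I k, J k i)) → K) (k : κ) :
    tr P (qblock c b q e a k) =
      GQ (c k) (b k) (q k) (X (Sum.inl k) + C (P (Sum.inl k)))
        (fun j => X (Sum.inr (Sum.inl ⟨k, j⟩)) + C (P (Sum.inr (Sum.inl ⟨k, j⟩)))) +
      ∑ i, Polynomial.aeval (X (Sum.inl k) + C (P (Sum.inl k))) (e k i) *
      ∏ j, (X (Sum.inr (Sum.inr ⟨k, i, j⟩)) + C (P (Sum.inr (Sum.inr ⟨k, i, j⟩)))) ^ a k i j := by
  have h1 : tr P (qblock c b q e a k) = aeval (fun i => X i + C (P i) :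
      _ → MvPolynomial (κ ⊕ ((Σ k, N k) ⊕ (Σ k, Σ i : I k, J k i))) K)
        (qblock c b q e a k) := rfl
  have h2 : ∀ (v : κ ⊕ ((Σ k, N k) ⊕ (Σ k, Σ i : I k, J k i))) (f : Polynomial K),
      aeval (fun i => X i + C (P i) : _ → MvPolynomial (κ ⊕ ((Σ k, N k) ⊕
        (Σ k, Σ i : I k, J k i))) K) (Polynomial.aeval (X v) f) =
      Polynomial.aeval (X v + C (P v)) f := fun v f => tr_aev P v f
  rw [h1]
  unfold qblock GQ
  simp only [map_add, map_sum, map_mul, map_prod, map_pow, aeval_X, h2]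

open Classical in
/-- **The block form at every zero.** -/
theorem bf_q [CharZero K] [∀ k i, Nonempty (J k i)] (c : κ → Polynomial K)
    (b : (k : κ) → N k → Polynomial K)
    (q : (k : κ) → N k → N k → Polynomial K) (e : (k : κ) → I k → Polynomial K)
    (a : (k : κ) → (i : I k) → J k i → ℕ) (ha : ∀ k i j, 0 < a k i j)
    (P : κ ⊕ ((Σ k, N k) ⊕ (Σ k, Σ i : I k, J k i)) → K)
    (hP : eval P (∑ k, qblock c b q e a k) = 0) :
    ∃ (B V I : Type) (_ : Fintype B) (_ : Fintype V) (_ : Fintype I)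
      (d : BD B V I), IsBF (tr P (∑ k, qblock c b q e a k)) d := by
  have hF : tr P (∑ k, qblock c b q e a k) = ∑ k, tr P (qblock c b q e a k) := map_sum _ _ _
  have hr0 : ∑ k, constantCoeff (tr P (qblock c b q e a k)) = 0 := by
    rw [← hP, ← tr_cc, hF, map_sum]
  have hFR : tr P (∑ k, qblock c b q e a k) = ∑ k, (tr P (qblock c b q e a k) -
      C (constantCoeff (tr P (qblock c b q e a k)))) := by
    have h3 : ∑ k, (C (constantCoeff (tr P (qblock c b q e a k))) :
        MvPolynomial (κ ⊕ ((Σ k, N k) ⊕ (Σ k, Σ i : I k, J k i))) K) = 0 := by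
      rw [← map_sum, hr0, map_zero]
    rw [hF, Finset.sum_sub_distrib, h3, sub_zero]
  have hFi := all_blocks (Sum.elim id (Sum.elim (fun v => v.1) (fun v => v.1)) :
    κ ⊕ ((Σ k, N k) ⊕ (Σ k, Σ i : I k, J k i)) → κ) (fun k => tr P (qblock c b q e a k) -
      C (constantCoeff (tr P (qblock c b q e a k)))) ?_ Finset.univ
  · rw [hFR]
    exact hFi.isBF
  · intro k Y _ y F hFi
    refine blk_abs y (Sum.inl k) (fun j => Sum.inr (Sum.inl ⟨k, j⟩))
      (fun v => Sum.inr (Sum.inr ⟨k, v⟩)) (c k) (b k) (q k) (e k) (a k) (ha k) P F _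
      (tr_qblock c b q e a P k) ?_
    have g4 := hFi.comp _ (inj_blocks (Y := Y) (Sum.elim id (Sum.elim (fun v => v.1)
      (fun v => v.1)) : κ ⊕ ((Σ k, N k) ⊕ (Σ k, Σ i : I k, J k i)) → κ) k (Sum.inl k)
      (fun j : N k => Sum.inr (Sum.inl ⟨k, j⟩))
      (fun v : Σ i : I k, J k i => Sum.inr (Sum.inr ⟨k, v⟩)) rfl (fun _ => rfl) (fun _ => rfl) (by
        rintro ((j | v) | u) ((j' | v') | u') h <;> simp at h <;> simp [h]))
    convert g4 using 1
    funext t
    rcases t with ((t | t) | t) | t <;> rfl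

end final

end Pool.Agent.H1.TB
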