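import Pool.Agent.H1.TB.RP
import Pool.Agent.H1.TB.Pt
import Pool.Agent.H1.TB.Mdl
import Pool.Graph.R_pool_sql_team_seeded_3997aac3.Q149.QT.Tr1

set_option autoImplicit false
set_option linter.unusedSectionVars false
set_option linter.unusedVariables false

/-! # Transfer of roots between points -/

namespace Pool.Agent.H1.TB

open MvPolynomial Pool.Agent.Y229 Pool.Agent.Q57.MC Pool.Agent.Q57.MD
open Pool.Agent.H1.QB (root_series exists_minor coeff1_mul)
open Pool.Agent.H628R4.TP (IsBFunction)

section core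

variable {σ τ : Type} [Fintype σ] [DecidableEq σ] [Fintype τ] [DecidableEq τ]

/-- the translation of a polynomial, as a power series -/
noncomputable def ser {σ : Type} (p : σ → ℂ) : MvPolynomial σ ℂ →ₐ[ℂ] MvPowerSeries σ ℂ :=
  (MvPolynomial.coeToMvPowerSeries.algHom (R := ℂ) ℂ).comp (tr p)

theorem ser_apply {σ : Type} (p : σ → ℂ) (P : MvPolynomial σ ℂ) :
    ser p P = ((tr p P : MvPolynomial σ ℂ) : MvPowerSeries σ ℂ) := by
  unfold ser
  rw [AlgHom.comp_apply, MvPolynomial.coeToMvPowerSeries.algHom_apply, Algebra.algebraMap_self,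
    MvPowerSeries.map_id]
  rfl

theorem ser_cc {σ : Type} (p : σ → ℂ) (P : MvPolynomial σ ℂ) :
    MvPowerSeries.constantCoeff (ser p P) = eval p P := by
  rw [ser_apply, ← tr_cc, ← MvPowerSeries.coeff_zero_eq_constantCoeff_apply,
    MvPolynomial.coeff_coe]
  rfl

theorem ser_X {σ : Type} (p : σ → ℂ) (i : σ) :
    ser p (X i) = MvPowerSeries.X i + MvPowerSeries.C (p i) := by
  rw [ser_apply, tr_X, MvPolynomial.coe_add, MvPolynomial.coe_X, MvPolynomial.coe_C]

theorem ser_C {σ : Type} (p : σ → ℂ) (c : ℂ) :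
    ser p (C c) = MvPowerSeries.C c := by
  rw [ser_apply]
  have h1 : tr p (C c) = C c := by
    rw [← MvPolynomial.algebraMap_eq, AlgHom.commutes]
  rw [h1, MvPolynomial.coe_C]

/-- **Transfer of roots between points.** -/
theorem sf_pts (F : MvPolynomial σ ℂ) (H : MvPolynomial τ ℂ) (hH : H ≠ 0) (p' : σ → ℂ)
    (p : τ → ℂ) (G : τ → MvPowerSeries σ ℂ) (hG : ∀ t, MvPowerSeries.constantCoeff (G t) = 0)
    (hli : LinearIndependent ℂ fun t => fun i : σ => MvPowerSeries.coeff (Finsupp.single i 1) (G t))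
    (A B : MvPowerSeries σ ℂ) (hA : MvPowerSeries.constantCoeff A ≠ 0)
    (hB : MvPowerSeries.constantCoeff B ≠ 0)
    (heq : A * ser p' F = B * aeval (fun t => G t + MvPowerSeries.C (p t)) H) (α : ℂ)
    (h : SF (fun _ : Fin 1 => H) p α) : SF (fun _ : Fin 1 => F) p' α := by
  classical
  set e := Fintype.equivFin τ with he
  set H' : MvPolynomial (Fin (Fintype.card τ)) ℂ := rename e (tr p H) with hH'
  -- roots of `H'` at the origin
  have h1 : SF (fun _ : Fin 1 => tr p H) 0 α := by
    have h2 := (Pool.Agent.Q149.QT.sf_trans (fun _ : Fin 1 => H) p α).1 h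
    exact h2
  have h3 : SF (fun _ : Fin 1 => H') 0 α := by
    refine sf_equiv e (Equiv.refl (Fin 1)) (fun _ : Fin 1 => tr p H) (fun _ : Fin 1 => H')
      (fun _ => rfl) 0 α ?_
    exact h1
  have hne : H' ≠ 0 := by
    rw [hH', Ne, map_eq_zero_iff _ (rename_injective _ e.injective)]
    exact tr_inj p H hH
  have h4 : ∀ b, IsLocalBI (fun _ : Fin 1 => H') b → b.eval α = 0 :=
    fun b hb => h3.localBI b hb
  -- the transfer
  obtain ⟨s, hs⟩ := exists_minor (fun t : Fin (Fintype.card τ) => fun i : σ =>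
    MvPowerSeries.coeff (Finsupp.single i 1) (G (e.symm t))) (hli.comp e.symm e.symm.injective)
  have h5 : aeval (fun t => G (e.symm t)) H' =
      aeval (fun t => G t + MvPowerSeries.C (p t)) H := by
    rw [hH', aeval_rename]
    unfold tr
    rw [← AlgHom.comp_apply]
    congr 1
    refine algHom_ext fun t => ?_
    rw [AlgHom.comp_apply, aeval_X, aeval_X, map_add, aeval_X, aeval_C, Function.comp_apply,
      Equiv.symm_apply_apply]
    rfl
  have h6 : Transf (fun _ : Fin 1 => tr p' F) (fun _ : Fin 1 => H') 0 := by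
    refine transfer_formal (fun _ : Fin 1 => tr p' F) (fun _ : Fin 1 => H')
      (fun t => G (e.symm t)) s (fun t => hG _) hs ?_
    rw [Set.range_const, Set.range_const, h5, ← ser_apply]
    apply le_antisymm
    · rw [Ideal.span_singleton_le_span_singleton]
      refine ⟨A⁻¹ * B, ?_⟩
      have k1 : A * A⁻¹ = 1 := MvPowerSeries.mul_inv_cancel _ hA
      linear_combination (-(ser p' F)) * k1 + A⁻¹ * heq
    · rw [Ideal.span_singleton_le_span_singleton]
      refine ⟨B⁻¹ * A, ?_⟩
      have k1 : B * B⁻¹ = 1 := MvPowerSeries.mul_inv_cancel _ hB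
      linear_combination (-(aeval (fun t => G t + MvPowerSeries.C (p t)) H)) * k1 - B⁻¹ * heq
  have h7 := sf_of_transf (fun _ : Fin 1 => tr p' F) (fun _ : Fin 1 => H') 0 h6 ⟨0, hne⟩ α h4
  exact (Pool.Agent.Q149.QT.sf_trans (fun _ : Fin 1 => F) p' α).2 h7

/-- roots of quotients of units -/
theorem root_units {σ : Type} (U V : MvPowerSeries σ ℂ)
    (hU : MvPowerSeries.constantCoeff U ≠ 0) (hV : MvPowerSeries.constantCoeff V ≠ 0) (e : ℕ)
    (he : 0 < e) (r : ℂ)
    (hr : MvPowerSeries.constantCoeff V * r ^ e = MvPowerSeries.constantCoeff U) :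
    ∃ (ρ : MvPowerSeries σ ℂ), MvPowerSeries.constantCoeff ρ = r ∧
      V * ρ ^ e = U ∧ ∀ i, MvPowerSeries.coeff (Finsupp.single i 1) U = 0 →
        MvPowerSeries.coeff (Finsupp.single i 1) V = 0 →
          MvPowerSeries.coeff (Finsupp.single i 1) ρ = 0 := by
  set a := MvPowerSeries.constantCoeff U with ha
  set b := MvPowerSeries.constantCoeff V with hb
  have hr' : r ^ e = a / b := by
    rw [eq_div_iff hV, mul_comm]
    exact hr
  have hr0 : r ≠ 0 := by
    rintro rfl
    rw [zero_pow he.ne'] at hr'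
    exact div_ne_zero hU hV hr'.symm
  have hVV : V * V⁻¹ = 1 := MvPowerSeries.mul_inv_cancel _ hV
  obtain ⟨w, hw, hw1⟩ := root_series (MvPowerSeries.C (b / a) * (U * V⁻¹)) (by
    rw [map_mul, map_mul, MvPowerSeries.constantCoeff_C, MvPowerSeries.constantCoeff_inv, ← ha,
      ← hb]
    field_simp) e he.ne'
  have hρ : MvPowerSeries.constantCoeff (MvPowerSeries.C r * w) = r := by
    rw [map_mul, MvPowerSeries.constantCoeff_C, hw1, mul_one]
  have hmain : V * (MvPowerSeries.C r * w) ^ e = U := by
    rw [mul_pow, hw, ← map_pow, hr']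
    have h1 : (MvPowerSeries.C (a / b) : MvPowerSeries σ ℂ) * MvPowerSeries.C (b / a) = 1 := by
      rw [← map_mul]
      have h2 : a / b * (b / a) = 1 := by
        field_simp
      rw [h2, map_one]
    linear_combination (V * U * V⁻¹) * h1 + U * hVV
  refine ⟨MvPowerSeries.C r * w, hρ, hmain, fun i h1 h2 => ?_⟩
  have hpow : ∀ n : ℕ, MvPowerSeries.coeff (Finsupp.single i 1) ((MvPowerSeries.C r * w) ^ n) =
      n * r ^ (n - 1) * MvPowerSeries.coeff (Finsupp.single i 1) (MvPowerSeries.C r * w) := by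
    intro n
    induction n with
    | zero =>
      rw [pow_zero, Nat.cast_zero, zero_mul, zero_mul]
      classical
      rw [MvPowerSeries.coeff_one, if_neg (by simp)]
    | succ n ih =>
      rw [pow_succ, coeff1_mul, ih, map_pow, hρ, Nat.add_sub_cancel]
      rcases Nat.eq_zero_or_pos n with rfl | hn
      · simp
      · obtain ⟨k, rfl⟩ : ∃ k, n = k + 1 := ⟨n - 1, by omega⟩
        rw [Nat.add_sub_cancel]
        push_cast
        ring
  have h3 := congrArg (MvPowerSeries.coeff (Finsupp.single i 1)) hmain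
  rw [coeff1_mul, h2, zero_mul, zero_add, hpow, h1] at h3
  have h4 : (e : ℂ) * r ^ (e - 1) ≠ 0 :=
    mul_ne_zero (Nat.cast_ne_zero.2 he.ne') (pow_ne_zero _ hr0)
  have h5 := (mul_eq_zero.1 h3).resolve_left hV
  exact (mul_eq_zero.1 h5).resolve_left h4

end core

section fibre

variable {N : Type} [Fintype N] [DecidableEq N]

/-- the linear coefficients of multiples of the parameter -/
theorem coeff1_none (g : MvPowerSeries (Option N) ℂ) (k : N) :
    MvPowerSeries.coeff (Finsupp.single (some k) 1) (MvPowerSeries.X none * g) = 0 := by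
  classical
  have h0 : MvPowerSeries.coeff (Finsupp.single (some k) 1)
      (MvPowerSeries.X none : MvPowerSeries (Option N) ℂ) = 0 := by
    rw [MvPowerSeries.coeff_X, if_neg]
    intro h
    rw [Finsupp.single_left_inj one_ne_zero] at h
    exact absurd h (by simp)
  rw [coeff1_mul, MvPowerSeries.constantCoeff_X, zero_mul, h0, zero_mul, add_zero]

/-- the series of a unit -/
theorem ser_unit (p : Option N → ℂ) (hp : p none = 0) (c : ℂ) (g : MvPolynomial (Option N) ℂ) :
    ser p (C c + X none * g) = MvPowerSeries.C c + MvPowerSeries.X none * ser p g := by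
  rw [map_add, map_mul, ser_X, hp, map_zero, add_zero, ser_C]

/-- **The roots of the model are roots of the polynomial, at other points of the fibre.** -/
theorem fd_sf {f : MvPolynomial (Option N) ℂ} (d : FD f)
    (ι : d.T → N) (α : Matrix N N ℂ) (hι : Function.Injective ι) (hα : α.det ≠ 0)
    (hαι : ∀ j, α (ι j) = d.r j) (hne : mdl ℂ ι d.m d.e d.ζ d.k ≠ 0)
    (p : Option N → ℂ) (hp : p none = 0) (a : ℂ)
    (h : SF (fun _ : Fin 1 => mdl ℂ ι d.m d.e d.ζ d.k) p a) :
    ∃ p' : Option N → ℂ, p' none = 0 ∧ SF (fun _ : Fin 1 => f) p' a := by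
  classical
  choose cU gU hcU hU using d.hU
  obtain ⟨c₀, g₀, hc₀, hU₀⟩ := d.hU₀
  obtain ⟨cD, gD, hcD, hD⟩ := d.hD
  choose β g hy using d.hy
  have hs : ∀ j, ∃ s : ℂ, c₀ * s ^ d.e j = cU j := fun j => by
    obtain ⟨s, hs⟩ := IsAlgClosed.exists_pow_nat_eq (cU j / c₀) (d.he j).1
    exact ⟨s, by rw [hs, mul_div_cancel₀ _ hc₀]⟩
  choose s hs using hs
  have hs0 : ∀ j, s j ≠ 0 := by
    intro j h0
    have h1 := hs j
    rw [h0, zero_pow (d.he j).1.ne', mul_zero] at h1
    exact hcU j h1.symm
  have htar : ∀ n : N, ∃ x : ℂ, ∀ j, ι j = n → x = p (some n) / s j - β j := by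
    intro n
    by_cases h : ∃ j, ι j = n
    · obtain ⟨j, rfl⟩ := h
      exact ⟨p (some (ι j)) / s j - β j, fun j' hj' => by rw [hι hj']⟩
    · exact ⟨0, fun j hj => absurd ⟨j, hj⟩ h⟩
  choose target htar using htar
  set x : N → ℂ := α⁻¹.mulVec target with hx
  have hαx : α.mulVec x = target := by
    rw [hx, Matrix.mulVec_mulVec, Matrix.mul_nonsing_inv _ (isUnit_iff_ne_zero.2 hα),
      Matrix.one_mulVec]
  set p' : Option N → ℂ := fun o => o.elim 0 x with hp'
  have hp'0 : p' none = 0 := rfl
  have hcc : ∀ j, eval p' (d.y j) = p (some (ι j)) / s j := by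
    intro j
    rw [hy j, map_add, map_add, map_mul, eval_X, hp'0, zero_mul, add_zero, eval_C, map_sum]
    have h1 : (∑ k, eval p' (C (d.r j k) * X (some k))) = α.mulVec x (ι j) := by
      rw [Matrix.mulVec, dotProduct, hαι]
      refine Finset.sum_congr rfl fun k _ => ?_
      rw [map_mul, eval_C, eval_X]
      rfl
    rw [h1, hαx, htar (ι j) j rfl]
    ring
  -- the units
  have hρ : ∀ j, ∃ ρ : MvPowerSeries (Option N) ℂ, MvPowerSeries.constantCoeff ρ = s j ∧
      ser p' d.U₀ * ρ ^ d.e j = ser p' (d.U j) ∧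
      ∀ k : N, MvPowerSeries.coeff (Finsupp.single (some k) 1) ρ = 0 := by
    intro j
    have e1 : MvPowerSeries.constantCoeff (ser p' (d.U j)) = cU j := by
      rw [hU j, ser_unit p' hp'0, map_add, map_mul, MvPowerSeries.constantCoeff_C,
        MvPowerSeries.constantCoeff_X, zero_mul, add_zero]
    have e2 : MvPowerSeries.constantCoeff (ser p' d.U₀) = c₀ := by
      rw [hU₀, ser_unit p' hp'0, map_add, map_mul, MvPowerSeries.constantCoeff_C,
        MvPowerSeries.constantCoeff_X, zero_mul, add_zero]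
    have e3 : ∀ (c : ℂ) (g : MvPolynomial (Option N) ℂ) (k : N), MvPowerSeries.coeff
        (Finsupp.single (some k) 1) (ser p' (C c + X none * g)) = 0 := by
      intro c g k
      rw [ser_unit p' hp'0, map_add, coeff1_none, add_zero, MvPowerSeries.coeff_C, if_neg]
      simp
    obtain ⟨ρ, h1, h2, h3⟩ := root_units (ser p' (d.U j)) (ser p' d.U₀)
      (by rw [e1]; exact hcU j) (by rw [e2]; exact hc₀) (d.e j) (d.he j).1 (s j)
      (by rw [e1, e2]; exact hs j)
    refine ⟨ρ, h1, h2, fun k => h3 _ ?_ ?_⟩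
    · rw [hU j]
      exact e3 _ _ _
    · rw [hU₀]
      exact e3 _ _ _
  choose ρ hρ1 hρ2 hρ3 using hρ
  -- linear coefficients of the rows
  have hyl : ∀ j k, MvPowerSeries.coeff (Finsupp.single (some k) 1) (ser p' (d.y j)) =
      d.r j k := by
    intro j k
    rw [hy j, map_add, map_add, map_mul, ser_X, hp'0, map_zero, add_zero, map_add, map_add,
      coeff1_none, add_zero, ser_C, MvPowerSeries.coeff_C,
      if_neg (by simp), zero_add, map_sum, map_sum, Finset.sum_eq_single k]
    · rw [map_mul, ser_X, ser_C, MvPowerSeries.coeff_C_mul, map_add,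
        MvPowerSeries.coeff_X, if_pos rfl, MvPowerSeries.coeff_C, if_neg (by simp)]
      ring
    · intro l _ hl
      rw [map_mul, ser_X, ser_C, MvPowerSeries.coeff_C_mul, map_add,
        MvPowerSeries.coeff_X, if_neg, MvPowerSeries.coeff_C, if_neg (by simp), add_zero, mul_zero]
      intro h
      rw [Finsupp.single_left_inj one_ne_zero] at h
      exact hl (Option.some_injective _ h).symm
    · exact fun h => absurd (Finset.mem_univ _) h
  have key : ∀ n : N, ∃ (γ : ℂ) (φ : MvPowerSeries (Option N) ℂ), γ ≠ 0 ∧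
      MvPowerSeries.constantCoeff φ = 0 ∧
      (∀ k : N, MvPowerSeries.coeff (Finsupp.single (some k) 1) φ = γ * α n k) ∧
      ∀ j, ι j = n → φ = ρ j * ser p' (d.y j) - MvPowerSeries.C (p (some n)) := by
    intro n
    by_cases h : ∃ j, ι j = n
    · obtain ⟨j, rfl⟩ := h
      refine ⟨s j, ρ j * ser p' (d.y j) - MvPowerSeries.C (p (some (ι j))), hs0 j, ?_,
        fun k => ?_, fun j' hj' => by rw [hι hj']⟩
      · rw [map_sub, map_mul, hρ1, ser_cc, hcc, MvPowerSeries.constantCoeff_C,
          mul_div_cancel₀ _ (hs0 j), sub_self]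
      · rw [map_sub, coeff1_mul, hρ3, zero_mul, zero_add, hρ1, hyl, MvPowerSeries.coeff_C,
          if_neg (by simp), sub_zero, hαι]
    · refine ⟨1, ∑ k, MvPowerSeries.C (α n k) * MvPowerSeries.X (some k), one_ne_zero, ?_,
        fun k => ?_, fun j hj => absurd ⟨j, hj⟩ h⟩
      · rw [map_sum]
        exact Finset.sum_eq_zero fun k _ => by
          rw [map_mul, MvPowerSeries.constantCoeff_X, mul_zero]
      · rw [map_sum, Finset.sum_eq_single k]
        · rw [MvPowerSeries.coeff_C_mul, MvPowerSeries.coeff_X, if_pos rfl]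
          ring
        · intro l _ hl
          rw [MvPowerSeries.coeff_C_mul, MvPowerSeries.coeff_X, if_neg, mul_zero]
          intro h
          rw [Finsupp.single_left_inj one_ne_zero] at h
          exact hl (Option.some_injective _ h).symm
        · exact fun h => absurd (Finset.mem_univ _) h
  choose γ φ hγ hφ0 hφl hφι using key
  have hdet : (Matrix.of fun n k => γ n * α n k).det ≠ 0 := by
    have h1 : (Matrix.of fun n k => γ n * α n k) = Matrix.diagonal γ * α := by
      ext1 n k
      rw [Matrix.diagonal_mul]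
      rfl
    rw [h1, Matrix.det_mul, Matrix.det_diagonal]
    exact mul_ne_zero (Finset.prod_ne_zero_iff.2 fun n _ => hγ n) hα
  have hrows : LinearIndependent ℂ (Matrix.of fun n k => γ n * α n k).row :=
    Matrix.linearIndependent_rows_iff_isUnit.2
      ((Matrix.isUnit_iff_isUnit_det _).2 (isUnit_iff_ne_zero.2 hdet))
  refine ⟨p', hp'0, sf_pts f (mdl ℂ ι d.m d.e d.ζ d.k) hne p' p
    (fun o => o.elim (MvPowerSeries.X none) φ) ?_ ?_ (ser p' d.D) (ser p' d.U₀) ?_ ?_ ?_ a h⟩
  · rintro (_ | n)
    · exact MvPowerSeries.constantCoeff_X _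
    · exact hφ0 n
  · rw [Fintype.linearIndependent_iff]
    intro c hc
    have h0 : ∀ k : N, MvPowerSeries.coeff (Finsupp.single (some k) 1)
        (MvPowerSeries.X none : MvPowerSeries (Option N) ℂ) = 0 := by
      intro k
      have h1 := coeff1_none (N := N) 1 k
      rwa [mul_one] at h1
    have h1 : ∀ n, c (some n) = 0 := by
      rw [Fintype.linearIndependent_iff] at hrows
      refine hrows (fun n => c (some n)) ?_
      funext k
      have h2 := congrFun hc (some k)
      rw [Finset.sum_apply, Fintype.sum_option] at h2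
      simp only [Pi.smul_apply, Option.elim, smul_eq_mul, h0, mul_zero, zero_add, hφl] at h2
      rw [Finset.sum_apply]
      exact h2
    have h2 := congrFun hc none
    rw [Finset.sum_apply, Fintype.sum_option] at h2
    simp only [Pi.smul_apply, Option.elim, smul_eq_mul, h1, zero_mul, Finset.sum_const_zero,
      add_zero, MvPowerSeries.coeff_X, if_true, mul_one, Pi.zero_apply] at h2
    rintro (_ | n)
    · exact h2
    · exact h1 n
  · rw [hD, ser_unit p' hp'0, map_add, map_mul, MvPowerSeries.constantCoeff_C,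
      MvPowerSeries.constantCoeff_X, zero_mul, add_zero]
    exact hcD
  · rw [hU₀, ser_unit p' hp'0, map_add, map_mul, MvPowerSeries.constantCoeff_C,
      MvPowerSeries.constantCoeff_X, zero_mul, add_zero]
    exact hc₀
  · rw [aeval_mdl, ← map_mul, d.heq, map_add, map_sum, mul_add, Finset.mul_sum]
    have hX : ser p' (X none) = MvPowerSeries.X none := by
      rw [ser_X, hp'0, map_zero, add_zero]
    congr 1
    · refine Finset.sum_congr rfl fun j _ => ?_
      simp only [Option.elim]
      rw [hφι (ι j) j rfl, hp, map_zero, add_zero, sub_add_cancel, mul_pow, map_mul, map_mul,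
        map_pow, map_pow, hX, ← hρ2 j]
      ring
    · cases d.ζ
      · simp
      · rw [if_pos rfl, if_pos rfl, map_mul, map_pow, hX]
        simp only [Option.elim]
        rw [hp, map_zero, add_zero]

end fibre

end Pool.Agent.H1.TB
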