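import Pool.Agent.H1.TB.MR
import Pool.Agent.H1.TB.FT
import Pool.Agent.H1.QB.Main

set_option autoImplicit false
set_option linter.unusedSectionVars false
set_option linter.unusedVariables false

/-! # Quadric bundles along a fibre -/

namespace Pool.Agent.H1.TB

open MvPolynomial Pool.Agent.W428.MOT Pool.Agent.TH192.MT Pool.Agent.TH192.DT Pool.Agent.Q49.CO
open Pool.Agent.Y229 Pool.Agent.Q57.MC Pool.Agent.Q57.MD
open Pool.Agent.H1.QB (GQ GQ_local)

section fib

variable {M : Meas ℂ (MK ℂ)} (hL : M.L = ((Lu ℂ : (MK ℂ)ˣ) : MK ℂ))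
  (hχ : ∀ (ι : Type) [Fintype ι] (S : Set (Pt ℂ ι)),
    M.χ ι S = algebraMap (K0 ℂ) (MK ℂ) (cls ι S))
variable {N : Type} [Fintype N] [DecidableEq N]

/-- the quadric bundle over the line -/
noncomputable def qb (c : Polynomial ℂ) (b : N → Polynomial ℂ) (q : N → N → Polynomial ℂ) :
    MvPolynomial (Option N) ℂ :=
  GQ c b q (X none) fun j => (X (some j) : MvPolynomial (Option N) ℂ)

include hL hχ in
/-- **The fibre over `0`.** -/
theorem fibre_zero (c : Polynomial ℂ) (b : N → Polynomial ℂ) (q : N → N → Polynomial ℂ)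
    (hq : ∀ j k, q j k = q k j) (hne : qb c b q ≠ 0) :
    ∃ Q : Finset (ℤ × ℤ), (∀ x ∈ Q, x.1 < 0 ∧ 0 < x.2 ∧ ∃ p : Option N → ℂ,
      SF (fun _ : Fin 1 => qb c b q) p ((x.1 : ℂ) / x.2)) ∧
      SW M false (((Lu ℂ)⁻¹ : (MK ℂ)ˣ) : MK ℂ)
        (fun _ : Fin 1 => qb c b q) (F0 ℂ N) ∈ ratU (Lu ℂ) (Q : Set (ℤ × ℤ)) := by
  classical
  obtain ⟨d⟩ := fd_GQ c b q hq
  obtain ⟨ι, α, hι, hα, hαι⟩ := complete d.r d.hr
  have hT : Nonempty d.T ∨ d.ζ = true := by
    by_contra hcon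
    push Not at hcon
    obtain ⟨h1, h2⟩ := hcon
    have h3 := d.heq
    rw [Finset.sum_of_isEmpty, zero_add, if_neg h2] at h3
    obtain ⟨cD, gD, hcD, hD⟩ := d.hD
    have h4 : d.D ≠ 0 := by
      intro h0
      have h5 := congrArg constantCoeff hD
      rw [h0, map_zero, map_add, map_mul, constantCoeff_X, constantCoeff_C, zero_mul,
        add_zero] at h5
      exact hcD h5.symm
    exact hne ((mul_eq_zero.1 h3).resolve_left h4)
  obtain ⟨Q, hQ, hz⟩ := mdl_rat hL hχ ι hι d.m d.e (fun j => (d.he j).1) d.ζ d.k d.hk hT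
  refine ⟨Q, fun x hx => ?_, ?_⟩
  · obtain ⟨h1, h2, p, hp, h3⟩ := hQ x hx
    obtain ⟨p', -, h4⟩ := fd_sf d ι α hι hα hαι
      (mdl_ne ι hι d.m d.e (fun j => (d.he j).1) d.ζ d.k hT) p hp _ h3
    exact ⟨h1, h2, p', h4⟩
  · rw [SW_congr M false _ rfl (qb c b q) (mdl ℂ ι d.m d.e d.ζ d.k) (F0 ℂ N) (F0 ℂ N)
      fun L => chi_mdl M d ι α hι hα hαι L]
    exact hz

/-- translations of sets of jets -/
theorem chi_tr {σ : Type} [Fintype σ] {R : Type} [CommRing R] (M : Meas ℂ R) {L : ℕ}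
    (p : σ → ℂ) (f : MvPolynomial σ ℂ)
    {W W' : Set (Pt ℂ σ)} (hW : Constr W) (hW' : Constr W')
    (hWW : ∀ z : Pt ℂ σ, z ∈ W' ↔ (fun i => z i + algebraMap ℂ (AlgebraicClosure ℂ) (p i)) ∈ W) :
    M.χ _ (GW (fun _ : Fin 1 => f) W L L) = M.χ _ (GW (fun _ : Fin 1 => tr p f) W' L L) := by
  have hcomp : ∀ (z : Pt ℂ (σ × Fin (L + 1))) (ξ : σ → MvPolynomial σ ℂ)
      (P : MvPolynomial σ ℂ),
      aeval (fun o => aeval (ar z) (ξ o)) P = aeval (ar z) (aeval ξ P) := by
    intro z ξ P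
    rw [← AlgHom.comp_apply]
    congr 1
    refine algHom_ext fun i => ?_
    rw [AlgHom.comp_apply, aeval_X, aeval_X]
  have hCC : ∀ (x : σ → PowerSeries (AlgebraicClosure ℂ)) (c : ℂ),
      aeval x (C c : MvPolynomial σ ℂ) = PowerSeries.C (algebraMap ℂ (AlgebraicClosure ℂ) c) := by
    intro x c
    rw [algHom_C]
    exact PowerSeries.algebraMap_apply
  have hs : ∀ (x : σ → PowerSeries (AlgebraicClosure ℂ)) (i : σ),
      aeval x (X i - C (p i) : MvPolynomial σ ℂ) =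
        x i - PowerSeries.C (algebraMap ℂ (AlgebraicClosure ℂ) (p i)) := by
    intro x i
    rw [map_sub, aeval_X, hCC]
  have ha : ∀ (x : σ → PowerSeries (AlgebraicClosure ℂ)) (i : σ),
      aeval x (X i + C (p i) : MvPolynomial σ ℂ) =
        x i + PowerSeries.C (algebraMap ℂ (AlgebraicClosure ℂ) (p i)) := by
    intro x i
    rw [map_add, aeval_X, hCC]
  refine chi_cov M (fun _ : Fin 1 => f) (fun _ : Fin 1 => tr p f) hW hW'
    (fun z o => aeval (ar z) (X o - C (p o) : MvPolynomial σ ℂ))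
    (fun z o => aeval (ar z) (X o + C (p o) : MvPolynomial σ ℂ))
    (fun o => ra_poly _ (fun z => z) (fun i => IsPF.coord _) _)
    (fun o => ra_poly _ (fun z => z) (fun i => IsPF.coord _) _) ?_ ?_ ?_ ?_ ?_
  · intro z hz
    rw [hWW]
    have h1 : (fun i => PowerSeries.coeff 0 (aeval (ar z) (X i - C (p i) : MvPolynomial σ ℂ)) +
        algebraMap ℂ (AlgebraicClosure ℂ) (p i)) = fun i => z (i, 0) := by
      funext i
      rw [hs, map_sub, PowerSeries.coeff_zero_C, sub_add_cancel, coeff_ar_zero]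
    rw [h1]
    exact hz
  · intro z hz
    have h1 : (fun i => PowerSeries.coeff 0 (aeval (ar z) (X i + C (p i) : MvPolynomial σ ℂ))) =
        fun i => z (i, 0) + algebraMap ℂ (AlgebraicClosure ℂ) (p i) := by
      funext i
      rw [ha, map_add, PowerSeries.coeff_zero_C, coeff_ar_zero]
    rw [h1]
    exact (hWW _).1 hz
  · intro z hz i
    have h1 := ar_tj L (fun o => aeval (ar z) (X o - C (p o) : MvPolynomial σ ℂ)) i
    rw [ha]
    intro k hk
    rw [map_add, h1 k hk, ← map_add, hs, sub_add_cancel]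
  · intro z hz i
    have h1 := ar_tj L (fun o => aeval (ar z) (X o + C (p o) : MvPolynomial σ ℂ)) i
    rw [hs]
    intro k hk
    rw [map_sub, h1 k hk, ← map_sub, ha, add_sub_cancel_right]
  · intro z hz
    have h2 : aeval (fun o => aeval (ar z) (X o - C (p o) : MvPolynomial σ ℂ)) (tr p f) =
        aeval (ar z) f := by
      unfold tr
      rw [← AlgHom.comp_apply]
      congr 1
      refine algHom_ext fun i => ?_
      rw [AlgHom.comp_apply, aeval_X, map_add, aeval_X, hs, hCC, sub_add_cancel, aeval_X]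
    constructor
    · intro h3 _
      change Vn L (aeval (fun o => aeval (ar z) (X o - C (p o) : MvPolynomial σ ℂ)) (tr p f))
      rw [h2]
      exact h3 0
    · intro h3 _
      change Vn L (aeval (ar z) f)
      rw [← h2]
      exact h3 0

/-- translations of roots -/
theorem sf_tr {σ : Type} [Fintype σ] [DecidableEq σ] (f : MvPolynomial σ ℂ) (P p : σ → ℂ)
    (α : ℂ) (h : SF (fun _ : Fin 1 => tr P f) p α) :
    SF (fun _ : Fin 1 => f) (fun i => p i + P i) α := by
  have h1 := (Pool.Agent.Q149.QT.sf_trans (fun _ : Fin 1 => tr P f) p α).1 h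
  refine (Pool.Agent.Q149.QT.sf_trans (fun _ : Fin 1 => f) (fun i => p i + P i) α).2 ?_
  have h2 : (fun j : Fin 1 => aeval (fun i => X i + C (p i)) ((fun _ : Fin 1 => tr P f) j)) =
      fun j : Fin 1 => aeval (fun i => X i + C (p i + P i)) ((fun _ : Fin 1 => f) j) := by
    funext j
    change (aeval fun i => X i + C (p i)) ((aeval fun i => X i + C (P i)) f) = _
    rw [← AlgHom.comp_apply]
    congr 1
    refine algHom_ext fun i => ?_
    rw [AlgHom.comp_apply, aeval_X, aeval_X, map_add, aeval_X, algHom_C, map_add, algebraMap_eq,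
      add_assoc]
  rw [← h2]
  exact h1

/-- the fibre over a point -/
def Ft (N : Type) (t : ℂ) : Set (Pt ℂ (Option N)) := {z | z none = algebraMap ℂ _ t}

theorem constr_Ft (t : ℂ) : Constr (Ft N t) := by
  have h := Constr.zero (X none - C t : MvPolynomial (Option N) ℂ)
  have h1 : Ft N t = {z : Pt ℂ (Option N) | aeval z (X none - C t : MvPolynomial (Option N) ℂ) =
      0} := by
    ext z
    rw [Set.mem_ofPred_eq, map_sub, aeval_X, algHom_C, sub_eq_zero]
    rfl
  rw [h1]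
  exact h

/-- the translation of a quadric bundle -/
theorem tr_qb (c : Polynomial ℂ) (b : N → Polynomial ℂ) (q : N → N → Polynomial ℂ)
    (t : ℂ) : ∃ (c' : Polynomial ℂ) (b' : N → Polynomial ℂ) (q' : N → N → Polynomial ℂ),
      (∀ j k, q' j k = q' k j) ∧
      tr (fun o => Option.elim o t fun _ => 0) (qb c b q) = qb c' b' q' := by
  obtain ⟨c', b', q', hq', h⟩ := GQ_local c b q (X none : MvPolynomial (Option N) ℂ)
    (fun j => X (some j)) t (fun _ => 0)
  refine ⟨c', b', q', hq', ?_⟩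
  unfold qb
  rw [← h]
  unfold GQ
  simp only [map_add, map_sum, map_mul, tr_aev, tr_X]
  rfl

include hL hχ in
/-- **The fibre over a point.** -/
theorem fibre_at (c : Polynomial ℂ) (b : N → Polynomial ℂ) (q : N → N → Polynomial ℂ)
    (hne : qb c b q ≠ 0) (t : ℂ) :
    ∃ Q : Finset (ℤ × ℤ), (∀ x ∈ Q, x.1 < 0 ∧ 0 < x.2 ∧ ∃ p : Option N → ℂ,
      SF (fun _ : Fin 1 => qb c b q) p ((x.1 : ℂ) / x.2)) ∧
      SW M false (((Lu ℂ)⁻¹ : (MK ℂ)ˣ) : MK ℂ)
        (fun _ : Fin 1 => qb c b q) (Ft N t) ∈ ratU (Lu ℂ) (Q : Set (ℤ × ℤ)) := by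
  classical
  obtain ⟨c', b', q', hq', h⟩ := tr_qb c b q t
  obtain ⟨Q, hQ, hz⟩ := fibre_zero hL hχ c' b' q' hq' (by
    rw [← h]
    exact tr_inj _ _ hne)
  refine ⟨Q, fun x hx => ?_, ?_⟩
  · obtain ⟨h1, h2, p, h3⟩ := hQ x hx
    rw [← h] at h3
    exact ⟨h1, h2, _, sf_tr _ _ _ _ h3⟩
  · rw [SW_congr M false _ rfl (qb c b q) (qb c' b' q') (Ft N t) (F0 ℂ N) fun L => ?_]
    · exact hz
    · rw [← h]
      refine chi_tr M _ _ (constr_Ft t) constr_F0 fun z => ?_
      change z none = 0 ↔ z none + algebraMap ℂ (AlgebraicClosure ℂ) t = algebraMap ℂ _ t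
      rw [add_eq_right]

end fib

end Pool.Agent.H1.TB
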