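import Pool.Agent.H1.TB.Mdl

set_option autoImplicit false
set_option linter.unusedSectionVars false
set_option linter.unusedVariables false

/-! # Normal forms over the general points of the line -/

namespace Pool.Agent.H1.TB

open MvPolynomial
open Pool.Agent.H1.QB (GQ GQ_square GQ_change GQ_c GQ_smul sum_ne)

section row

variable {K : Type} [Field K] {N : Type} [Fintype N] (F : Type) [Field F]
  [Algebra (Polynomial K) F]

/-- the polynomial is affine, with linear part `v` -/
def IsGR (y : MvPolynomial (Option N) K) (v : N → F) : Prop :=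
  ∃ (β : Polynomial K) (w : N → Polynomial K),
    y = pt β + (∑ k, pt (w k) * X (some k)) ∧ ∀ k, v k = algebraMap (Polynomial K) F (w k)

variable {F}

theorem IsGR.add {y z : MvPolynomial (Option N) K} {v w : N → F} (hy : IsGR F y v)
    (hz : IsGR F z w) : IsGR F (y + z) (v + w) := by
  obtain ⟨β, a, rfl, ha⟩ := hy
  obtain ⟨γ, b, rfl, hb⟩ := hz
  refine ⟨β + γ, a + b, ?_, fun k => ?_⟩
  · simp only [pt_add, Pi.add_apply, add_mul, Finset.sum_add_distrib]
    ring
  · rw [Pi.add_apply, Pi.add_apply, ha, hb, map_add]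

theorem IsGR.pt (c : Polynomial K) : IsGR F (pt c : MvPolynomial (Option N) K) 0 :=
  ⟨c, 0, by simp [pt_zero], by simp⟩

theorem IsGR.zero : IsGR F (0 : MvPolynomial (Option N) K) 0 := by
  have h := IsGR.pt (F := F) (N := N) (0 : Polynomial K)
  rwa [pt_zero] at h

theorem IsGR.smul {y : MvPolynomial (Option N) K} {v : N → F} (hy : IsGR F y v)
    (c : Polynomial K) : IsGR F (TB.pt c * y) (algebraMap (Polynomial K) F c • v) := by
  obtain ⟨β, a, rfl, ha⟩ := hy
  refine ⟨c * β, fun k => c * a k, ?_, fun k => ?_⟩
  · simp only [pt_mul, mul_assoc, ← Finset.mul_sum]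
    ring
  · rw [Pi.smul_apply, ha, map_mul, smul_eq_mul]

theorem IsGR.sum {ι : Type} (s : Finset ι) (y : ι → MvPolynomial (Option N) K)
    (v : ι → N → F) (h : ∀ i ∈ s, IsGR F (y i) (v i)) :
    IsGR F (∑ i ∈ s, y i) (∑ i ∈ s, v i) := by
  classical
  induction s using Finset.induction_on with
  | empty =>
    rw [Finset.sum_empty, Finset.sum_empty]
    exact IsGR.zero
  | insert a s ha ih =>
    rw [Finset.sum_insert ha, Finset.sum_insert ha]
    exact (h a (Finset.mem_insert_self _ _)).add
      (ih fun i hi => h i (Finset.mem_insert_of_mem hi))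

theorem IsGR.X [DecidableEq N] (j : N) :
    IsGR F (X (some j) : MvPolynomial (Option N) K) (Pi.single j 1) := by
  refine ⟨0, Pi.single j 1, ?_, fun k => ?_⟩
  · rw [pt_zero, zero_add, Finset.sum_eq_single j]
    · rw [Pi.single_eq_same, pt_one, one_mul]
    · intro k _ hk
      rw [Pi.single_eq_of_ne hk, pt_zero, zero_mul]
    · exact fun h => absurd (Finset.mem_univ _) h
  · by_cases h : k = j
    · subst h
      rw [Pi.single_eq_same, Pi.single_eq_same, map_one]
    · rw [Pi.single_eq_of_ne h, Pi.single_eq_of_ne h, map_zero]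

theorem IsGR.neg {y : MvPolynomial (Option N) K} {v : N → F} (hy : IsGR F y v) :
    IsGR F (-y) (-v) := by
  obtain ⟨β, a, rfl, ha⟩ := hy
  refine ⟨-β, fun k => -a k, ?_, fun k => ?_⟩
  · have h1 : ∀ c : Polynomial K, (TB.pt (-c) : MvPolynomial (Option N) K) = -TB.pt c :=
      fun c => map_neg _ _
    simp only [h1, neg_mul, Finset.sum_neg_distrib]
    ring
  · rw [Pi.neg_apply, ha, map_neg]

theorem IsGR.sub {y z : MvPolynomial (Option N) K} {v w : N → F} (hy : IsGR F y v)
    (hz : IsGR F z w) : IsGR F (y - z) (v - w) := by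
  rw [sub_eq_add_neg, sub_eq_add_neg]
  exact hy.add hz.neg

end row

section nf

variable {K : Type} [Field K] {N : Type} [Fintype N] (F : Type) [Field F]
  [Algebra (Polynomial K) F] [IsFractionRing (Polynomial K) F]

/-- Normal forms over the general points. -/
def NFG {N' : Type} (v : N' → N → F) (P : MvPolynomial (Option N) K) : Prop :=
  ∃ (T : Type) (_ : Fintype T) (y : T → MvPolynomial (Option N) K) (r : T → N → F)
    (e : T → ℕ) (U : T → Polynomial K) (c D : Polynomial K), (∀ j, IsGR F (y j) (r j)) ∧
    LinearIndependent F r ∧ (∀ j, r j ∈ Submodule.span F (Set.range v)) ∧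
    (∀ j, 0 < e j ∧ e j ≤ 2) ∧ (∀ j, U j ≠ 0) ∧ D ≠ 0 ∧
    pt D * P = (∑ j, pt (U j) * y j ^ e j) + pt c

variable {F}

theorem ng_const {N' : Type} (v : N' → N → F) (c : Polynomial K) :
    NFG F v (pt c : MvPolynomial (Option N) K) := by
  refine ⟨Empty, inferInstance, fun j => j.elim, fun j => j.elim, fun j => j.elim,
    fun j => j.elim, c, 1, fun j => j.elim, linearIndependent_empty_type, fun j => j.elim,
    fun j => j.elim, fun j => j.elim, one_ne_zero, ?_⟩
  rw [Finset.sum_of_isEmpty, zero_add, pt_one, one_mul]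

theorem ng_line {N' : Type} (v : N' → N → F) (y : MvPolynomial (Option N) K)
    (r : N → F) (hy : IsGR F y r) (hr : r ∈ Submodule.span F (Set.range v)) (hr0 : r ≠ 0) :
    NFG F v y := by
  refine ⟨Unit, inferInstance, fun _ => y, fun _ => r, fun _ => 1, fun _ => 1, 0, 1,
    fun _ => hy, linearIndependent_unique_iff.2 hr0, fun _ => hr,
    fun _ => ⟨one_pos, one_le_two⟩, fun _ => one_ne_zero, one_ne_zero, ?_⟩
  simp [pt_zero, pt_one]

/-- splitting off a square -/
theorem ng_cons {N' N'' : Type} (v : N' → N → F) (v' : N'' → N → F)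
    (hv : Submodule.span F (Set.range v') ≤ Submodule.span F (Set.range v))
    (P P' ξ : MvPolynomial (Option N) K) (u : Polynomial K) (r : N → F) (hu : u ≠ 0)
    (hξ : IsGR F ξ r)
    (hr : r ∈ Submodule.span F (Set.range v)) (hr' : r ∉ Submodule.span F (Set.range v'))
    (heq : pt u * P = ξ ^ 2 + P') (h : NFG F v' P') : NFG F v P := by
  classical
  obtain ⟨T, _, y, ρ, e, U, c, D, h1, h2, h3, h4, h5, h7, h8⟩ := h
  refine ⟨T ⊕ Unit, inferInstance, Sum.elim y fun _ => ξ, Sum.elim ρ fun _ => r,
    Sum.elim e fun _ => 2, Sum.elim U fun _ => D, c, D * u,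
    ?_, ?_, ?_, ?_, ?_, mul_ne_zero h7 hu, ?_⟩
  · rintro (j | j)
    · exact h1 j
    · exact hξ
  · refine h2.sum_type (linearIndependent_unique_iff.2 ?_) ?_
    · rintro rfl
      exact hr' (Submodule.zero_mem _)
    · rw [Submodule.disjoint_def]
      intro w hw hw'
      rw [Set.range_const, Submodule.mem_span_singleton] at hw'
      obtain ⟨a, rfl⟩ := hw'
      by_cases ha : a = 0
      · rw [ha, zero_smul]
      · exfalso
        apply hr'
        have h9 : Submodule.span F (Set.range ρ) ≤ Submodule.span F (Set.range v') := by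
          rw [Submodule.span_le]
          rintro _ ⟨j, rfl⟩
          exact h3 j
        have h10 := Submodule.smul_mem _ a⁻¹ (h9 hw)
        rwa [smul_smul, inv_mul_cancel₀ ha, one_smul] at h10
  · rintro (j | j)
    · exact hv (h3 j)
    · exact hr
  · rintro (j | j)
    · exact h4 j
    · exact ⟨two_pos, le_rfl⟩
  · rintro (j | j)
    · exact h5 j
    · exact h7
  · rw [pt_mul, mul_assoc, heq, mul_add, h8, Fintype.sum_sum_type]
    simp only [Sum.elim_inl, Sum.elim_inr, Finset.univ_unique, Finset.sum_singleton]
    ring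

theorem ng_span {N' N'' : Type} (v : N' → N → F) (v' : N'' → N → F)
    (hv : Submodule.span F (Set.range v') ≤ Submodule.span F (Set.range v))
    (P : MvPolynomial (Option N) K) (h : NFG F v' P) : NFG F v P := by
  obtain ⟨T, _, y, ρ, e, U, c, D, h1, h2, h3, h4, h5, h7, h8⟩ := h
  exact ⟨T, inferInstance, y, ρ, e, U, c, D, h1, h2, fun j => hv (h3 j), h4, h5, h7, h8⟩

variable (K F N) in
/-- the statement for a given number of coordinates -/
def GStm (n : ℕ) : Prop :=
  ∀ (N' : Type) (_ : Fintype N') (_ : DecidableEq N'), Fintype.card N' = n →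
    ∀ (x : N' → MvPolynomial (Option N) K) (v : N' → N → F), (∀ j, IsGR F (x j) (v j)) →
    LinearIndependent F v → ∀ (c : Polynomial K) (b : N' → Polynomial K)
    (q : N' → N' → Polynomial K), (∀ j k, q j k = q k j) → NFG F v (GQ c b q (X none) x)

theorem ng_square [CharZero K] {N' : Type} [Fintype N'] [DecidableEq N'] (n : ℕ)
    (hn : Fintype.card N' = n + 1) (ih : GStm K N F n) (x : N' → MvPolynomial (Option N) K)
    (v : N' → N → F) (hx : ∀ j, IsGR F (x j) (v j)) (hv : LinearIndependent F v)
    (c : Polynomial K) (b : N' → Polynomial K) (q : N' → N' → Polynomial K)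
    (hq : ∀ j k, q j k = q k j) (j₀ : N') (hj₀ : q j₀ j₀ ≠ 0) :
    NFG F v (GQ c b q (X none) x) := by
  have h4 : (4 : Polynomial K) ≠ 0 := by exact_mod_cast (by norm_num : (4 : ℕ) ≠ 0)
  have h2 : (2 : Polynomial K) ≠ 0 := two_ne_zero
  set c' := 4 * q j₀ j₀ * c - b j₀ ^ 2 with hc'
  set b' : {j // j ≠ j₀} → Polynomial K := fun j =>
    4 * q j₀ j₀ * b j.1 - 4 * (b j₀ * q j₀ j.1) with hb'
  set q' : {j // j ≠ j₀} → {j // j ≠ j₀} → Polynomial K := fun j k =>
    4 * q j₀ j₀ * q j.1 k.1 - 4 * (q j₀ j.1 * q j₀ k.1) with hq'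
  have hsq := GQ_square c b q hq (X none : MvPolynomial (Option N) K) x j₀
  set ξ : MvPolynomial (Option N) K := Polynomial.aeval (X none) (2 * q j₀ j₀) * x j₀ +
    (Polynomial.aeval (X none) (b j₀) +
      ∑ j : {j // j ≠ j₀}, Polynomial.aeval (X none) (2 * q j₀ j.1) * x j.1) with hξ
  have hrow : IsGR F ξ (∑ j, algebraMap (Polynomial K) F (2 * q j₀ j) • v j) := by
    have e1 : IsGR F (∑ j : {j // j ≠ j₀}, Polynomial.aeval (X none : MvPolynomial (Option N) K)
        (2 * q j₀ j.1) * x j.1)
        (∑ j : {j // j ≠ j₀}, algebraMap (Polynomial K) F (2 * q j₀ j.1) • v j.1) :=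
      IsGR.sum _ _ _ fun j _ => (hx j.1).smul _
    have e2 := ((hx j₀).smul (2 * q j₀ j₀)).add ((IsGR.pt (F := F) (N := N) (b j₀)).add e1)
    rw [zero_add] at e2
    rw [sum_ne _ j₀]
    exact e2
  refine ng_cons v (fun j : {j // j ≠ j₀} => v j.1) (span_sub v _) _
    (GQ c' b' q' (X none) fun j : {j // j ≠ j₀} => x j.1)
    ξ (4 * q j₀ j₀) _ (mul_ne_zero h4 hj₀) hrow ?_ ?_ hsq ?_
  · exact Submodule.sum_mem _ fun j _ => Submodule.smul_mem _ _
      (Submodule.subset_span ⟨j, rfl⟩)
  · refine li_sub v hv j₀ (fun j => algebraMap (Polynomial K) F (2 * q j₀ j)) ?_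
    beta_reduce
    rw [Ne, FaithfulSMul.algebraMap_eq_zero_iff]
    exact mul_ne_zero h2 hj₀
  · refine ih {j // j ≠ j₀} inferInstance inferInstance ?_ (fun j => x j.1) _ (fun j => hx _)
      (hv.comp _ Subtype.val_injective) _ _ _ fun j k => ?_
    · have e3 := Fintype.card_subtype_compl (fun j => j = j₀)
      rw [Fintype.card_subtype_eq] at e3
      rw [e3, hn]
      rfl
    · rw [hq']
      beta_reduce
      rw [hq j.1 k.1]
      ring

theorem ng_main [CharZero K] (n : ℕ) : GStm K N F n := by
  induction n with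
  | zero =>
    intro N' _ _ hN x v hx hv c b q hq
    have : IsEmpty N' := Fintype.card_eq_zero_iff.1 hN
    have h1 : GQ c b q (X none : MvPolynomial (Option N) K) x = pt c := by
      unfold GQ
      simp
      rfl
    rw [h1]
    exact ng_const v c
  | succ n ih =>
    intro N' _ _ hN x v hx hv c b q hq
    by_cases hdiag : ∃ j, q j j ≠ 0
    · obtain ⟨j₀, hj₀⟩ := hdiag
      exact ng_square n hN ih x v hx hv c b q hq j₀ hj₀
    push Not at hdiag
    by_cases hoff : ∃ j k, q j k ≠ 0
    · obtain ⟨j, k, hjk0⟩ := hoff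
      have hjk : j ≠ k := by
        rintro rfl
        exact hjk0 (hdiag j)
      have h2' : (2 : Polynomial K) ≠ 0 := two_ne_zero
      set x' : N' → MvPolynomial (Option N) K := fun i => x i - if i = k then x j else 0
        with hx'
      set v' : N' → N → F := fun i => v i - if i = k then v j else 0 with hv'
      have hxx : x = fun i => x' i + if i = k then x' j else 0 := by
        funext i
        rw [hx']
        beta_reduce
        rw [if_neg hjk, sub_zero, sub_add_cancel]
      have hx'r : ∀ i, IsGR F (x' i) (v' i) := by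
        intro i
        rw [hx', hv']
        beta_reduce
        split_ifs
        · exact (hx i).sub (hx j)
        · exact (hx i).sub IsGR.zero
      have hv'i : LinearIndependent F v' := by
        rw [Fintype.linearIndependent_iff] at hv ⊢
        intro c hc
        have e1 : ∑ i, (c i - if i = j then c k else 0) • v i = 0 := by
          rw [← hc, hv']
          simp only [sub_smul, smul_sub, Finset.sum_sub_distrib]
          congr 1
          simp [ite_smul, smul_ite]
        have e2 := hv _ e1
        have e3 : c k = 0 := by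
          have := e2 k
          rwa [if_neg (Ne.symm hjk), sub_zero] at this
        intro i
        have := e2 i
        rwa [e3, ite_self, sub_zero] at this
      have e0 : GQ c b q (X none : MvPolynomial (Option N) K) x =
          GQ c (fun i => b i + if i = j then b k else 0)
            (fun i i' => q i i' + (if i = j then q k i' else 0) +
              (if i' = j then q i k else 0) +
              (if i = j then (if i' = j then q k k else 0) else 0))
            (X none) x' := by
        rw [← GQ_change c b q (X none) x' j k, ← hxx]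
      rw [e0]
      refine ng_span v v' ?_ _ (ng_square n hN ih x' v' hx'r hv'i _ _ _ (fun i i' => ?_) j ?_)
      · rw [Submodule.span_le]
        rintro _ ⟨i, rfl⟩
        rw [SetLike.mem_coe, hv']
        beta_reduce
        refine Submodule.sub_mem _ (Submodule.subset_span ⟨i, rfl⟩) ?_
        split_ifs
        · exact Submodule.subset_span ⟨j, rfl⟩
        · exact Submodule.zero_mem _
      · rw [hq i i', hq k i', hq i k]
        split_ifs <;> ring
      · simp only [if_true]
        rw [hdiag, hdiag, hq k j, zero_add, add_zero, ← two_mul]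
        exact mul_ne_zero h2' hjk0
    · push Not at hoff
      have h1 : GQ c b q (X none : MvPolynomial (Option N) K) x =
          pt c + ∑ j, pt (b j) * x j := by
        unfold GQ
        simp only [hoff, map_zero, zero_mul, Finset.sum_const_zero, add_zero]
        rfl
      rw [h1]
      by_cases hb : ∃ j, b j ≠ 0
      · obtain ⟨j₀, hj₀⟩ := hb
        have h2 : IsGR F (pt c + ∑ j, pt (b j) * x j)
            (∑ j, algebraMap (Polynomial K) F (b j) • v j) := by
          have e1 := (IsGR.pt (F := F) (N := N) c).add (IsGR.sum Finset.univ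
            (fun j => pt (b j) * x j) _ fun j _ => (hx j).smul (b j))
          rw [zero_add] at e1
          exact e1
        refine ng_line v _ _ h2 ?_ ?_
        · exact Submodule.sum_mem _ fun j _ => Submodule.smul_mem _ _
            (Submodule.subset_span ⟨j, rfl⟩)
        · intro h0
          have h3 := Fintype.linearIndependent_iff.1 hv _ h0 j₀
          rw [FaithfulSMul.algebraMap_eq_zero_iff] at h3
          exact hj₀ h3
      · push Not at hb
        simp only [hb, pt_zero, zero_mul, Finset.sum_const_zero, add_zero]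
        exact ng_const v c

end nf

section gd

variable {K : Type} [Field K] {N : Type} [Fintype N] [DecidableEq N]

/-- the generic model -/
noncomputable def gmd {T : Type} [Fintype T] (ι : T → N) (e : T → ℕ) (U : T → Polynomial K)
    (c : Polynomial K) : MvPolynomial (Option N) K :=
  (∑ j, pt (U j) * X (some (ι j)) ^ e j) + pt c

/-- **The normal form of a quadric bundle over the general points of the line.** -/
theorem exists_gd [CharZero K] (c : Polynomial K) (b : N → Polynomial K)
    (q : N → N → Polynomial K) (hq : ∀ j k, q j k = q k j) :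
    ∃ (T : Type) (_ : Fintype T) (ι : T → N) (e : T → ℕ) (U : T → Polynomial K)
      (α : Matrix N N (Polynomial K)) (β : N → Polynomial K) (c' D : Polynomial K),
      Function.Injective ι ∧ (∀ j, 0 < e j ∧ e j ≤ 2) ∧ (∀ j, U j ≠ 0) ∧ α.det ≠ 0 ∧ D ≠ 0 ∧
      pt D * GQ c b q (X none) (fun j => (X (some j) : MvPolynomial (Option N) K)) =
        aeval (opt (aff α β)) (gmd ι e U c') := by
  classical
  set F := FractionRing (Polynomial K) with hF
  have hli : LinearIndependent F (fun j : N => (Pi.single j 1 : N → F)) := by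
    have h1 := (Pi.basisFun F N).linearIndependent
    have h2 : (fun j : N => (Pi.single j 1 : N → F)) = Pi.basisFun F N := by
      funext j
      exact (Pi.basisFun_apply F N j).symm
    rw [h2]
    exact h1
  obtain ⟨T, _, y, r, e, U, c', D, h1, h2, -, h4, h5, h7, h8⟩ :=
    ng_main (K := K) (N := N) (F := F) (Fintype.card N) N inferInstance inferInstance rfl
    (fun j => X (some j)) (fun j => Pi.single j 1) (fun j => IsGR.X j) hli c b q hq
  choose β₁ w hw hr using h1
  obtain ⟨ι, α, hι, hα, hαι⟩ := complete r h2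
  have key : ∀ n : N, ∃ (d : Polynomial K) (a : N → Polynomial K) (β : Polynomial K), d ≠ 0 ∧
      (∀ k, algebraMap (Polynomial K) F (a k) = algebraMap (Polynomial K) F d * α n k) ∧
      ∀ j, ι j = n → (a = w j ∧ β = β₁ j) := by
    intro n
    by_cases h : ∃ j, ι j = n
    · obtain ⟨j, rfl⟩ := h
      refine ⟨1, w j, β₁ j, one_ne_zero, fun k => ?_, fun j' hj' => by rw [hι hj']; simp⟩
      rw [map_one, one_mul, hαι, hr]
    · obtain ⟨d, hd⟩ := IsLocalization.exist_integer_multiples_of_finite
        (nonZeroDivisors (Polynomial K)) (α n)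
      choose a ha using hd
      refine ⟨d, a, 0, nonZeroDivisors.coe_ne_zero d, fun k => ?_, fun j hj => absurd ⟨j, hj⟩ h⟩
      rw [ha, Algebra.smul_def]
  choose d a β hd ha haι using key
  refine ⟨T, inferInstance, ι, e, U, Matrix.of a, β, c', D, hι, h4, h5, ?_, h7, ?_⟩
  · intro h0
    have e1 : (Matrix.of a).map (algebraMap (Polynomial K) F) =
        Matrix.diagonal (fun n => algebraMap (Polynomial K) F (d n)) * α := by
      ext1 n k
      rw [Matrix.diagonal_mul, Matrix.map_apply, Matrix.of_apply, ha]
    have e2 := congrArg Matrix.det e1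
    rw [Matrix.det_mul, Matrix.det_diagonal] at e2
    have e3 := (algebraMap (Polynomial K) F).map_det (Matrix.of a)
    rw [h0, map_zero] at e3
    have e4 : ((Matrix.of a).map (algebraMap (Polynomial K) F)).det = 0 := e3.symm
    rw [e4] at e2
    refine mul_ne_zero (Finset.prod_ne_zero_iff.2 fun n _ => ?_) hα e2.symm
    rw [Ne, FaithfulSMul.algebraMap_eq_zero_iff]
    exact hd n
  · rw [h8]
    unfold gmd
    rw [map_add, map_sum, opt_pt]
    congr 1
    refine Finset.sum_congr rfl fun j _ => ?_
    rw [map_mul, map_pow, opt_pt, aeval_X]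
    change _ = pt (U j) * (aff (Matrix.of a) β (ι j)) ^ e j
    unfold aff
    rw [(haι (ι j) j rfl).2]
    simp only [Matrix.of_apply]
    rw [(haι (ι j) j rfl).1, hw]

end gd

end Pool.Agent.H1.TB
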