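import Pool.Agent.H1.TB.GN
import Pool.Agent.H1.TB.Fib
import Pool.Graph.R_pool_sql_team_seeded_3997aac3.Q162.QP.Kos

set_option autoImplicit false
set_option linter.unusedSectionVars false
set_option linter.unusedVariables false

/-! # Quadric bundles over the general points of the line -/

namespace Pool.Agent.H1.TB

open MvPolynomial Pool.Agent.W428.MOT Pool.Agent.TH192.MT Pool.Agent.TH192.DT Pool.Agent.Q49.CO
open Pool.Agent.Y229 Pool.Agent.Q57.MC Pool.Agent.Q57.MD
open Pool.Agent.H1.QB (GQ coeff1_mul)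

section sq

variable {T : Type} [Fintype T] [DecidableEq T]

theorem sq_ot : OnlyTrivial Finset.univ (∑ j : T, (X j : MvPolynomial T ℂ) ^ 2) := by
  intro a ha
  have hp : ∀ i : T, pderiv i (∑ j : T, (X j : MvPolynomial T ℂ) ^ 2) = C 2 * X i := by
    intro i
    rw [map_sum, Finset.sum_eq_single i]
    · rw [Derivation.leibniz_pow, pderiv_X_self]
      simp only [smul_eq_mul, nsmul_eq_mul, Nat.cast_ofNat, Nat.add_one_sub_one, pow_one, mul_one]
      rfl
    · intro j _ hj
      rw [Derivation.leibniz_pow, pderiv_X_of_ne hj, smul_zero, smul_zero]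
    · exact fun h => absurd (Finset.mem_univ _) h
  simp only [hp] at ha ⊢
  obtain ⟨c, hc1, hc2⟩ := Pool.Agent.Q162.QP.koszul_X (fun i => C 2 * a i) (by
    rw [← ha]
    refine Finset.sum_congr rfl fun i _ => ?_
    ring)
  refine ⟨1, fun i j => C (4⁻¹ : ℂ) * c i j, one_ne_zero, fun i _ => ?_, fun i j => ?_,
    fun i _ => ?_⟩
  · rw [← C_1, degreeOf_C]
  · beta_reduce
    rw [hc1 i j]
    ring
  · have h1 := hc2 i
    beta_reduce at h1
    have h2 : ∑ j, C (4⁻¹ : ℂ) * c i j * (C 2 * X j) = C (4⁻¹ : ℂ) * C 2 * (C 2 * a i) := by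
      rw [h1, Finset.mul_sum]
      refine Finset.sum_congr rfl fun j _ => ?_
      ring
    rw [h2, one_mul, ← mul_assoc, ← C_mul, ← C_mul]
    norm_num

theorem sf_sq [Nonempty T] :
    SF (fun _ : Fin 1 => (∑ j : T, (X j : MvPolynomial T ℂ) ^ 2)) 0
      (-(Fintype.card T : ℂ) / 2) := by
  have hne : (∑ j : T, (X j : MvPolynomial T ℂ) ^ 2) ≠ 0 := by
    intro h0
    have h1 := congrArg (eval fun _ => (1 : ℂ)) h0
    rw [map_zero, map_sum] at h1
    simp only [map_pow, eval_X, one_pow, Finset.sum_const, Finset.card_univ, nsmul_eq_mul,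
      mul_one] at h1
    exact Fintype.card_ne_zero (Nat.cast_eq_zero.1 h1)
  have h1 : ∑ j : Fin 1, C ((fun _ => (1 : ℂ)) j) * (fun _ : Fin 1 =>
      (∑ j : T, (X j : MvPolynomial T ℂ) ^ 2)) j = ∑ j : T, (X j : MvPolynomial T ℂ) ^ 2 := by
    simp
  have h2 := sf_koszul (Finset.univ : Finset T) Finset.univ_nonempty
    (fun _ : Fin 1 => (∑ j : T, (X j : MvPolynomial T ℂ) ^ 2)) 2 le_rfl (fun _ => ?_)
    (fun _ => 1) (by rw [h1]; exact hne) (by rw [h1]; exact sq_ot)
  · rw [Finset.card_univ] at h2
    exact_mod_cast h2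
  · unfold HT
    refine IsWeightedHomogeneous.sum _ _ _ fun j _ => ?_
    have h3 := (isWeightedHomogeneous_X ℂ (fun i : T => if i ∈ (Finset.univ : Finset T) then 1
      else 0) j).pow 2
    rw [if_pos (Finset.mem_univ _)] at h3
    exact h3

end sq

section open_part

variable {N : Type} [Fintype N] [DecidableEq N]

/-- the series of polynomials in the parameter -/
theorem ser_pt (p : Option N → ℂ) (c : Polynomial ℂ) : ∃ g : MvPowerSeries (Option N) ℂ,
    ser p (pt c) = MvPowerSeries.C (c.eval (p none)) + MvPowerSeries.X none * g := by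
  have h1 : tr p (pt c) = pt (c.comp (Polynomial.X + Polynomial.C (p none))) := by
    unfold pt
    rw [tr_aev, Polynomial.aeval_comp, map_add, Polynomial.aeval_X, Polynomial.aeval_C]
    rfl
  refine ⟨((pt (c.comp (Polynomial.X + Polynomial.C (p none))).divX :
    MvPolynomial (Option N) ℂ) : MvPowerSeries (Option N) ℂ), ?_⟩
  rw [ser_apply, h1, pt_eq, MvPolynomial.coe_add, MvPolynomial.coe_mul, MvPolynomial.coe_X,
    MvPolynomial.coe_C, Polynomial.eval_comp]
  simp

theorem ser_pt_cc (p : Option N → ℂ) (c : Polynomial ℂ) :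
    MvPowerSeries.constantCoeff (ser p (pt c)) = c.eval (p none) := by
  obtain ⟨g, hg⟩ := ser_pt p c
  rw [hg, map_add, map_mul, MvPowerSeries.constantCoeff_C, MvPowerSeries.constantCoeff_X,
    zero_mul, add_zero]

theorem ser_pt_lin (p : Option N → ℂ) (c : Polynomial ℂ) (k : N) :
    MvPowerSeries.coeff (Finsupp.single (some k) 1) (ser p (pt c)) = 0 := by
  obtain ⟨g, hg⟩ := ser_pt p c
  rw [hg, map_add, coeff1_none, add_zero, MvPowerSeries.coeff_C, if_neg (by simp)]

theorem ser_X_lin (p : Option N → ℂ) (l k : N) :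
    MvPowerSeries.coeff (Finsupp.single (some k) 1) (ser p (X (some l))) =
      if k = l then 1 else 0 := by
  rw [ser_X, map_add, MvPowerSeries.coeff_X, MvPowerSeries.coeff_C, if_neg (c := _ = (0 :
    Option N →₀ ℕ)) (by simp), add_zero]
  by_cases h : k = l
  · rw [if_pos h, if_pos (by rw [h])]
  · rw [if_neg h, if_neg]
    intro h1
    rw [Finsupp.single_left_inj one_ne_zero] at h1
    exact h (Option.some_injective _ h1)

/-- **The roots of the model are roots of the polynomial.** -/
theorem sf_open (α : Matrix N N (Polynomial ℂ)) (β : N → Polynomial ℂ)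
    (f h : MvPolynomial (Option N) ℂ) (D : Polynomial ℂ) (hne : h ≠ 0)
    (hf : pt D * f = aeval (opt (aff α β)) h) (p : Option N → ℂ)
    (hD : D.eval (p none) ≠ 0) (hα : α.det.eval (p none) ≠ 0) (a : ℂ)
    (hs : SF (fun _ : Fin 1 => h) p a) : ∃ p' : Option N → ℂ, SF (fun _ : Fin 1 => f) p' a := by
  classical
  set t := p none with ht
  set α₀ : Matrix N N ℂ := α.map (Polynomial.eval t) with hα₀
  have hdet : α₀.det ≠ 0 := by
    have h1 := (Polynomial.evalRingHom t).map_det α
    have h2 : (Polynomial.evalRingHom t).mapMatrix α = α₀ := rfl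
    rw [h2] at h1
    rw [← h1]
    exact hα
  set x : N → ℂ := α₀⁻¹.mulVec fun n => p (some n) - (β n).eval t with hx
  have hαx : α₀.mulVec x = fun n => p (some n) - (β n).eval t := by
    rw [hx, Matrix.mulVec_mulVec, Matrix.mul_nonsing_inv _ (isUnit_iff_ne_zero.2 hdet),
      Matrix.one_mulVec]
  set p' : Option N → ℂ := fun o => o.elim t x with hp'
  have hp0 : p' none = t := rfl
  have hpn : ∀ k, p' (some k) = x k := fun k => rfl
  have hcc : ∀ n, MvPowerSeries.constantCoeff (ser p' (aff α β n)) = p (some n) := by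
    intro n
    unfold aff
    rw [map_add, map_add, ser_pt_cc, map_sum, map_sum, hp0]
    have h1 : ∑ k, MvPowerSeries.constantCoeff (ser p' (pt (α n k) * X (some k))) =
        α₀.mulVec x n := by
      rw [Matrix.mulVec, dotProduct]
      refine Finset.sum_congr rfl fun k _ => ?_
      rw [map_mul, map_mul, ser_pt_cc, ser_cc, eval_X, hpn, hp0]
      rfl
    rw [h1, hαx]
    ring
  have hlin : ∀ n k, MvPowerSeries.coeff (Finsupp.single (some k) 1) (ser p' (aff α β n)) =
      α₀ n k := by
    intro n k
    unfold aff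
    rw [map_add, map_add, ser_pt_lin, zero_add, map_sum, map_sum, Finset.sum_eq_single k]
    · rw [map_mul, coeff1_mul, ser_pt_lin, zero_mul, zero_add, ser_pt_cc, ser_X_lin, if_pos rfl,
        mul_one, hp0]
      rfl
    · intro l _ hl
      rw [map_mul, coeff1_mul, ser_pt_lin, zero_mul, zero_add, ser_X_lin, if_neg (Ne.symm hl),
        mul_zero]
    · exact fun h => absurd (Finset.mem_univ _) h
  have hnone : ser p' (X none) - MvPowerSeries.C (p none) = MvPowerSeries.X none := by
    rw [ser_X, hp0, ht, add_sub_cancel_right]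
  refine ⟨p', sf_pts f h hne p' p (fun o => ser p' (opt (aff α β) o) - MvPowerSeries.C (p o))
    ?_ ?_ (ser p' (pt D)) 1 ?_ ?_ ?_ a hs⟩
  · rintro (_ | n)
    · change MvPowerSeries.constantCoeff (ser p' (X none) - MvPowerSeries.C (p none)) = 0
      rw [hnone, MvPowerSeries.constantCoeff_X]
    · change MvPowerSeries.constantCoeff (ser p' (aff α β n) - MvPowerSeries.C (p (some n))) = 0
      rw [map_sub, hcc, MvPowerSeries.constantCoeff_C, sub_self]
  · rw [Fintype.linearIndependent_iff]
    intro c hc
    have h0 : ∀ k : N, MvPowerSeries.coeff (Finsupp.single (some k) 1)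
        (ser p' (opt (aff α β) none) - MvPowerSeries.C (p none)) = 0 := by
      intro k
      change MvPowerSeries.coeff (Finsupp.single (some k) 1)
        (ser p' (X none) - MvPowerSeries.C (p none)) = 0
      rw [hnone]
      have h1 := coeff1_none (N := N) 1 k
      rwa [mul_one] at h1
    have h0' : MvPowerSeries.coeff (Finsupp.single none 1)
        (ser p' (opt (aff α β) none) - MvPowerSeries.C (p none)) = 1 := by
      change MvPowerSeries.coeff (Finsupp.single none 1)
        (ser p' (X none) - MvPowerSeries.C (p none)) = 1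
      rw [hnone, MvPowerSeries.coeff_X, if_pos rfl]
    have h3 : ∀ n k : N, MvPowerSeries.coeff (Finsupp.single (some k) 1)
        (ser p' (opt (aff α β) (some n)) - MvPowerSeries.C (p (some n))) = α₀ n k := by
      intro n k
      change MvPowerSeries.coeff (Finsupp.single (some k) 1)
        (ser p' (aff α β n) - MvPowerSeries.C (p (some n))) = α₀ n k
      rw [map_sub, hlin, MvPowerSeries.coeff_C, if_neg (by simp), sub_zero]
    have hrows : LinearIndependent ℂ α₀.row :=
      Matrix.linearIndependent_rows_iff_isUnit.2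
        ((Matrix.isUnit_iff_isUnit_det _).2 (isUnit_iff_ne_zero.2 hdet))
    have h1 : ∀ n, c (some n) = 0 := by
      rw [Fintype.linearIndependent_iff] at hrows
      refine hrows (fun n => c (some n)) ?_
      funext k
      have h2 := congrFun hc (some k)
      rw [Finset.sum_apply, Fintype.sum_option] at h2
      simp only [Pi.smul_apply, smul_eq_mul, h0, mul_zero, zero_add, h3] at h2
      rw [Finset.sum_apply]
      exact h2
    have h2 := congrFun hc none
    rw [Finset.sum_apply, Fintype.sum_option] at h2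
    simp only [Pi.smul_apply, smul_eq_mul, h1, zero_mul, Finset.sum_const_zero, add_zero, h0',
      mul_one, Pi.zero_apply] at h2
    rintro (_ | n)
    · exact h2
    · exact h1 n
  · rw [ser_pt_cc]
    exact hD
  · rw [map_one]
    exact one_ne_zero
  · rw [one_mul, ← map_mul, hf]
    have h1 : (fun o => ser p' (opt (aff α β) o) - MvPowerSeries.C (p o) +
        MvPowerSeries.C (p o)) = fun o => ser p' (opt (aff α β) o) := by
      funext o
      rw [sub_add_cancel]
    rw [h1, ← AlgHom.comp_apply]
    congr 1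
    refine algHom_ext fun i => ?_
    rw [AlgHom.comp_apply, aeval_X, aeval_X]

/-- the root of the cone -/
theorem sf_gmd {T : Type} [Fintype T] [DecidableEq T] [Nonempty T] (ι : T → N)
    (hι : Function.Injective ι) (U : T → Polynomial ℂ) (t : ℂ) (hU : ∀ j, (U j).eval t ≠ 0) :
    SF (fun _ : Fin 1 => gmd ι (fun _ => 2) U 0) (fun o => o.elim t fun _ => 0)
      (-(Fintype.card T : ℂ) / 2) := by
  classical
  set p' : Option N → ℂ := fun o => o.elim t fun _ => 0 with hp'
  have hp0 : p' none = t := rfl
  have hpn : ∀ k, p' (some k) = 0 := fun k => rfl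
  have hne : (∑ j : T, (X j : MvPolynomial T ℂ) ^ 2) ≠ 0 := by
    intro h0
    have h1 := congrArg (eval fun _ => (1 : ℂ)) h0
    rw [map_zero, map_sum] at h1
    simp only [map_pow, eval_X, one_pow, Finset.sum_const, Finset.card_univ, nsmul_eq_mul,
      mul_one] at h1
    exact Fintype.card_ne_zero (Nat.cast_eq_zero.1 h1)
  have hρ : ∀ j, ∃ ρ : MvPowerSeries (Option N) ℂ, MvPowerSeries.constantCoeff ρ ≠ 0 ∧
      ρ ^ 2 = ser p' (pt (U j)) := by
    intro j
    obtain ⟨s, hs⟩ := IsAlgClosed.exists_pow_nat_eq ((U j).eval t) (n := 2) two_pos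
    obtain ⟨ρ, h1, h2, -⟩ := root_units (ser p' (pt (U j))) 1
      (by rw [ser_pt_cc]; exact hU j) (by rw [map_one]; exact one_ne_zero) 2 two_pos s
      (by rw [map_one, one_mul, ser_pt_cc]; exact hs)
    refine ⟨ρ, ?_, by rw [← h2, one_mul]⟩
    rw [h1]
    rintro rfl
    rw [zero_pow two_ne_zero] at hs
    exact hU j hs.symm
  choose ρ hρ1 hρ2 using hρ
  refine sf_pts (gmd ι (fun _ => 2) U 0) (∑ j : T, (X j : MvPolynomial T ℂ) ^ 2) hne p' 0
    (fun j => ρ j * MvPowerSeries.X (some (ι j))) (fun j => ?_) ?_ 1 1 (by simp) (by simp) ?_ _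
    sf_sq
  · rw [map_mul, MvPowerSeries.constantCoeff_X, mul_zero]
  · rw [Fintype.linearIndependent_iff]
    intro c hc j
    have h1 := congrFun hc (some (ι j))
    rw [Finset.sum_apply, Finset.sum_eq_single j] at h1
    · rw [Pi.smul_apply, coeff1_mul, MvPowerSeries.constantCoeff_X, mul_zero, zero_add,
        MvPowerSeries.coeff_X, if_pos rfl, mul_one, smul_eq_mul] at h1
      exact (mul_eq_zero.1 h1).resolve_right (hρ1 j)
    · intro l _ hl
      rw [Pi.smul_apply, coeff1_mul, MvPowerSeries.constantCoeff_X, mul_zero, zero_add,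
        MvPowerSeries.coeff_X, if_neg, mul_zero, smul_zero]
      intro h2
      rw [Finsupp.single_left_inj one_ne_zero] at h2
      exact hl (hι (Option.some_injective _ h2).symm)
    · exact fun h => absurd (Finset.mem_univ _) h
  · rw [one_mul, one_mul]
    unfold gmd
    rw [pt_zero, add_zero, map_sum, map_sum]
    refine Finset.sum_congr rfl fun j _ => ?_
    rw [map_mul, map_pow, map_pow, aeval_X, ser_X, hpn, map_zero, add_zero, Pi.zero_apply,
      map_zero, add_zero, mul_pow, hρ2]

end open_part

end Pool.Agent.H1.TB
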