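import Pool.Agent.H1.TB.Twr
import Pool.Agent.H1.QB.Main

set_option autoImplicit false
set_option linter.unusedSectionVars false
set_option linter.unusedVariables false

/-! # Families with block forms are in the class of germs: arbitrary index types -/

namespace Pool.Agent.H1.TB

open MvPolynomial
open Pool.Agent.H1.QB
open Pool.Agent.Q57.MD (Tower)

/-- **Families with a joint block form.** -/
theorem tower_germ {n r : ℕ} {T J : Type} [Fintype T] [Fintype J] [Nonempty J]
    (f : Fin r → MvPolynomial (Fin n) ℂ) (g : T → MvPolynomial (Fin n) ℂ)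
    (hg : ∀ t, constantCoeff (g t) = 0)
    (hli : LinearIndependent ℂ fun t => fun i : Fin n => coeff (Finsupp.single i 1) (g t))
    (π : J → Fin r) (m : J → T → ℕ) (U : J → MvPolynomial (Fin n) ℂ)
    (hU : ∀ j, constantCoeff (U j) ≠ 0) (D : Fin r → MvPolynomial (Fin n) ℂ)
    (hD : ∀ i, constantCoeff (D i) ≠ 0)
    (heq : ∀ i, D i * f i = ∑ j ∈ Finset.univ.filter (fun j => π j = i), U j * ∏ t, g t ^ m j t)
    (cl : J → T) (pu : J → Prop) (hq : Dist cl pu m) : Tower false n r f := by
  classical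
  set eT : T ≃ Fin (Fintype.card T) := Fintype.equivFin T with heT
  set eJ : J ≃ Fin (Fintype.card J) := Fintype.equivFin J with heJ
  set c := Fintype.card T with hc
  set k := Fintype.card J with hk
  have hk0 : 0 < k := Fintype.card_pos
  set m' : Fin k → Fin c → ℕ := fun j t => m (eJ.symm j) (eT.symm t) with hm'
  set cl' : Fin k → Fin c := fun j => eT (cl (eJ.symm j)) with hcl'
  set pu' : Fin k → Prop := fun j => pu (eJ.symm j) with hpu'
  have hpr : Dist cl' pu' m' := by
    refine ⟨fun j j' h => ?_, fun j => ?_, fun j hj j' hne => ?_, fun j hj t ht => ?_⟩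
    · exact eJ.symm.injective (hq.inj (eT.injective h))
    · rw [hm', hcl']
      beta_reduce
      rw [Equiv.symm_apply_apply]
      exact hq.ne _
    · rw [hm', hcl']
      beta_reduce
      rw [Equiv.symm_apply_apply]
      exact hq.priv _ hj _ fun h5 => hne (eJ.symm.injective h5)
    · rw [hm']
      beta_reduce
      refine hq.pure _ hj _ fun h5 => ht ?_
      rw [hcl']
      beta_reduce
      rw [← h5, Equiv.apply_symm_apply]
  obtain ⟨s, hs⟩ := exists_minor (fun t : Fin c => fun i : Fin n =>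
    coeff (Finsupp.single i 1) (g (eT.symm t))) (hli.comp eT.symm eT.symm.injective)
  refine tower_formal hk0 f (fun t => g (eT.symm t)) s (fun t => hg _) hs
    (fun j => π (eJ.symm j)) m' (fun j => U (eJ.symm j)) (fun j => hU _) D hD (fun i => ?_)
    cl' pu' hpr
  rw [heq, Finset.sum_filter, Finset.sum_filter, ← eJ.symm.sum_comp]
  refine Finset.sum_congr rfl fun j _ => ?_
  by_cases h : π (eJ.symm j) = i
  · rw [if_pos h, if_pos h, ← eT.symm.prod_comp]
  · rw [if_neg h, if_neg h]

open Classical in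
/-- **Polynomials with block forms in separate variables.** -/
theorem tower_family {r n : ℕ} (hr : 0 < r) (σ : Fin r → Type) [∀ i, Fintype (σ i)]
    (F : ∀ i, MvPolynomial (σ i) ℂ) (hF : ∀ i, F i ≠ 0)
    (h : ∀ i, ∃ (B V I : Type) (_ : Fintype B) (_ : Fintype V) (_ : Fintype I)
      (d : BD B V I), IsBF (F i) d) (e : (Σ i, σ i) ≃ Fin n) :
    Tower false n r fun i => rename (fun x => e ⟨i, x⟩) (F i) := by
  choose B V I iB iV iI d l ξ U W D hl hξ hU hW hD hli heq using h
  have hN : ∀ i, Nonempty (I i ⊕ {k // (d i).A k}) := by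
    intro i
    have hD' : D i ≠ 0 := by
      intro h0
      apply hD i
      rw [h0, map_zero]
    have hDF : D i * F i ≠ 0 := mul_ne_zero hD' (hF i)
    by_contra h0
    rw [not_nonempty_iff] at h0
    have hI : IsEmpty (I i) := ⟨fun j => h0.1 (Sum.inl j)⟩
    have hA : IsEmpty {k // (d i).A k} := ⟨fun j => h0.1 (Sum.inr j)⟩
    apply hDF
    rw [heq, Finset.sum_of_isEmpty, Finset.sum_of_isEmpty, add_zero]
  set ρ : ∀ i, MvPolynomial (σ i) ℂ →ₐ[ℂ] MvPolynomial (Fin n) ℂ := fun i =>
    rename (fun x => e ⟨i, x⟩) with hρ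
  have hcc : ∀ i (P : MvPolynomial (σ i) ℂ), constantCoeff (ρ i P) = constantCoeff P :=
    fun i P => constantCoeff_rename _ P
  have hin : ∀ i, Function.Injective (fun x : σ i => e ⟨i, x⟩) := by
    intro i x y hxy
    have h1 := e.injective hxy
    simpa using h1
  have hc1 : ∀ (i i' : Fin r) (x : σ i') (P : MvPolynomial (σ i) ℂ),
      coeff (Finsupp.single (e ⟨i', x⟩) 1) (ρ i P) =
        if h : i = i' then coeff (Finsupp.single (h ▸ x) 1) P else 0 := by
    intro i i' x P
    by_cases h : i = i'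
    · subst h
      rw [dif_pos rfl]
      have h1 : Finsupp.single (e ⟨i, x⟩) 1 =
          Finsupp.mapDomain (fun x : σ i => e ⟨i, x⟩) (Finsupp.single x 1) := by
        rw [Finsupp.mapDomain_single]
      rw [h1, hρ]
      exact coeff_rename_mapDomain _ (hin i) _ _
    · rw [dif_neg h]
      refine coeff_rename_eq_zero _ _ _ fun u hu => ?_
      exfalso
      have h1 := congrArg (fun v => v (e ⟨i', x⟩)) hu
      simp only [Finsupp.single_eq_same] at h1
      rw [Finsupp.mapDomain_of_notMem_range] at h1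
      · exact zero_ne_one h1
      · rintro ⟨y, hy⟩
        have h2 := e.injective hy
        exact h (congrArg Sigma.fst h2)
  have hJN : Nonempty (Σ i, (I i ⊕ {k // (d i).A k})) := by
    obtain ⟨j⟩ := hN ⟨0, hr⟩
    exact ⟨⟨⟨0, hr⟩, j⟩⟩
  set m : (Σ i, (I i ⊕ {k // (d i).A k})) → (Σ i, (B i ⊕ V i)) → ℕ := fun j t =>
    if h : t.1 = j.1 then (d j.1).mt j.2 (h ▸ t.2) else 0 with hm
  have hm1 : ∀ i j t, m ⟨i, j⟩ ⟨i, t⟩ = (d i).mt j t := fun i j t => dif_pos rfl
  have hm0 : ∀ i i' j t, i' ≠ i → m ⟨i, j⟩ ⟨i', t⟩ = 0 := fun i i' j t h => dif_neg h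
  set cl : (Σ i, (I i ⊕ {k // (d i).A k})) → (Σ i, (B i ⊕ V i)) := fun j =>
    ⟨j.1, Sum.elim (fun i => Sum.inr (Function.surjInv (d j.1).sj i)) (fun k => Sum.inl k.1) j.2⟩
    with hcl
  set pu : (Σ i, (I i ⊕ {k // (d i).A k})) → Prop := fun j =>
    Sum.elim (fun _ => False) (fun _ => True) j.2 with hpu
  have hdist : Dist cl pu m := by
    refine ⟨?_, ?_, ?_, ?_⟩
    · rintro ⟨i, j⟩ ⟨i', j'⟩ h
      have h1 : i = i' := congrArg Sigma.fst h
      subst h1
      have h2 := eq_of_heq (Sigma.mk.inj h).2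
      have h3 : j = j' := (d i).dist.inj h2
      rw [h3]
    · rintro ⟨i, j⟩
      rw [hcl]
      beta_reduce
      rw [hm1]
      exact (d i).dist.ne j
    · rintro ⟨i, j⟩ hj ⟨i', j'⟩ hne
      rw [hcl]
      beta_reduce
      by_cases h : i = i'
      · subst h
        rw [hm1]
        exact (d i).dist.priv j hj j' fun h => hne (by rw [h])
      · rw [hm0 _ _ _ _ h]
    · rintro ⟨i, j⟩ hj ⟨i', t⟩ hne
      by_cases h : i' = i
      · subst h
        rw [hm1]
        refine (d i').dist.pure j hj t fun h => hne ?_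
        rw [hcl]
        beta_reduce
        rw [h]
      · exact hm0 _ _ _ _ h
  refine tower_germ (T := Σ i, (B i ⊕ V i)) (J := Σ i, (I i ⊕ {k // (d i).A k}))
    (fun i => ρ i (F i)) (fun t => ρ t.1 (Sum.elim (l t.1) (ξ t.1) t.2)) ?_ ?_ (fun j => j.1) m
    (fun j => ρ j.1 (Sum.elim (U j.1) (fun k => W j.1 k.1) j.2)) ?_ (fun i => ρ i (D i)) ?_ ?_
    cl pu hdist
  · rintro ⟨i, k | v⟩
    · rw [hcc]
      exact hl i k
    · rw [hcc]
      exact hξ i v
  · rw [Fintype.linearIndependent_iff]
    intro c hc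
    rintro ⟨i, t⟩
    have h1 := Fintype.linearIndependent_iff.1 (hli i) (fun t => c ⟨i, t⟩) ?_ t
    · exact h1
    · funext x
      have h2 := congrFun hc (e ⟨i, x⟩)
      rw [Finset.sum_apply, Fintype.sum_sigma, Finset.sum_eq_single i] at h2
      · rw [Finset.sum_apply, Pi.zero_apply]
        rw [Pi.zero_apply] at h2
        rw [← h2]
        refine Finset.sum_congr rfl fun t _ => ?_
        rw [Pi.smul_apply, Pi.smul_apply]
        congr 1
        change _ = coeff (Finsupp.single (e ⟨i, x⟩) 1) (ρ i (Sum.elim (l i) (ξ i) t))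
        rw [hc1, dif_pos rfl]
      · intro i' _ hne
        refine Finset.sum_eq_zero fun t _ => ?_
        rw [Pi.smul_apply]
        change _ • coeff (Finsupp.single (e ⟨i, x⟩) 1) (ρ i' (Sum.elim (l i') (ξ i') t)) = 0
        rw [hc1, dif_neg hne, smul_zero]
      · exact fun h => absurd (Finset.mem_univ _) h
  · rintro ⟨i, j | k⟩
    · rw [hcc]
      exact hU i j
    · rw [hcc]
      exact hW i k.1 k.2
  · intro i
    rw [hcc]
    exact hD i
  · intro i
    have h1 : ∀ j : I i ⊕ {k // (d i).A k}, ∏ t : (Σ i, (B i ⊕ V i)),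
        ρ t.1 (Sum.elim (l t.1) (ξ t.1) t.2) ^ m ⟨i, j⟩ t =
        ∏ t, ρ i (Sum.elim (l i) (ξ i) t) ^ (d i).mt j t := by
      intro j
      rw [Fintype.prod_sigma, Finset.prod_eq_single i]
      · refine Finset.prod_congr rfl fun t _ => ?_
        rw [hm1]
      · intro i' _ hne
        refine Finset.prod_eq_one fun t _ => ?_
        rw [hm0 _ _ _ _ hne, pow_zero]
      · exact fun h => absurd (Finset.mem_univ _) h
    rw [Finset.sum_filter, Fintype.sum_sigma, Finset.sum_eq_single i]
    · rw [← map_mul, heq i, map_add, map_sum, map_sum, Fintype.sum_sum_type]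
      congr 1
      · refine Finset.sum_congr rfl fun j _ => ?_
        rw [if_pos rfl, h1, map_mul, map_mul, map_prod, map_prod, Fintype.prod_sum_type]
        simp only [map_pow]
        rfl
      · refine Finset.sum_congr rfl fun k _ => ?_
        rw [if_pos rfl, h1, map_mul, Fintype.prod_sum_type]
        simp only [Sum.elim_inr, Sum.elim_inl, BD.mt]
        simp only [pow_zero, Finset.prod_const_one, mul_one]
        rw [Finset.prod_eq_single k.1]
        · rw [if_pos rfl, map_pow]
        · intro k' _ hne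
          rw [if_neg hne, pow_zero]
        · exact fun h => absurd (Finset.mem_univ _) h
    · intro i' _ hne
      refine Finset.sum_eq_zero fun j _ => ?_
      rw [if_neg hne]
    · exact fun h => absurd (Finset.mem_univ _) h

end Pool.Agent.H1.TB
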