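import Pool.Agent.H1.TB.Main

set_option autoImplicit false
set_option linter.unusedSectionVars false
set_option linter.unusedVariables false

/-! # Sums of quadric bundles over lines: hypersurfaces -/

namespace Pool.Agent.H1.TB

open MvPolynomial
open Pool.Agent.H1.QB
open Pool.Agent.Q57.MD (Tower)
open Pool.Agent.Q49.CO (trn functionalEq_trn localBI_of_fe)
open Pool.Agent.W574.SM (IsFunctionalEq)
open Pool.Agent.Y229 (IsLocalBI)
open Pool.Agent.W428.MOT (MK Lu)
open Pool.Agent.TH192.MT (zetaJ)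
open Pool.Agent.TH192.MU (IsTopZeta)
open Pool.Agent.H628R4.TP (IsBFunction IsLocalBFunction)

theorem denom_const_mul (c : ℂ) (Z : RatFunc ℂ) (s₀ : ℂ)
    (h : (RatFunc.C c * Z).denom.eval s₀ = 0) : Z.denom.eval s₀ = 0 := by
  have h1 : (RatFunc.C c * Z).denom ∣ Z.denom := by
    have h2 := RatFunc.denom_mul_dvd (RatFunc.C c) Z
    rwa [RatFunc.denom_C, one_mul] at h2
  obtain ⟨u, hu⟩ := h1
  rw [hu, Polynomial.eval_mul, h, zero_mul]

theorem denom_add (Z Z' : RatFunc ℂ) (s₀ : ℂ) (h : (Z + Z').denom.eval s₀ = 0) :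
    Z.denom.eval s₀ = 0 ∨ Z'.denom.eval s₀ = 0 := by
  obtain ⟨u, hu⟩ := RatFunc.denom_add_dvd Z Z'
  have h1 : (Z.denom * Z'.denom).eval s₀ = 0 := by
    rw [hu, Polynomial.eval_mul, h, zero_mul]
  rw [Polynomial.eval_mul] at h1
  exact mul_eq_zero.1 h1

theorem denom_sum {T : Type} (s : Finset T) (Z : T → RatFunc ℂ) (s₀ : ℂ)
    (h : (∑ t ∈ s, Z t).denom.eval s₀ = 0) : ∃ t ∈ s, (Z t).denom.eval s₀ = 0 := by
  classical
  induction s using Finset.induction_on with
  | empty =>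
    rw [Finset.sum_empty, RatFunc.denom_zero, Polynomial.eval_one] at h
    exact absurd h one_ne_zero
  | insert a s ha ih =>
    rw [Finset.sum_insert ha] at h
    rcases denom_add _ _ s₀ h with h1 | h1
    · exact ⟨a, Finset.mem_insert_self _ _, h1⟩
    · obtain ⟨t, ht, h2⟩ := ih h1
      exact ⟨t, Finset.mem_insert_of_mem ht, h2⟩

section top

variable {R : Type} [CommRing R] [IsDomain R] (E : MK ℂ →+* R) (ε : R →+* ℂ)
  (hε : ε (E ((Lu ℂ : (MK ℂ)ˣ) : MK ℂ)) = 1) (hE : E ((Lu ℂ : (MK ℂ)ˣ) : MK ℂ) ≠ 1)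

include hε hE

/-- hypersurfaces: the local topological zeta functions at all the zeros -/
theorem loc_one {n : ℕ} (A : Bundles) (hA : A.poly ≠ 0) (e : A.Var ≃ Fin n) (P : Fin n → ℂ)
    (hP : eval P (rename e A.poly) = 0) (Z : RatFunc ℂ)
    (hZ : IsTopZeta E ε (zetaJ fun _ : Fin 1 => trn P (rename e A.poly)) Z)
    (s₀ : ℂ) (hs : Z.denom.eval s₀ = 0) (b : Polynomial ℂ)
    (hb : IsLocalBFunction (trn P (rename e A.poly)) b ∨ IsBFunction (rename e A.poly) b) :
    b.eval s₀ = 0 := by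
  set e' : (Σ i : Fin 1, ((fun _ => A : Fin 1 → Bundles) i).Var) ≃ Fin n :=
    (Equiv.uniqueSigma fun i : Fin 1 => ((fun _ => A : Fin 1 → Bundles) i).Var).trans e with he'
  have h1 : ∀ i : Fin 1, (fun x => e' ⟨i, x⟩) = e := by
    intro i
    obtain rfl : i = 0 := Subsingleton.elim _ _
    rfl
  refine loc_top E ε hε hE one_pos (fun _ => A) (fun _ => hA) e' P (fun i => ?_) Z ?_ s₀ hs b ?_
  · rw [h1]
    exact hP
  · simp only [h1]
    exact hZ
  · simp only [h1]
    rcases hb with hb | hb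
    · exact Or.inl (Pool.Agent.Q57.MC.localBI_one _ b hb)
    · exact Or.inr (Pool.Agent.Q57.MC.locEq1_of_eq _ b hb)

end top

end Pool.Agent.H1.TB
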