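import Pool.Graph.R_pool_sql_team_seeded_3997aac3.Q57.MD.Rows
import Pool.Graph.R_seed8.Y229.LP2

set_option autoImplicit false
set_option linter.unusedSectionVars false
set_option linter.unusedVariables false

/-! # Roots which are forced at a point -/

namespace Pool.Agent.H1.TB

open MvPolynomial Pool.Agent.Y229 Pool.Agent.Q57.MC Pool.Agent.Q57.MD
open Pool.Agent.W574.SM (IsFunctionalEq)
open Pool.Agent.W574.LM (IsLocEq)
open Pool.Agent.W574.RO (Forced G0 V)
open Pool.Agent.W574.HS (univ hat hat_r hat_one)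
open Pool.Agent.H628R4.TP (IsBFunction weylS)

section pts

variable {σ J : Type} [Fintype σ] [DecidableEq σ] [Fintype J] [DecidableEq J]

/-- **Roots which are forced globally are forced at a point.** -/
theorem exists_sf (f : J → MvPolynomial σ ℂ) (hf : ∃ j, f j ≠ 0) (α : ℂ) (h : Forced f α) :
    ∃ p, SF f p α := by
  by_contra hcon
  have hcon' : ∀ p, ∃ B : Polynomial (MvPolynomial σ ℂ), mulB B (G0 f) ∈ V f 1 ∧
      eval p (B.eval (C α)) ≠ 0 := by
    intro p
    by_contra h1
    push Not at h1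
    exact hcon ⟨p, h1⟩
  let I : Ideal (MvPolynomial σ ℂ) :=
    { carrier := {u | ∃ B : Polynomial (MvPolynomial σ ℂ), mulB B (G0 f) ∈ V f 1 ∧
        B.eval (C α) = u}
      add_mem' := by
        rintro _ _ ⟨B, hB, rfl⟩ ⟨B', hB', rfl⟩
        refine ⟨B + B', ?_, Polynomial.eval_add⟩
        rw [mulB_add]
        exact Submodule.add_mem _ hB hB'
      zero_mem' := by
        refine ⟨0, ?_, Polynomial.eval_zero⟩
        have h1 : mulB 0 (G0 f) = 0 := by
          funext s
          rw [mulB, Polynomial.eval_zero, zero_mul]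
          rfl
        rw [h1]
        exact Submodule.zero_mem _
      smul_mem' := by
        rintro c _ ⟨B, hB, rfl⟩
        refine ⟨Polynomial.C c * B, ?_, by rw [Polynomial.eval_mul, Polynomial.eval_C, smul_eq_mul]⟩
        rw [mulB_mul]
        exact mulB_mem f 1 _ _ hB }
  have hI : (1 : MvPolynomial σ ℂ) ∈ I := by
    rw [← Ideal.eq_top_iff_one]
    have h1 : MvPolynomial.zeroLocus ℂ I = ∅ := by
      ext p
      simp only [Set.mem_empty_iff_false, iff_false]
      intro hp
      rw [MvPolynomial.mem_zeroLocus_iff] at hp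
      obtain ⟨B, hB, hne⟩ := hcon' p
      have h0 := hp (B.eval (C α)) ⟨B, hB, rfl⟩
      rw [MvPolynomial.aeval_eq_eval] at h0
      exact hne h0
    have h2 := MvPolynomial.vanishingIdeal_zeroLocus_eq_radical (K := ℂ) I
    rw [h1, MvPolynomial.vanishingIdeal_empty] at h2
    exact Ideal.radical_eq_top.1 h2.symm
  obtain ⟨B, hB1, hB2⟩ := hI
  obtain ⟨b0, hb0, hfe⟩ := exists_fe f hf
  obtain ⟨b1, hb1, hnd⟩ := Polynomial.exists_eq_pow_rootMultiplicity_mul_and_not_dvd b0 hb0 α
  set k := b0.rootMultiplicity α with hk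
  have hroot : b1.eval α ≠ 0 := fun h0 => hnd (Polynomial.dvd_iff_isRoot.2 h0)
  obtain ⟨B', hB'⟩ : (Polynomial.X - Polynomial.C (C α : MvPolynomial σ ℂ)) ∣
      B - Polynomial.C (B.eval (C α)) := by
    rw [Polynomial.dvd_iff_isRoot, Polynomial.IsRoot, Polynomial.eval_sub, Polynomial.eval_C,
      sub_self]
  rw [hB2, map_one] at hB'
  have hstep : ∀ j : ℕ, j ≤ k →
      mulB ((((Polynomial.X - Polynomial.C α) ^ (k - j) * b1 : Polynomial ℂ)).map C) (G0 f) ∈
        V f 1 := by
    intro j
    induction j with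
    | zero =>
      intro _
      rw [Nat.sub_zero, ← hb1]
      exact (functionalEq_iff' f b0).1 hfe
    | succ j ih =>
      intro hj
      have hV := ih (by omega)
      obtain ⟨i, hi⟩ : ∃ i, k - j = i + 1 := ⟨k - j - 1, by omega⟩
      have hi' : k - (j + 1) = i := by omega
      rw [hi']
      rw [hi] at hV
      have h1 : mulB ((((Polynomial.X - Polynomial.C α) ^ i * b1 : Polynomial ℂ)).map C)
          (mulB B (G0 f)) ∈ V f 1 := mulB_mem f 1 _ _ hB1
      have h2 := mulB_mem f 1 B' _ hV
      have h3 : mulB ((((Polynomial.X - Polynomial.C α) ^ i * b1 : Polynomial ℂ)).map C) (G0 f) =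
          mulB ((((Polynomial.X - Polynomial.C α) ^ i * b1 : Polynomial ℂ)).map C)
            (mulB B (G0 f)) - mulB B' (mulB
              ((((Polynomial.X - Polynomial.C α) ^ (i + 1) * b1 : Polynomial ℂ)).map C)
                (G0 f)) := by
        rw [← mulB_mul, ← mulB_mul, ← mulB_sub]
        congr 1
        have h4 : B = 1 + (Polynomial.X - Polynomial.C (C α : MvPolynomial σ ℂ)) * B' := by
          rw [← hB']
          ring
        conv_rhs => rw [h4]
        simp only [Polynomial.map_mul, Polynomial.map_pow, Polynomial.map_sub, Polynomial.map_X,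
          Polynomial.map_C]
        ring
      rw [h3]
      exact Submodule.sub_mem _ h1 h2
  have hV := hstep k le_rfl
  rw [Nat.sub_self, pow_zero, one_mul] at hV
  exact hroot (h b1 ((functionalEq_iff' f b1).2 hV))

/-- the same for one polynomial -/
theorem exists_sf_one (F : MvPolynomial σ ℂ) (hF : F ≠ 0) (α : ℂ)
    (h : ∀ b : Polynomial ℂ, IsBFunction F b → b.eval α = 0) :
    ∃ p, SF (fun _ : Fin 1 => F) p α :=
  exists_sf _ ⟨0, hF⟩ α fun b hb => h b (isB_of_single F b hb)

/-- `λ ^ w` -/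
noncomputable def wpt (w : σ → ℕ) (p : σ → ℂ) (l : ℂ) : σ → ℂ := fun i => l ^ w i * p i

theorem eval_scl (γ : σ → ℂ) (p : σ → ℂ) (P : MvPolynomial σ ℂ) :
    eval p (scl γ P) = eval (fun i => γ i * p i) P := by
  unfold scl
  rw [← coe_aeval_eq_eval, ← coe_aeval_eq_eval]
  change ((aeval p : MvPolynomial σ ℂ →ₐ[ℂ] ℂ).comp (aeval fun i => C (γ i) * X i)) P =
    (aeval fun i => γ i * p i : MvPolynomial σ ℂ →ₐ[ℂ] ℂ) P
  congr 1
  refine algHom_ext fun i => ?_
  simp

/-- **Weighted homogeneous polynomials: roots at the limit points.** -/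
theorem sf_weights (F : MvPolynomial σ ℂ) (w : σ → ℕ) (d : ℕ)
    (hw : ∀ l : ℂ, scl (fun i => l ^ w i) F = C (l ^ d) * F) (hF : F ≠ 0) (p : σ → ℂ) (α : ℂ)
    (h : SF (fun _ : Fin 1 => F) p α) :
    SF (fun _ : Fin 1 => F) (fun i => if w i = 0 then p i else 0) α := by
  set f : Fin 1 → MvPolynomial σ ℂ := fun _ => F with hf
  refine sf_of_local f _ α (fun H b hb hH => ?_) (exists_fe f ⟨0, hF⟩)
  -- the value of `H` along the curve
  set G : Polynomial ℂ := MvPolynomial.aeval
    (fun i => Polynomial.C (p i) * Polynomial.X ^ w i) H with hG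
  have hGe : ∀ l : ℂ, G.eval l = MvPolynomial.eval (fun i => l ^ w i * p i) H := by
    intro l
    have h1 : (Polynomial.evalRingHom l).comp
        ((MvPolynomial.aeval (fun i => Polynomial.C (p i) * Polynomial.X ^ w i) :
          MvPolynomial σ ℂ →ₐ[ℂ] Polynomial ℂ) : MvPolynomial σ ℂ →+* Polynomial ℂ) =
        MvPolynomial.eval (fun i => l ^ w i * p i) := by
      refine MvPolynomial.ringHom_ext (fun a => ?_) fun i => ?_
      · rw [RingHom.comp_apply, MvPolynomial.eval_C]
        change Polynomial.eval l (MvPolynomial.aeval _ (MvPolynomial.C a)) = a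
        rw [MvPolynomial.aeval_C]
        exact Polynomial.eval_C
      · rw [RingHom.comp_apply, MvPolynomial.eval_X]
        change Polynomial.eval l (MvPolynomial.aeval _ (MvPolynomial.X i)) = _
        rw [MvPolynomial.aeval_X, Polynomial.eval_mul, Polynomial.eval_C, Polynomial.eval_pow,
          Polynomial.eval_X, mul_comm]
    exact congrArg (fun φ : MvPolynomial σ ℂ →+* ℂ => φ H) h1
  have hG0 : G * Polynomial.X ≠ 0 := by
    refine mul_ne_zero (fun h0 => hH ?_) Polynomial.X_ne_zero
    have h1 := hGe 0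
    rw [h0, Polynomial.eval_zero] at h1
    have h2 : (fun i => if w i = 0 then p i else 0) = fun i => (0 : ℂ) ^ w i * p i := by
      funext i
      by_cases hi : w i = 0
      · rw [if_pos hi, hi, pow_zero, one_mul]
      · rw [if_neg hi, zero_pow hi, zero_mul]
    rw [h2]
    exact h1.symm
  obtain ⟨l, hl⟩ : ∃ l : ℂ, (G * Polynomial.X).eval l ≠ 0 := by
    by_contra hcon
    push Not at hcon
    exact hG0 (Polynomial.funext fun l => by rw [hcon l, Polynomial.eval_zero])
  rw [Polynomial.eval_mul, Polynomial.eval_X, hGe] at hl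
  have hl0 := right_ne_zero_of_mul hl
  have hl1 := left_ne_zero_of_mul hl
  -- the transported functional equation
  obtain ⟨Q, mQ, hQ⟩ := univ_of_locEq H f b hb
  set γ : Fin 1 ⊕ σ → ℂ := Sum.elim (fun _ => (l ^ d)⁻¹) (fun i => l ^ w i) with hγ
  have hγ0 : ∀ x, γ x ≠ 0 := by
    rintro (j | i)
    · exact inv_ne_zero (pow_ne_zero _ hl0)
    · exact pow_ne_zero _ hl0
  have hr : ∀ P : MvPolynomial σ ℂ, scl γ (MvPolynomial.rename Sum.inr P) =
      MvPolynomial.rename Sum.inr (scl (fun i => l ^ w i) P) := by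
    intro P
    unfold scl
    rw [MvPolynomial.aeval_rename, ← AlgHom.comp_apply]
    congr 1
    refine algHom_ext fun i => ?_
    rw [AlgHom.comp_apply, aeval_X, aeval_X, map_mul, rename_C, rename_X]
    rfl
  have hu : scl γ (univ f) = univ f := by
    unfold univ
    rw [map_sum]
    refine Finset.sum_congr rfl fun j _ => ?_
    rw [map_mul, scl_X, hr, hf]
    beta_reduce
    rw [hw, map_mul, rename_C, hγ, Sum.elim_inl]
    have e2 : (MvPolynomial.C (l ^ d)⁻¹ : MvPolynomial (Fin 1 ⊕ σ) ℂ) * MvPolynomial.C (l ^ d) =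
        1 := by
      rw [← map_mul, inv_mul_cancel₀ (pow_ne_zero _ hl0), map_one]
    linear_combination (MvPolynomial.X (Sum.inl j) * MvPolynomial.rename Sum.inr F) * e2
  obtain ⟨Q', mQ', hQ'⟩ := conj_mem γ hγ0 Q mQ
  have h2 := locEq_of_univ' f b (rename Sum.inr (scl (fun i => l ^ w i) H))
    (Finsupp.single 0 ⟨Q', mQ'⟩) fun s => by
      have k1 := congrArg (scl γ) (hQ s)
      rw [map_mul, hr, map_mul, map_pow, hu, hQ', map_pow, hu] at k1
      have k2 : scl γ (C (((Polynomial.X + 1) * b).eval (s : ℂ))) =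
          C (((Polynomial.X + 1) * b).eval (s : ℂ)) := (scl γ).commutes _
      rw [k2] at k1
      rw [k1, Finsupp.sum_single_index (by rw [pow_zero, one_smul]; rfl), pow_zero, one_smul]
  have h3 : hat (rename Sum.inr (scl (fun i => l ^ w i) H) : MvPolynomial (Fin 1 ⊕ σ) ℂ) 0 =
      scl (fun i => l ^ w i) H := by
    have e1 := hat_r (ι := Fin 1) (scl (fun i => l ^ w i) H) 1 0
    rw [mul_one, hat_one, if_pos rfl, mul_one] at e1
    exact e1
  rw [h3] at h2
  refine h.locEq _ b h2 ?_
  rw [eval_scl]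
  exact hl1

end pts

end Pool.Agent.H1.TB
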