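import Pool.Agent.H1.TB.Ch
import Pool.Agent.H1.TB.RP
import Pool.Agent.H1.TB.Mdl
import Pool.Graph.R_seed8.TH216.MF.MotL

set_option autoImplicit false
set_option linter.unusedSectionVars false
set_option linter.unusedVariables false

/-! # The zeta functions of the model polynomials along the fibre -/

namespace Pool.Agent.H1.TB

open MvPolynomial Pool.Agent.W428.MOT Pool.Agent.TH192.MT Pool.Agent.TH192.DT Pool.Agent.Q49.CO
open Pool.Agent.Y229 Pool.Agent.Q57.MC Pool.Agent.Q57.MD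
open Pool.Agent.W375.MG (zetaG good_units)
open Pool.Agent.W425.ND (spa)
open Pool.Agent.W425.SM (Ind)
open Pool.Agent.H628R4.TP (IsBFunction)

section link

variable {M : Meas ℂ (MK ℂ)} (hL : M.L = ((Lu ℂ : (MK ℂ)ˣ) : MK ℂ))
  (hχ : ∀ (ι : Type) [Fintype ι] (S : Set (Pt ℂ ι)),
    M.χ ι S = algebraMap (K0 ℂ) (MK ℂ) (cls ι S))
include hL hχ

theorem zw_of_zetaG {n : ℕ} (F : MvPolynomial (Fin n) ℂ) {W : Set (Pt ℂ (Fin n))}
    (hW : Constr W) (S : Set (ℤ × ℤ)) (h : zetaG F W {c | c ≠ 0} ∈ ratRing ℂ S) :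
    ZW M (((Lu ℂ)⁻¹ : (MK ℂ)ˣ) : MK ℂ) (fun _ : Fin 1 => F) W ∈ ratU (Lu ℂ) S := by
  have hv : M.L * (((Lu ℂ)⁻¹ : (MK ℂ)ˣ) : MK ℂ) = 1 := by rw [hL, Units.mul_inv]
  rw [ratRing_eq, zetaG_eq] at h
  have h1 : ZW M (((Lu ℂ)⁻¹ : (MK ℂ)ˣ) : MK ℂ) (fun _ : Fin 1 => F) W =
      PowerSeries.C ((((Lu ℂ)⁻¹ : (MK ℂ)ˣ) : MK ℂ) ^ n) * zetaM F W {c | c ≠ 0} := by
    ext N
    rw [PowerSeries.coeff_C_mul, ZW_coeff M hv _ hW, hχ, jetF_one]
    unfold zetaM
    rw [PowerSeries.coeff_mk, ← inv_pow_eq, Fintype.card_fin, mul_add n N 1, mul_one, pow_add]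
    ring
  rw [h1]
  exact Subalgebra.mul_mem _ (rat_C _ _) h

end link

section spa

variable {M : Meas ℂ (MK ℂ)} (hL : M.L = ((Lu ℂ : (MK ℂ)ˣ) : MK ℂ))
  (hχ : ∀ (ι : Type) [Fintype ι] (S : Set (Pt ℂ ι)),
    M.χ ι S = algebraMap (K0 ℂ) (MK ℂ) (cls ι S))
include hL hχ

/-- **Affinely independent exponents, with arbitrary names of the variables.** -/
theorem sparse_rat {σ J : Type} [Fintype σ] [DecidableEq σ] [Fintype J] (E : J → σ → ℕ)
    (hE : ∀ w : J → ℚ, ∑ j, w j = 0 → (∀ i, ∑ j, w j * E j i = 0) → ∀ j, w j = 0)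
    (h2 : 2 ≤ Fintype.card J) (hne : (∑ j, ∏ i, (X i : MvPolynomial σ ℂ) ^ E j i) ≠ 0)
    {W : Set (Pt ℂ σ)} (hW : Constr W) :
    ∃ S : Finset (ℤ × ℤ), (∀ q ∈ S, q.1 < 0 ∧ 0 < q.2 ∧
      ∃ p, SF (fun _ : Fin 1 => ∑ j, ∏ i, (X i : MvPolynomial σ ℂ) ^ E j i) p
        ((q.1 : ℂ) / q.2)) ∧
      SW M false (((Lu ℂ)⁻¹ : (MK ℂ)ˣ) : MK ℂ)
        (fun _ : Fin 1 => ∑ j, ∏ i, (X i : MvPolynomial σ ℂ) ^ E j i) W ∈
          ratU (Lu ℂ) (S : Set (ℤ × ℤ)) := by
  classical
  have hv : M.L * (((Lu ℂ)⁻¹ : (MK ℂ)ˣ) : MK ℂ) = 1 := by rw [hL, Units.mul_inv]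
  set eJ := Fintype.equivFin J with heJ
  set e := Fintype.equivFin σ with he
  set v : Fin (Fintype.card J) → Fin (Fintype.card σ) → ℕ := fun j i =>
    E (eJ.symm j) (e.symm i) with hvd
  set F : MvPolynomial σ ℂ := ∑ j, ∏ i, (X i : MvPolynomial σ ℂ) ^ E j i with hF
  have hind : Ind v := by
    unfold Ind
    rw [affineIndependent_iff_of_fintype]
    intro w hw hs j
    rw [Finset.weightedVSub_eq_weightedVSubOfPoint_of_sum_eq_zero _ _ _ hw
      (0 : Fin (Fintype.card σ) → ℚ), Finset.weightedVSubOfPoint_apply] at hs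
    have h1 := hE (fun j => w (eJ j)) (by rw [eJ.sum_comp]; exact hw) (fun i => by
      have h3 := congrFun hs (e i)
      rw [Finset.sum_apply, Pi.zero_apply] at h3
      rw [← h3, ← eJ.sum_comp]
      refine Finset.sum_congr rfl fun j' _ => ?_
      rw [hvd]
      simp) (eJ.symm j)
    rwa [Equiv.apply_symm_apply] at h1
  have hren : F = rename e.symm (spa v fun _ => (1 : ℂ)) := by
    rw [hF]
    unfold spa
    rw [map_sum, ← eJ.symm.sum_comp]
    refine Finset.sum_congr rfl fun j _ => ?_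
    rw [map_one, one_mul, map_prod, ← e.symm.prod_comp]
    refine Finset.prod_congr rfl fun i _ => ?_
    rw [map_pow, rename_X]
  obtain ⟨S, hS, hz, -⟩ := Pool.Agent.TH216.MC.ind_mot (k := ℂ) h2 v hind (fun _ => 1)
    (fun _ => one_ne_zero)
  have hcc : (fun j : Fin (Fintype.card J) => algebraMap ℂ ℂ ((fun _ => (1 : ℂ)) j)) =
      fun _ => 1 := by
    funext j
    exact map_one _
  rw [hcc] at hS
  have hne' : (spa v fun _ => (1 : ℂ)) ≠ 0 := by
    intro h0
    apply hne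
    rw [hren, h0, map_zero]
  refine ⟨S, fun q hq => ?_, ?_⟩
  · obtain ⟨h3, h4, h5⟩ := hS q hq
    obtain ⟨p, hp⟩ := exists_sf_one _ hne' _ h5
    refine ⟨h3, h4, p ∘ e, ?_⟩
    refine sf_equiv e.symm (Equiv.refl (Fin 1)) (fun _ : Fin 1 => spa v fun _ => (1 : ℂ))
      (fun _ : Fin 1 => F) (fun _ => hren) (p ∘ e) _ ?_
    have h6 : (p ∘ e) ∘ e.symm = p := by
      funext i
      simp
    rw [h6]
    exact hp
  · set W0 : Set (Pt ℂ (Fin (Fintype.card σ))) := {y | (fun o => y (e o)) ∈ W} with hW0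
    have hW0c : Constr W0 := hW.preimage (fun (y : Pt ℂ (Fin (Fintype.card σ))) (o : σ) =>
      y (e o)) fun o => IsPF.coord _
    have h3 := hz ℂ W0 {c | c ≠ 0} hW0c good_units
    rw [hcc] at h3
    have h4 := zw_of_zetaG hL hχ _ hW0c _ h3
    rw [SW_ren M hv e.symm (Equiv.refl (Fin 1)) (fun _ : Fin 1 => spa v fun _ => (1 : ℂ))
      (fun _ : Fin 1 => F) (fun _ => hren) hW0c (W' := W) fun z => by
        rw [hW0, Set.mem_ofPred_eq]
        simp, SW_false]
    exact h4

end spa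

section model

variable {M : Meas ℂ (MK ℂ)} (hL : M.L = ((Lu ℂ : (MK ℂ)ˣ) : MK ℂ))
  (hχ : ∀ (ι : Type) [Fintype ι] (S : Set (Pt ℂ ι)),
    M.χ ι S = algebraMap (K0 ℂ) (MK ℂ) (cls ι S))
variable {N T : Type} [Fintype N] [DecidableEq N] [Fintype T] [DecidableEq T]

/-- the exponents of the model -/
def mexp (ι : T → N) (m e : T → ℕ) (j : T) (o : Option N) : ℕ :=
  (if o = none then m j else 0) + if o = some (ι j) then e j else 0

theorem mexp_prod {A : Type} [CommRing A] (ι : T → N) (m e : T → ℕ) (j : T)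
    (x : Option N → A) : ∏ o, x o ^ mexp ι m e j o = x none ^ m j * x (some (ι j)) ^ e j := by
  simp only [mexp, pow_add, Finset.prod_mul_distrib, pow_ite, pow_zero, Finset.prod_ite_eq',
    Finset.mem_univ, if_true]

/-- the value at a point -/
theorem mdl_ne (ι : T → N) (hι : Function.Injective ι) (m e : T → ℕ) (he : ∀ j, 0 < e j)
    (ζ : Bool) (k : ℕ) (h : Nonempty T ∨ ζ = true) : mdl ℂ ι m e ζ k ≠ 0 := by
  intro h0
  rcases isEmpty_or_nonempty T with hT | ⟨⟨j₀⟩⟩
  · have hζ : ζ = true := h.resolve_left fun h => h.elim fun j => hT.elim j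
    have h1 := aeval_mdl (K := ℂ) (A := ℂ) ι m e ζ k (fun _ => 1)
    rw [h0, map_zero, hζ] at h1
    simp at h1
  · have h1 := aeval_mdl (K := ℂ) (A := ℂ) ι m e ζ k
      (fun o => if o = none ∨ o = some (ι j₀) then 1 else 0)
    rw [h0, map_zero, Finset.sum_eq_single j₀] at h1
    · simp only [true_or, or_true, if_true, one_pow, mul_one] at h1
      cases ζ <;> norm_num at h1
    · intro j _ hj
      have h2 : ¬ (some (ι j) = none ∨ some (ι j) = some (ι j₀)) := by
        rintro (h3 | h3)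
        · exact absurd h3 (by simp)
        · exact hj (hι (Option.some_injective _ h3))
      rw [if_neg h2, zero_pow (he j).ne', mul_zero]
    · exact fun h => absurd (Finset.mem_univ _) h

/-- the weights of the model -/
theorem mdl_weights (ι : T → N) (hι : Function.Injective ι) (m e : T → ℕ)
    (he : ∀ j, 0 < e j) (ζ : Bool) (k : ℕ) (hk : ζ = true → ∀ j, m j ≤ k) :
    ∃ (w : Option N → ℕ) (d : ℕ), w none ≠ 0 ∧ ∀ l : ℂ,
      scl (fun i => l ^ w i) (mdl ℂ ι m e ζ k) = C (l ^ d) * mdl ℂ ι m e ζ k := by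
  classical
  obtain ⟨κ, hκ, hζ⟩ : ∃ κ : ℕ, (∀ j, m j ≤ κ) ∧ (ζ = true → κ = k) := by
    cases ζ
    · exact ⟨∑ j, m j, fun j => Finset.single_le_sum (f := m) (fun i _ => Nat.zero_le _)
        (Finset.mem_univ j), fun h => absurd h (by simp)⟩
    · exact ⟨k, hk rfl, fun _ => rfl⟩
  set P := ∏ j, e j with hP
  have hP0 : P ≠ 0 := Finset.prod_ne_zero_iff.2 fun j _ => (he j).ne'
  have key : ∀ n : N, ∃ a : ℕ, ∀ j, ι j = n → P * m j + a * e j = P * κ := by
    intro n
    by_cases h : ∃ j, ι j = n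
    · obtain ⟨j, rfl⟩ := h
      obtain ⟨c, hc⟩ : e j ∣ P := Finset.dvd_prod_of_mem _ (Finset.mem_univ j)
      obtain ⟨δ, hδ⟩ := Nat.exists_eq_add_of_le (hκ j)
      refine ⟨c * δ, fun j' hj' => ?_⟩
      rw [hι hj', hδ]
      rw [hc]
      ring
    · exact ⟨0, fun j hj => absurd ⟨j, hj⟩ h⟩
  choose a ha using key
  refine ⟨fun o => o.elim P a, P * κ, hP0, fun l => ?_⟩
  have h1 : scl (fun i : Option N => l ^ (Option.elim i P a)) (mdl ℂ ι m e ζ k) =
      (∑ j, (C (l ^ P) * X none) ^ m j * (C (l ^ a (ι j)) * X (some (ι j))) ^ e j) +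
        if ζ then (C (l ^ P) * X none) ^ k else 0 := by
    unfold scl
    rw [aeval_mdl]
    rfl
  rw [h1]
  unfold mdl
  rw [mul_add, Finset.mul_sum]
  congr 1
  · refine Finset.sum_congr rfl fun j _ => ?_
    rw [mul_pow, mul_pow, ← ha (ι j) j rfl, ← map_pow, ← map_pow, ← pow_mul, ← pow_mul, pow_add,
      map_mul]
    ring
  · cases ζ
    · simp
    · rw [if_pos rfl, if_pos rfl, hζ rfl, mul_pow, ← map_pow, ← pow_mul]

include hL hχ

/-- **The model polynomials along the fibre over `0`.** -/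
theorem mdl_rat (ι : T → N) (hι : Function.Injective ι) (m e : T → ℕ)
    (he : ∀ j, 0 < e j) (ζ : Bool) (k : ℕ) (hk : ζ = true → ∀ j, m j ≤ k)
    (h : Nonempty T ∨ ζ = true) :
    ∃ Q : Finset (ℤ × ℤ), (∀ q ∈ Q, q.1 < 0 ∧ 0 < q.2 ∧ ∃ p : Option N → ℂ, p none = 0 ∧
      SF (fun _ : Fin 1 => mdl ℂ ι m e ζ k) p ((q.1 : ℂ) / q.2)) ∧
      SW M false (((Lu ℂ)⁻¹ : (MK ℂ)ˣ) : MK ℂ)
        (fun _ : Fin 1 => mdl ℂ ι m e ζ k) (F0 ℂ N) ∈ ratU (Lu ℂ) (Q : Set (ℤ × ℤ)) := by
  classical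
  have hne := mdl_ne ι hι m e he ζ k h
  have hfib : ∀ p : Option N → ℂ, cpt p ∈ F0 ℂ N → p none = 0 := fun p hp =>
    (map_eq_zero _).1 hp
  -- limits of points
  have hlim : ∀ α : ℂ, (∃ p, SF (fun _ : Fin 1 => mdl ℂ ι m e ζ k) p α) →
      ∃ p : Option N → ℂ, p none = 0 ∧ SF (fun _ : Fin 1 => mdl ℂ ι m e ζ k) p α := by
    rintro α ⟨p, hp⟩
    obtain ⟨w, d, hw, hs⟩ := mdl_weights ι hι m e he ζ k hk
    refine ⟨_, ?_, sf_weights _ w d hs hne p α hp⟩
    exact if_neg hw
  cases ζ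
  · -- no pure power
    have hT : Nonempty T := h.resolve_right (by simp)
    have hF : mdl ℂ ι m e false k =
        ∑ j, ∏ o, (X o : MvPolynomial (Option N) ℂ) ^ mexp ι m e j o := by
      unfold mdl
      simp only [mexp_prod]
      simp
    by_cases h2 : 2 ≤ Fintype.card T
    · obtain ⟨S, hS, hz⟩ := sparse_rat hL hχ (mexp ι m e) (fun w _ hw j => by
        have h3 := hw (some (ι j))
        rw [Finset.sum_eq_single j] at h3
        · simp only [mexp] at h3
          rw [if_neg (by simp), if_pos trivial, zero_add] at h3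
          exact (mul_eq_zero.1 h3).resolve_right (by exact_mod_cast (he j).ne')
        · intro j' _ hj'
          simp only [mexp]
          rw [if_neg (by simp), if_neg, zero_add, Nat.cast_zero, mul_zero]
          exact fun h => hj' (hι (Option.some_injective _ h).symm)
        · exact fun h => absurd (Finset.mem_univ _) h) h2 (by rw [← hF]; exact hne)
        (constr_F0 (K := ℂ) (N := N))
      rw [← hF] at hS hz
      exact ⟨S, fun q hq => ⟨(hS q hq).1, (hS q hq).2.1, hlim _ (hS q hq).2.2⟩, hz⟩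
    · obtain ⟨j₀⟩ := hT
      have hsub : Subsingleton T := Fintype.card_le_one_iff_subsingleton.1 (by omega)
      have hu : mdl ℂ ι m e false k = X none ^ m j₀ * X (some (ι j₀)) ^ e j₀ := by
        unfold mdl
        rw [Fintype.sum_subsingleton _ j₀]
        simp
      obtain ⟨S, hS, hz⟩ := mon_rat hL hχ (N := N) (ι j₀) (m j₀) (e j₀) (he j₀)
      rw [← hu] at hS hz
      exact ⟨S, fun q hq => ⟨(hS q hq).1, (hS q hq).2.1, by
        obtain ⟨p, hp, hp'⟩ := (hS q hq).2.2
        exact ⟨p, hfib p hp, hp'⟩⟩, hz⟩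
  · -- with a pure power
    rcases isEmpty_or_nonempty T with hT | hT
    · have hu : mdl ℂ ι m e true k = X none ^ k := by
        unfold mdl
        rw [Finset.sum_of_isEmpty, zero_add, if_pos rfl]
      obtain ⟨S, hS, hz⟩ := pow_rat hL hχ (N := N) k
      rw [← hu] at hS hz
      exact ⟨S, fun q hq => ⟨(hS q hq).1, (hS q hq).2.1, by
        obtain ⟨p, hp, hp'⟩ := (hS q hq).2.2
        exact ⟨p, hfib p hp, hp'⟩⟩, hz⟩
    · set E : Option T → Option N → ℕ := fun o => o.elim (fun i => if i = none then k else 0)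
        (mexp ι m e) with hE
      have hF : mdl ℂ ι m e true k =
          ∑ j, ∏ o, (X o : MvPolynomial (Option N) ℂ) ^ E j o := by
        rw [Fintype.sum_option, add_comm]
        unfold mdl
        congr 1
        · refine Finset.sum_congr rfl fun j _ => ?_
          exact (mexp_prod ι m e j X).symm
        · rw [if_pos rfl, hE]
          simp only [Option.elim, pow_ite, pow_zero, Finset.prod_ite_eq', Finset.mem_univ,
            if_true]
      obtain ⟨S, hS, hz⟩ := sparse_rat hL hχ E (fun w hw0 hw => by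
        have hj : ∀ j, w (some j) = 0 := by
          intro j
          have h3 := hw (some (ι j))
          rw [Fintype.sum_option, Finset.sum_eq_single j] at h3
          · simp only [hE, Option.elim, mexp] at h3
            rw [if_neg (by simp), if_neg (by simp), if_pos trivial, Nat.cast_zero, mul_zero,
              zero_add, zero_add] at h3
            exact (mul_eq_zero.1 h3).resolve_right (by exact_mod_cast (he j).ne')
          · intro j' _ hj'
            simp only [hE, Option.elim, mexp]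
            rw [if_neg (by simp), if_neg, zero_add, Nat.cast_zero, mul_zero]
            exact fun h => hj' (hι (Option.some_injective _ h).symm)
          · exact fun h => absurd (Finset.mem_univ _) h
        rw [Fintype.sum_option, Finset.sum_eq_zero fun j _ => hj j, add_zero] at hw0
        rintro (_ | j)
        · exact hw0
        · exact hj j) (by
          rw [Fintype.card_option]
          have := Fintype.card_pos (α := T)
          omega) (by rw [← hF]; exact hne)
        (constr_F0 (K := ℂ) (N := N))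
      rw [← hF] at hS hz
      exact ⟨S, fun q hq => ⟨(hS q hq).1, (hS q hq).2.1, hlim _ (hS q hq).2.2⟩, hz⟩

end model

end Pool.Agent.H1.TB
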