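import Pool.Agent.H1.TB.Pt
import Pool.Agent.H1.TB.Defs

set_option autoImplicit false
set_option linter.unusedSectionVars false
set_option linter.unusedVariables false

/-! # Sums of quadric bundles over lines: the local statements -/

namespace Pool.Agent.H1.TB

open MvPolynomial
open Pool.Agent.H1.QB
open Pool.Agent.Q57.MD (Tower)
open Pool.Agent.Q49.CO (trn functionalEq_trn localBI_of_fe)
open Pool.Agent.W574.SM (IsFunctionalEq)
open Pool.Agent.Y229 (IsLocalBI)
open Pool.Agent.W428.MOT (MK Lu)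
open Pool.Agent.TH192.MT (zetaJ)
open Pool.Agent.TH192.MU (IsTopZeta)

/-- the block form at a zero -/
theorem Bundles.bf (A : Bundles) (P : A.Var → ℂ) (hP : eval P A.poly = 0) :
    ∃ (B V I : Type) (_ : Fintype B) (_ : Fintype V) (_ : Fintype I)
      (d : BD B V I), IsBF (tr P A.poly) d := by
  have : ∀ k i, Nonempty (Fin (A.J k i)) := fun k i => ⟨⟨0, A.hJ k i⟩⟩
  exact bf_q A.c A.b A.q A.e A.a A.ha P hP

theorem tr_rename {σ τ : Type} (g : σ → τ) (P : τ → ℂ) (F : MvPolynomial σ ℂ) :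
    trn P (rename g F) = rename g (tr (fun x => P (g x)) F) := by
  change ((trn P).toAlgHom.comp (rename g)) F = ((rename g).comp (tr fun x => P (g x))) F
  congr 1
  refine algHom_ext fun i => ?_
  rw [AlgHom.comp_apply, AlgHom.comp_apply, rename_X, tr_X, map_add, rename_X, rename_C]
  exact Pool.Agent.Q49.CO.trn_X P (g i)

/-- **The germs of the ideals `(F_1(x^(1)), …, F_r(x^(r)))` are in the class.** -/
theorem tower_main {r n : ℕ} (hr : 0 < r) (A : Fin r → Bundles) (hA : ∀ i, (A i).poly ≠ 0)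
    (e : (Σ i, (A i).Var) ≃ Fin n) (P : Fin n → ℂ)
    (hP : ∀ i, eval P (rename (fun x => e ⟨i, x⟩) (A i).poly) = 0) :
    Tower false n r fun i => trn P (rename (fun x => e ⟨i, x⟩) (A i).poly) := by
  have h1 := tower_family hr (fun i => (A i).Var) (fun i => tr (fun x => P (e ⟨i, x⟩)) (A i).poly)
    (fun i => tr_inj _ _ (hA i)) (fun i => (A i).bf _ (by
      have h2 := hP i
      rw [eval_rename] at h2
      exact h2)) e
  have h2 : (fun i => trn P (rename (fun x => e ⟨i, x⟩) (A i).poly)) =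
      fun i => rename (fun x => e ⟨i, x⟩) (tr (fun x => P (e ⟨i, x⟩)) (A i).poly) := by
    funext i
    exact tr_rename _ _ _
  rw [h2]
  exact h1

section top

variable {R : Type} [CommRing R] [IsDomain R] (E : MK ℂ →+* R) (ε : R →+* ℂ)
  (hε : ε (E ((Lu ℂ : (MK ℂ)ˣ) : MK ℂ)) = 1) (hE : E ((Lu ℂ : (MK ℂ)ˣ) : MK ℂ) ≠ 1)

include hε hE

/-- the local topological zeta functions at all the zeros -/
theorem loc_top {r n : ℕ} (hr : 0 < r) (A : Fin r → Bundles) (hA : ∀ i, (A i).poly ≠ 0)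
    (e : (Σ i, (A i).Var) ≃ Fin n) (P : Fin n → ℂ)
    (hP : ∀ i, eval P (rename (fun x => e ⟨i, x⟩) (A i).poly) = 0) (Z : RatFunc ℂ)
    (hZ : IsTopZeta E ε (zetaJ fun i => trn P (rename (fun x => e ⟨i, x⟩) (A i).poly)) Z)
    (s₀ : ℂ) (hs : Z.denom.eval s₀ = 0) (b : Polynomial ℂ)
    (hb : IsLocalBI (fun i => trn P (rename (fun x => e ⟨i, x⟩) (A i).poly)) b ∨
      IsFunctionalEq (fun i => rename (fun x => e ⟨i, x⟩) (A i).poly) b) : b.eval s₀ = 0 := by
  refine Pool.Agent.Q57.MD.local_top E ε hε hE (tower_main hr A hA e P hP) Z hZ s₀ hs b ?_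
  rcases hb with hb | hb
  · exact hb
  · exact localBI_of_fe _ b (functionalEq_trn P _ b hb)

end top

end Pool.Agent.H1.TB
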