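import Pool.Agent.H1.TB.CG
import Pool.Agent.H1.QB.Quad2

set_option autoImplicit false
set_option linter.unusedSectionVars false
set_option linter.unusedVariables false

/-! # Normal forms along a fibre -/

namespace Pool.Agent.H1.TB

open MvPolynomial
open Pool.Agent.H1.QB (GQ GQ_square GQ_change GQ_c GQ_smul exists_min_pow sum_ne eval_sum_pow)

section row

variable {K : Type} [Field K] {N : Type} [Fintype N]

/-- the polynomial is affine on the fibre over `0`, with linear part `v` -/
def IsRow (y : MvPolynomial (Option N) K) (v : N → K) : Prop :=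
  ∃ (β : K) (g : MvPolynomial (Option N) K),
    y = C β + (∑ k, C (v k) * X (some k)) + X none * g

/-- the polynomial is a constant different from zero on the fibre over `0` -/
def IsU (U : MvPolynomial (Option N) K) : Prop :=
  ∃ (c : K) (g : MvPolynomial (Option N) K), c ≠ 0 ∧ U = C c + X none * g

theorem pt_eq (c : Polynomial K) : (pt c : MvPolynomial (Option N) K) =
    C (c.eval 0) + X none * pt c.divX := by
  conv_lhs => rw [← Polynomial.divX_mul_X_add c]
  unfold pt
  rw [map_add, map_mul, Polynomial.aeval_X, Polynomial.aeval_C, ← Polynomial.coeff_zero_eq_eval_zero]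
  change _ + C _ = _
  ring

theorem pt_add (c d : Polynomial K) : (pt (c + d) : MvPolynomial (Option N) K) = pt c + pt d :=
  map_add _ _ _

theorem pt_mul (c d : Polynomial K) : (pt (c * d) : MvPolynomial (Option N) K) = pt c * pt d :=
  map_mul _ _ _

theorem pt_zero : (pt (0 : Polynomial K) : MvPolynomial (Option N) K) = 0 := map_zero _

theorem pt_one : (pt (1 : Polynomial K) : MvPolynomial (Option N) K) = 1 := map_one _

theorem pt_X_pow (m : ℕ) : (pt (Polynomial.X ^ m : Polynomial K) : MvPolynomial (Option N) K) =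
    X none ^ m := by
  unfold pt
  rw [map_pow, Polynomial.aeval_X]

theorem IsU.one : IsU (1 : MvPolynomial (Option N) K) :=
  ⟨1, 0, one_ne_zero, by rw [map_one, mul_zero, add_zero]⟩

theorem IsU.pt {c : Polynomial K} (h : c.eval 0 ≠ 0) :
    IsU (pt c : MvPolynomial (Option N) K) := ⟨_, _, h, pt_eq c⟩

theorem IsU.mul {U V : MvPolynomial (Option N) K} (hU : IsU U) (hV : IsU V) : IsU (U * V) := by
  obtain ⟨c, g, hc, rfl⟩ := hU
  obtain ⟨d, h, hd, rfl⟩ := hV
  refine ⟨c * d, C c * h + g * C d + X none * (g * h), mul_ne_zero hc hd, ?_⟩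
  rw [map_mul]
  ring

theorem IsU.add {U : MvPolynomial (Option N) K} (hU : IsU U) (g : MvPolynomial (Option N) K) :
    IsU (U + X none * g) := by
  obtain ⟨c, h, hc, rfl⟩ := hU
  exact ⟨c, h + g, hc, by ring⟩

theorem IsRow.add {y z : MvPolynomial (Option N) K} {v w : N → K} (hy : IsRow y v)
    (hz : IsRow z w) : IsRow (y + z) (v + w) := by
  obtain ⟨β, g, rfl⟩ := hy
  obtain ⟨γ, h, rfl⟩ := hz
  refine ⟨β + γ, g + h, ?_⟩
  simp only [map_add, Pi.add_apply, add_mul, Finset.sum_add_distrib]
  ring

theorem IsRow.zero : IsRow (0 : MvPolynomial (Option N) K) 0 :=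
  ⟨0, 0, by simp⟩

theorem IsRow.tmul (g : MvPolynomial (Option N) K) : IsRow (X none * g) (0 : N → K) :=
  ⟨0, g, by simp⟩

theorem IsRow.pt (c : Polynomial K) : IsRow (pt c : MvPolynomial (Option N) K) 0 :=
  ⟨c.eval 0, _, by simpa using pt_eq c⟩

theorem IsRow.smul {y : MvPolynomial (Option N) K} {v : N → K} (hy : IsRow y v)
    (c : Polynomial K) : IsRow (TB.pt c * y) (c.eval 0 • v) := by
  obtain ⟨β, g, rfl⟩ := hy
  refine ⟨c.eval 0 * β, C (c.eval 0) * g + TB.pt c.divX *
    (C β + (∑ k, C (v k) * X (some k)) + X none * g), ?_⟩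
  rw [pt_eq]
  simp only [Pi.smul_apply, smul_eq_mul, map_mul, mul_assoc, ← Finset.mul_sum]
  ring

theorem IsRow.sum {ι : Type} (s : Finset ι) (y : ι → MvPolynomial (Option N) K)
    (v : ι → N → K) (h : ∀ i ∈ s, IsRow (y i) (v i)) : IsRow (∑ i ∈ s, y i) (∑ i ∈ s, v i) := by
  classical
  induction s using Finset.induction_on with
  | empty =>
    rw [Finset.sum_empty, Finset.sum_empty]
    exact IsRow.zero
  | insert a s ha ih =>
    rw [Finset.sum_insert ha, Finset.sum_insert ha]
    exact (h a (Finset.mem_insert_self _ _)).add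
      (ih fun i hi => h i (Finset.mem_insert_of_mem hi))

theorem IsRow.X [DecidableEq N] (j : N) :
    IsRow (X (some j) : MvPolynomial (Option N) K) (Pi.single j 1) := by
  refine ⟨0, 0, ?_⟩
  rw [map_zero, zero_add, mul_zero, add_zero, Finset.sum_eq_single j]
  · rw [Pi.single_eq_same, map_one, one_mul]
  · intro k _ hk
    rw [Pi.single_eq_of_ne hk, map_zero, zero_mul]
  · exact fun h => absurd (Finset.mem_univ _) h

theorem IsRow.neg {y : MvPolynomial (Option N) K} {v : N → K} (hy : IsRow y v) :
    IsRow (-y) (-v) := by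
  obtain ⟨β, g, rfl⟩ := hy
  refine ⟨-β, -g, ?_⟩
  simp only [map_neg, Pi.neg_apply, neg_mul, Finset.sum_neg_distrib]
  ring

theorem IsRow.sub {y z : MvPolynomial (Option N) K} {v w : N → K} (hy : IsRow y v)
    (hz : IsRow z w) : IsRow (y - z) (v - w) := by
  rw [sub_eq_add_neg, sub_eq_add_neg]
  exact hy.add hz.neg

end row

section nf

variable {K : Type} [Field K] {N : Type} [Fintype N]

open Classical in
/-- Normal forms along the fibre over `0`: some unit times `F` is a sum of units times
`t ^ m_j y_j ^ e_j`, where the `y_j` are affine on the fibre with linearly independent linear parts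
in the span of `v`, and of (possibly) a unit times `t ^ k`. -/
def NFR {N' : Type} (v : N' → N → K) (F : MvPolynomial (Option N) K) : Prop :=
  ∃ (T : Type) (_ : Fintype T) (y : T → MvPolynomial (Option N) K) (r : T → N → K)
    (m e : T → ℕ) (U : T → MvPolynomial (Option N) K) (ζ : Prop) (k : ℕ)
    (U₀ D : MvPolynomial (Option N) K), (∀ j, IsRow (y j) (r j)) ∧ LinearIndependent K r ∧
    (∀ j, r j ∈ Submodule.span K (Set.range v)) ∧ (∀ j, 0 < e j ∧ e j ≤ 2) ∧
    (∀ j, IsU (U j)) ∧ IsU U₀ ∧
    IsU D ∧ D * F = (∑ j, U j * (X none ^ m j * y j ^ e j)) +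
      if ζ then U₀ * X none ^ k else 0

theorem nf_unit {N' : Type} (v : N' → N → K) (k : ℕ) (U : MvPolynomial (Option N) K)
    (hU : IsU U) : NFR v (X none ^ k * U) := by
  refine ⟨Empty, inferInstance, fun j => j.elim, fun j => j.elim, fun j => j.elim,
    fun j => j.elim, fun j => j.elim, True, k, U, 1, fun j => j.elim,
    linearIndependent_empty_type, fun j => j.elim, fun j => j.elim, fun j => j.elim, hU, IsU.one,
    ?_⟩
  rw [if_pos trivial, Finset.sum_of_isEmpty, zero_add, one_mul, mul_comm]

theorem nf_zero {N' : Type} (v : N' → N → K) : NFR v (0 : MvPolynomial (Option N) K) := by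
  refine ⟨Empty, inferInstance, fun j => j.elim, fun j => j.elim, fun j => j.elim,
    fun j => j.elim, fun j => j.elim, False, 0, 1, 1, fun j => j.elim,
    linearIndependent_empty_type, fun j => j.elim, fun j => j.elim, fun j => j.elim, IsU.one,
    IsU.one, ?_⟩
  rw [if_neg (fun h => h), Finset.sum_of_isEmpty, zero_add, one_mul]

theorem poly_split (c : Polynomial K) (hc : c ≠ 0) :
    ∃ (k : ℕ) (c' : Polynomial K), c = Polynomial.X ^ k * c' ∧ c'.eval 0 ≠ 0 := by
  obtain ⟨c', hcc, hnd⟩ := Polynomial.exists_eq_pow_rootMultiplicity_mul_and_not_dvd c hc 0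
  rw [map_zero, sub_zero] at hcc
  exact ⟨_, c', hcc, fun h => hnd (Polynomial.dvd_iff_isRoot.2 h)⟩

theorem nf_const {N' : Type} (v : N' → N → K) (c : Polynomial K) :
    NFR v (pt c : MvPolynomial (Option N) K) := by
  by_cases hc : c = 0
  · subst hc
    rw [pt_zero]
    exact nf_zero v
  · obtain ⟨k, c', rfl, hc'⟩ := poly_split c hc
    rw [pt_mul, pt_X_pow]
    exact nf_unit v k _ (IsU.pt hc')

theorem nf_line {N' : Type} (v : N' → N → K) (m : ℕ) (y : MvPolynomial (Option N) K)
    (r : N → K) (hy : IsRow y r) (hr : r ∈ Submodule.span K (Set.range v)) (hr0 : r ≠ 0) :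
    NFR v (X none ^ m * y) := by
  refine ⟨Unit, inferInstance, fun _ => y, fun _ => r, fun _ => m, fun _ => 1, fun _ => 1, False,
    0, 1, 1, fun _ => hy, ?_, fun _ => hr, fun _ => ⟨one_pos, one_le_two⟩, fun _ => IsU.one, IsU.one,
    IsU.one, ?_⟩
  · exact linearIndependent_unique_iff.2 hr0
  · simp

/-- splitting off a square -/
theorem nf_cons {N' N'' : Type} (v : N' → N → K) (v' : N'' → N → K)
    (hv : Submodule.span K (Set.range v') ≤ Submodule.span K (Set.range v))
    (F F' u ξ : MvPolynomial (Option N) K) (r : N → K) (m : ℕ) (hu : IsU u) (hξ : IsRow ξ r)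
    (hr : r ∈ Submodule.span K (Set.range v)) (hr' : r ∉ Submodule.span K (Set.range v'))
    (heq : u * F = X none ^ m * ξ ^ 2 + F') (h : NFR v' F') : NFR v F := by
  classical
  obtain ⟨T, _, y, ρ, μ, e, U, ζ, k, U₀, D, h1, h2, h3, h4, h5, h6, h7, h8⟩ := h
  refine ⟨T ⊕ Unit, inferInstance, Sum.elim y fun _ => ξ, Sum.elim ρ fun _ => r,
    Sum.elim μ fun _ => m, Sum.elim e fun _ => 2, Sum.elim U fun _ => D, ζ, k, U₀, D * u,
    ?_, ?_, ?_, ?_, ?_, h6, h7.mul hu, ?_⟩
  · rintro (j | j)
    · exact h1 j
    · exact hξ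
  · refine h2.sum_type (linearIndependent_unique_iff.2 ?_) ?_
    · rintro rfl
      exact hr' (Submodule.zero_mem _)
    · rw [Submodule.disjoint_def]
      intro w hw hw'
      rw [Set.range_const, Submodule.mem_span_singleton] at hw'
      obtain ⟨a, rfl⟩ := hw'
      by_cases ha : a = 0
      · rw [ha, zero_smul]
      · exfalso
        apply hr'
        have h9 : Submodule.span K (Set.range ρ) ≤ Submodule.span K (Set.range v') := by
          rw [Submodule.span_le]
          rintro _ ⟨j, rfl⟩
          exact h3 j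
        have h10 := Submodule.smul_mem _ a⁻¹ (h9 hw)
        rwa [smul_smul, inv_mul_cancel₀ ha, one_smul] at h10
  · rintro (j | j)
    · exact hv (h3 j)
    · exact hr
  · rintro (j | j)
    · exact h4 j
    · exact ⟨two_pos, le_rfl⟩
  · rintro (j | j)
    · exact h5 j
    · exact h7
  · rw [mul_assoc, heq, mul_add, h8, Fintype.sum_sum_type]
    simp only [Sum.elim_inl, Sum.elim_inr, Finset.univ_unique, Finset.sum_singleton]
    ring

theorem nf_span {N' N'' : Type} (v : N' → N → K) (v' : N'' → N → K)
    (hv : Submodule.span K (Set.range v') ≤ Submodule.span K (Set.range v))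
    (F : MvPolynomial (Option N) K) (h : NFR v' F) : NFR v F := by
  obtain ⟨T, _, y, ρ, μ, e, U, ζ, k, U₀, D, h1, h2, h3, h4, h5, h6, h7, h8⟩ := h
  exact ⟨T, inferInstance, y, ρ, μ, e, U, ζ, k, U₀, D, h1, h2, fun j => hv (h3 j), h4, h5, h6,
    h7, h8⟩

/-- the rows of polynomials of degree one on the fibre -/
theorem row_GQ {N' : Type} [Fintype N'] (x : N' → MvPolynomial (Option N) K) (v : N' → N → K)
    (hx : ∀ j, IsRow (x j) (v j)) (c : Polynomial K) (b : N' → Polynomial K)
    (q : N' → N' → Polynomial K) (hq : ∀ j k, (q j k).eval 0 = 0) :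
    IsRow (GQ c b q (X none) x) (∑ j, (b j).eval 0 • v j) := by
  unfold GQ
  have h1 : IsRow (∑ j, Polynomial.aeval (X none : MvPolynomial (Option N) K) (b j) * x j)
      (∑ j, (b j).eval 0 • v j) := IsRow.sum _ _ _ fun j _ => (hx j).smul (b j)
  have h2 : IsRow (∑ j, ∑ k, Polynomial.aeval (X none : MvPolynomial (Option N) K) (q j k) *
      (x j * x k)) 0 := by
    have h3 : ∀ j k, Polynomial.aeval (X none : MvPolynomial (Option N) K) (q j k) *
        (x j * x k) = X none * (pt (q j k).divX * (x j * x k)) := by
      intro j k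
      have h4 := pt_eq (N := N) (q j k)
      rw [hq, map_zero, zero_add] at h4
      change pt (q j k) * _ = _
      rw [h4, mul_assoc]
    simp only [h3, ← Finset.mul_sum]
    exact IsRow.tmul _
  have h5 := ((IsRow.pt (N := N) c).add h1).add h2
  rw [zero_add, add_zero] at h5
  exact h5

theorem li_sub {N' : Type} [Fintype N'] [DecidableEq N'] (v : N' → N → K)
    (hv : LinearIndependent K v) (j₀ : N') (a : N' → K) (ha : a j₀ ≠ 0) :
    ∑ j, a j • v j ∉ Submodule.span K (Set.range fun j : {j // j ≠ j₀} => v j.1) := by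
  intro h
  rw [Submodule.mem_span_range_iff_exists_fun] at h
  obtain ⟨c, hc⟩ := h
  have h1 : ∑ j, (a j - if h : j ≠ j₀ then c ⟨j, h⟩ else 0) • v j = 0 := by
    simp only [sub_smul, Finset.sum_sub_distrib]
    rw [← hc, sub_eq_zero, Fintype.sum_eq_add_sum_subtype_ne
      (fun j => (if h : j ≠ j₀ then c ⟨j, h⟩ else 0) • v j) j₀]
    rw [dif_neg (by simp), zero_smul, zero_add]
    refine Finset.sum_congr rfl fun j _ => ?_
    rw [dif_pos j.2]
  have h2 := Fintype.linearIndependent_iff.1 hv _ h1 j₀
  rw [dif_neg (by simp), sub_zero] at h2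
  exact ha h2

theorem span_sub {N' N'' : Type} (v : N' → N → K) (s : N'' → N') :
    Submodule.span K (Set.range fun j => v (s j)) ≤ Submodule.span K (Set.range v) := by
  refine Submodule.span_mono ?_
  rintro _ ⟨j, rfl⟩
  exact ⟨s j, rfl⟩

/-- the statement for a given number of coordinates -/
def NStm (K N : Type) [Field K] [Fintype N] (n : ℕ) : Prop :=
  ∀ (N' : Type) (_ : Fintype N') (_ : DecidableEq N'), Fintype.card N' = n →
    ∀ (x : N' → MvPolynomial (Option N) K) (v : N' → N → K), (∀ j, IsRow (x j) (v j)) →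
    LinearIndependent K v → ∀ (c : Polynomial K) (b : N' → Polynomial K)
    (q : N' → N' → Polynomial K), (∀ j k, q j k = q k j) → NFR v (GQ c b q (X none) x)

theorem nf_square [CharZero K] {N' : Type} [Fintype N'] [DecidableEq N'] (n : ℕ)
    (hn : Fintype.card N' = n + 1) (ih : NStm K N n) (x : N' → MvPolynomial (Option N) K)
    (v : N' → N → K) (hx : ∀ j, IsRow (x j) (v j)) (hv : LinearIndependent K v)
    (c : Polynomial K) (b : N' → Polynomial K) (q : N' → N' → Polynomial K)
    (hq : ∀ j k, q j k = q k j) (m : ℕ) (j₀ : N') (hj₀ : (q j₀ j₀).eval 0 ≠ 0) :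
    NFR v (X none ^ m * GQ c b q (X none) x) := by
  have h4 : (4 : K) ≠ 0 := by exact_mod_cast (by norm_num : (4 : ℕ) ≠ 0)
  have h2 : (2 : K) ≠ 0 := two_ne_zero
  set c' := 4 * q j₀ j₀ * c - b j₀ ^ 2 with hc'
  set b' : {j // j ≠ j₀} → Polynomial K := fun j =>
    4 * q j₀ j₀ * b j.1 - 4 * (b j₀ * q j₀ j.1) with hb'
  set q' : {j // j ≠ j₀} → {j // j ≠ j₀} → Polynomial K := fun j k =>
    4 * q j₀ j₀ * q j.1 k.1 - 4 * (q j₀ j.1 * q j₀ k.1) with hq'
  have hsq := GQ_square c b q hq (X none : MvPolynomial (Option N) K) x j₀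
  set ξ : MvPolynomial (Option N) K := Polynomial.aeval (X none) (2 * q j₀ j₀) * x j₀ +
    (Polynomial.aeval (X none) (b j₀) +
      ∑ j : {j // j ≠ j₀}, Polynomial.aeval (X none) (2 * q j₀ j.1) * x j.1) with hξ
  have hrow : IsRow ξ (∑ j, (2 * q j₀ j).eval 0 • v j) := by
    have e1 : IsRow (∑ j : {j // j ≠ j₀}, Polynomial.aeval (X none : MvPolynomial (Option N) K)
        (2 * q j₀ j.1) * x j.1) (∑ j : {j // j ≠ j₀}, (2 * q j₀ j.1).eval 0 • v j.1) :=
      IsRow.sum _ _ _ fun j _ => (hx j.1).smul _
    have e2 := ((hx j₀).smul (2 * q j₀ j₀)).add ((IsRow.pt (N := N) (b j₀)).add e1)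
    rw [zero_add] at e2
    rw [sum_ne _ j₀]
    exact e2
  refine nf_cons v (fun j : {j // j ≠ j₀} => v j.1) (span_sub v _) _
    (GQ (Polynomial.X ^ m * c') (fun j => Polynomial.X ^ m * b' j)
      (fun j k => Polynomial.X ^ m * q' j k) (X none) fun j : {j // j ≠ j₀} => x j.1)
    (pt (4 * q j₀ j₀)) ξ _ m (IsU.pt ?_) hrow ?_ ?_ ?_ ?_
  · rw [Polynomial.eval_mul, Polynomial.eval_ofNat]
    exact mul_ne_zero h4 hj₀
  · exact Submodule.sum_mem _ fun j _ => Submodule.smul_mem _ _
      (Submodule.subset_span ⟨j, rfl⟩)
  · refine li_sub v hv j₀ (fun j => (2 * q j₀ j).eval 0) ?_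
    beta_reduce
    rw [Polynomial.eval_mul, Polynomial.eval_ofNat]
    exact mul_ne_zero h2 hj₀
  · have e1 := GQ_smul c' b' q' (X none : MvPolynomial (Option N) K)
      (fun j : {j // j ≠ j₀} => x j.1) (Polynomial.X ^ m)
    rw [← e1, map_pow, Polynomial.aeval_X, mul_left_comm]
    change X none ^ m * (Polynomial.aeval (X none) (4 * q j₀ j₀) * _) = _
    rw [hsq]
    ring
  · refine ih {j // j ≠ j₀} inferInstance inferInstance ?_ (fun j => x j.1) _ (fun j => hx _)
      (hv.comp _ Subtype.val_injective) _ _ _ fun j k => ?_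
    · have e3 := Fintype.card_subtype_compl (fun j => j = j₀)
      rw [Fintype.card_subtype_eq] at e3
      rw [e3, hn]
      rfl
    · rw [hq']
      beta_reduce
      rw [hq j.1 k.1]
      ring

theorem nf_main [CharZero K] (n : ℕ) : NStm K N n := by
  induction n with
  | zero =>
    intro N' _ _ hN x v hx hv c b q hq
    have : IsEmpty N' := Fintype.card_eq_zero_iff.1 hN
    have h1 : GQ c b q (X none : MvPolynomial (Option N) K) x = pt c := by
      unfold GQ
      simp
      rfl
    rw [h1]
    exact nf_const v c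
  | succ n ih =>
    intro N' _ _ hN x v hx hv c b q hq
    by_cases hz : ∃ i : N' ⊕ (N' × N'), Sum.elim b (fun t => q t.1 t.2) i ≠ 0
    · obtain ⟨m, g, hg, i₀, hi₀⟩ := exists_min_pow _ hz
      have hb : ∀ j, b j = Polynomial.X ^ m * g (Sum.inl j) := fun j => hg (Sum.inl j)
      have hqq : ∀ j k, q j k = Polynomial.X ^ m * g (Sum.inr (j, k)) := fun j k =>
        hg (Sum.inr (j, k))
      have hsym : ∀ j k, g (Sum.inr (j, k)) = g (Sum.inr (k, j)) := by
        intro j k
        have h1 := hq j k
        rw [hqq, hqq] at h1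
        exact mul_left_cancel₀ (pow_ne_zero m Polynomial.X_ne_zero) h1
      have h1 : GQ c b q (X none) x = pt c + X none ^ m *
          GQ 0 (fun j => g (Sum.inl j)) (fun j k => g (Sum.inr (j, k))) (X none) x := by
        change _ = Polynomial.aeval (X none) c + _
        rw [← eval_sum_pow]
        congr 1
        · funext j
          exact hb j
        · funext j k
          exact hqq j k
      by_cases hdvd : Polynomial.X ^ m ∣ c
      · obtain ⟨c', rfl⟩ := hdvd
        have h2 : GQ (Polynomial.X ^ m * c') b q (X none) x = X none ^ m *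
            GQ c' (fun j => g (Sum.inl j)) (fun j k => g (Sum.inr (j, k))) (X none) x := by
          rw [h1, pt_mul, pt_X_pow]
          have h3 := GQ_c c' 0 (fun j => g (Sum.inl j)) (fun j k => g (Sum.inr (j, k)))
            (X none : MvPolynomial (Option N) K) x
          rw [add_zero] at h3
          rw [h3, mul_add]
          rfl
        rw [h2]
        by_cases hdiag : ∃ j, (g (Sum.inr (j, j))).eval 0 ≠ 0
        · obtain ⟨j₀, hj₀⟩ := hdiag
          exact nf_square n hN ih x v hx hv _ _ _ hsym m j₀ hj₀
        push Not at hdiag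
        by_cases hoff : ∃ j k, (g (Sum.inr (j, k))).eval 0 ≠ 0
        · obtain ⟨j, k, hjk0⟩ := hoff
          have hjk : j ≠ k := by
            rintro rfl
            exact hjk0 (hdiag j)
          have h2' : (2 : K) ≠ 0 := two_ne_zero
          set x' : N' → MvPolynomial (Option N) K := fun i => x i - if i = k then x j else 0
            with hx'
          set v' : N' → N → K := fun i => v i - if i = k then v j else 0 with hv'
          have hxx : x = fun i => x' i + if i = k then x' j else 0 := by
            funext i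
            rw [hx']
            beta_reduce
            rw [if_neg hjk, sub_zero, sub_add_cancel]
          have hx'r : ∀ i, IsRow (x' i) (v' i) := by
            intro i
            rw [hx', hv']
            beta_reduce
            split_ifs
            · exact (hx i).sub (hx j)
            · exact (hx i).sub IsRow.zero
          have hv'i : LinearIndependent K v' := by
            rw [Fintype.linearIndependent_iff] at hv ⊢
            intro c hc
            have e1 : ∑ i, (c i - if i = j then c k else 0) • v i = 0 := by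
              rw [← hc, hv']
              simp only [sub_smul, smul_sub, Finset.sum_sub_distrib]
              congr 1
              simp [ite_smul, smul_ite]
            have e2 := hv _ e1
            have e3 : c k = 0 := by
              have := e2 k
              rwa [if_neg (Ne.symm hjk), sub_zero] at this
            intro i
            have := e2 i
            rwa [e3, ite_self, sub_zero] at this
          have e0 : GQ c' (fun j => g (Sum.inl j)) (fun j k => g (Sum.inr (j, k)))
              (X none : MvPolynomial (Option N) K) x =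
              GQ c' (fun i => g (Sum.inl i) + if i = j then g (Sum.inl k) else 0)
                (fun i i' => g (Sum.inr (i, i')) + (if i = j then g (Sum.inr (k, i')) else 0) +
                  (if i' = j then g (Sum.inr (i, k)) else 0) +
                  (if i = j then (if i' = j then g (Sum.inr (k, k)) else 0) else 0))
                (X none) x' := by
            rw [← GQ_change c' (fun j => g (Sum.inl j)) (fun j k => g (Sum.inr (j, k)))
              (X none) x' j k, ← hxx]
          rw [e0]
          refine nf_span v v' ?_ _ (nf_square n hN ih x' v' hx'r hv'i _ _ _ (fun i i' => ?_) m j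
            ?_)
          · rw [Submodule.span_le]
            rintro _ ⟨i, rfl⟩
            rw [SetLike.mem_coe, hv']
            beta_reduce
            refine Submodule.sub_mem _ (Submodule.subset_span ⟨i, rfl⟩) ?_
            split_ifs
            · exact Submodule.subset_span ⟨j, rfl⟩
            · exact Submodule.zero_mem _
          · rw [hsym i i', hsym k i', hsym i k]
            split_ifs <;> ring
          · simp only [if_true, Polynomial.eval_add]
            rw [hdiag, hdiag, hsym k j, zero_add, add_zero, ← two_mul]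
            exact mul_ne_zero h2' hjk0
        · push Not at hoff
          have hlin : ∃ j, (g (Sum.inl j)).eval 0 ≠ 0 := by
            rcases i₀ with j | ⟨j, k⟩
            · exact ⟨j, hi₀⟩
            · exact absurd (hoff j k) hi₀
          obtain ⟨j₀, hj₀⟩ := hlin
          refine nf_line v m _ _ (row_GQ x v hx c' _ _ fun j k => hoff j k) ?_ ?_
          · exact Submodule.sum_mem _ fun j _ => Submodule.smul_mem _ _
              (Submodule.subset_span ⟨j, rfl⟩)
          · intro h0
            exact hj₀ (Fintype.linearIndependent_iff.1 hv _ h0 j₀)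
      · have hc0 : c ≠ 0 := by
          rintro rfl
          exact hdvd (dvd_zero _)
        obtain ⟨k, c', rfl, hc'⟩ := poly_split c hc0
        have hkm : k < m := by
          by_contra h
          push Not at h
          exact hdvd ((pow_dvd_pow _ h).mul_right c')
        obtain ⟨l, rfl⟩ : ∃ l, m = k + (l + 1) := ⟨m - k - 1, by omega⟩
        have h2 : GQ (Polynomial.X ^ k * c') b q (X none) x = X none ^ k *
            (pt c' + X none * (X none ^ l * GQ 0 (fun j => g (Sum.inl j))
              (fun j k => g (Sum.inr (j, k))) (X none) x)) := by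
          rw [h1, pt_mul, pt_X_pow, pow_add, pow_succ]
          ring
        rw [h2]
        exact nf_unit v k _ ((IsU.pt hc').add _)
    · push Not at hz
      have hb : ∀ j, b j = 0 := fun j => hz (Sum.inl j)
      have hqq : ∀ j k, q j k = 0 := fun j k => hz (Sum.inr (j, k))
      have h1 : GQ c b q (X none : MvPolynomial (Option N) K) x = pt c := by
        unfold GQ
        simp [hb, hqq]
        rfl
      rw [h1]
      exact nf_const v c

end nf

end Pool.Agent.H1.TB
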