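import Pool.Agent.H1.TB.Asm
import Pool.Graph.R_pool_sql_team_seeded_3997aac3.Q57.QT.All

set_option autoImplicit false
set_option linter.unusedSectionVars false
set_option linter.unusedVariables false

/-! # Polynomials of degree at most two in all but one variable -/

namespace Pool.Agent.H1.TB

open MvPolynomial Pool.Agent.W428.MOT Pool.Agent.TH192.MT Pool.Agent.TH192.DT Pool.Agent.Q49.CO
open Pool.Agent.Y229 Pool.Agent.Q57.MC Pool.Agent.Q57.MD
open Pool.Agent.H1.QB (GQ)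

section sup

variable {σ : Type} [Fintype σ] [DecidableEq σ]

/-- `f` has degree at most two in the variables other than `x_t`. -/
def QuadricBut (t : σ) (f : MvPolynomial σ ℂ) : Prop :=
  ∀ m ∈ f.support, ∑ i ∈ Finset.univ.erase t, m i ≤ 2

/-- polynomials of the form `c(x_t) + ∑ b_j(x_t) x_j + ∑ q_jk(x_t) x_j x_k` -/
def IsQ (t : σ) (f : MvPolynomial σ ℂ) : Prop :=
  ∃ (c : Polynomial ℂ) (b : {i // i ≠ t} → Polynomial ℂ)
    (q : {i // i ≠ t} → {i // i ≠ t} → Polynomial ℂ),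
    f = rename (Equiv.optionSubtypeNe t) (qb c b q)

theorem ren_qb (t : σ) (c : Polynomial ℂ) (b : {i // i ≠ t} → Polynomial ℂ)
    (q : {i // i ≠ t} → {i // i ≠ t} → Polynomial ℂ) :
    rename (Equiv.optionSubtypeNe t) (qb c b q) = Polynomial.aeval (X t) c +
      (∑ j, Polynomial.aeval (X t) (b j) * X j.1) +
      ∑ j, ∑ k, Polynomial.aeval (X t) (q j k) * (X j.1 * X k.1) := by
  unfold qb GQ
  have h1 : ∀ c : Polynomial ℂ, rename (Equiv.optionSubtypeNe t)
      (Polynomial.aeval (X none : MvPolynomial (Option {i // i ≠ t}) ℂ) c) =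
      Polynomial.aeval (X t) c := by
    intro c
    rw [← Polynomial.aeval_algHom_apply, rename_X]
    rfl
  simp only [map_add, map_sum, map_mul, h1, rename_X]
  rfl

theorem IsQ.add {t : σ} {f g : MvPolynomial σ ℂ} (hf : IsQ t f) (hg : IsQ t g) :
    IsQ t (f + g) := by
  obtain ⟨c, b, q, rfl⟩ := hf
  obtain ⟨c', b', q', rfl⟩ := hg
  refine ⟨c + c', b + b', q + q', ?_⟩
  rw [ren_qb, ren_qb, ren_qb]
  simp only [Pi.add_apply, map_add, add_mul, Finset.sum_add_distrib]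
  ring

theorem IsQ.zero {t : σ} : IsQ t (0 : MvPolynomial σ ℂ) := by
  refine ⟨0, 0, 0, ?_⟩
  rw [ren_qb]
  simp

theorem IsQ.const {t : σ} (c : Polynomial ℂ) :
    IsQ t (Polynomial.aeval (X t : MvPolynomial σ ℂ) c) := by
  refine ⟨c, 0, 0, ?_⟩
  rw [ren_qb]
  simp

theorem IsQ.lin {t : σ} (c : Polynomial ℂ) (j : σ) (hj : j ≠ t) :
    IsQ t (Polynomial.aeval (X t : MvPolynomial σ ℂ) c * X j) := by
  refine ⟨0, Pi.single ⟨j, hj⟩ c, 0, ?_⟩
  rw [ren_qb, Finset.sum_eq_single ⟨j, hj⟩]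
  · simp
  · intro k _ hk
    rw [Pi.single_eq_of_ne hk, map_zero, zero_mul]
  · exact fun h => absurd (Finset.mem_univ _) h

theorem IsQ.quad {t : σ} (c : Polynomial ℂ) (j k : σ) (hj : j ≠ t) (hk : k ≠ t) :
    IsQ t (Polynomial.aeval (X t : MvPolynomial σ ℂ) c * (X j * X k)) := by
  refine ⟨0, 0, fun j' k' => if j' = ⟨j, hj⟩ then (if k' = ⟨k, hk⟩ then c else 0) else 0, ?_⟩
  rw [ren_qb]
  simp only [map_zero, zero_add, Pi.zero_apply, zero_mul, Finset.sum_const_zero]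
  rw [Finset.sum_eq_single (⟨j, hj⟩ : {i // i ≠ t}),
    Finset.sum_eq_single (⟨k, hk⟩ : {i // i ≠ t})]
  · rw [if_pos rfl, if_pos rfl]
  · intro l _ hl
    rw [if_pos rfl, if_neg hl, map_zero, zero_mul]
  · exact fun h => absurd (Finset.mem_univ _) h
  · intro l _ hl
    simp only [if_neg hl, map_zero, zero_mul, Finset.sum_const_zero]
  · exact fun h => absurd (Finset.mem_univ _) h

/-- exponents of small degree -/
theorem exp_split (m : σ →₀ ℕ) (s : Finset σ) (d : ℕ) (h : ∑ i ∈ s, m i = d + 1) :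
    ∃ (j : σ) (m' : σ →₀ ℕ), j ∈ s ∧ m = Finsupp.single j 1 + m' ∧ ∑ i ∈ s, m' i = d := by
  obtain ⟨j, hj, hj0⟩ : ∃ j ∈ s, m j ≠ 0 := by
    by_contra hcon
    push Not at hcon
    rw [Finset.sum_eq_zero hcon] at h
    omega
  obtain ⟨m', hm'⟩ : ∃ m' : σ →₀ ℕ, m = Finsupp.single j 1 + m' := by
    refine ⟨m - Finsupp.single j 1, ?_⟩
    rw [add_tsub_cancel_of_le]
    rw [Finsupp.single_le_iff]
    exact Nat.one_le_iff_ne_zero.2 hj0
  refine ⟨j, m', hj, hm', ?_⟩
  have h1 : ∑ i ∈ s, m i = ∑ i ∈ s, ((Finsupp.single j 1 : σ →₀ ℕ) i + m' i) := by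
    refine Finset.sum_congr rfl fun i _ => ?_
    rw [hm', Finsupp.add_apply]
  have h2 : ∑ i ∈ s, (Finsupp.single j 1 : σ →₀ ℕ) i = 1 := by
    rw [Finset.sum_eq_single j, Finsupp.single_eq_same]
    · intro b _ hb
      rw [Finsupp.single_eq_of_ne hb]
    · exact fun h => absurd hj h
  rw [Finset.sum_add_distrib, h2] at h1
  omega

theorem exp_zero (m : σ →₀ ℕ) (t : σ) (h : ∑ i ∈ Finset.univ.erase t, m i = 0) :
    m = Finsupp.single t (m t) := by
  ext i
  by_cases hi : i = t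
  · rw [hi, Finsupp.single_eq_same]
  · rw [Finsupp.single_eq_of_ne hi]
    exact Finset.sum_eq_zero_iff.1 h i (Finset.mem_erase.2 ⟨hi, Finset.mem_univ i⟩)

theorem mon_aeval (t : σ) (a : ℂ) (k : ℕ) : (monomial (Finsupp.single t k) a :
    MvPolynomial σ ℂ) = Polynomial.aeval (X t) (Polynomial.C a * Polynomial.X ^ k) := by
  rw [map_mul, Polynomial.aeval_C, map_pow, Polynomial.aeval_X, monomial_eq, algebraMap_eq]
  congr 1
  rw [Finsupp.prod_single_index]
  rw [pow_zero]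

theorem isQ_monomial (t : σ) (m : σ →₀ ℕ) (a : ℂ)
    (hm : ∑ i ∈ Finset.univ.erase t, m i ≤ 2) : IsQ t (monomial m a) := by
  have hadd : ∀ (j : σ) (m' : σ →₀ ℕ), (monomial (Finsupp.single j 1 + m') a :
      MvPolynomial σ ℂ) = X j * monomial m' a := by
    intro j m'
    rw [X, monomial_mul, one_mul]
  rcases h0 : ∑ i ∈ Finset.univ.erase t, m i with _ | d
  · rw [exp_zero m t h0, mon_aeval]
    exact IsQ.const _
  · obtain ⟨j, m₁, hj, rfl, h1⟩ := exp_split m _ d h0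
    have hj' : j ≠ t := (Finset.mem_erase.1 hj).1
    rcases d with _ | d
    · rw [hadd, exp_zero m₁ t h1, mon_aeval, mul_comm]
      exact IsQ.lin _ j hj'
    · obtain ⟨k, m₂, hk, rfl, h2⟩ := exp_split m₁ _ d h1
      have hk' : k ≠ t := (Finset.mem_erase.1 hk).1
      have hd : d = 0 := by omega
      subst hd
      have hadd' : (monomial (Finsupp.single k 1 + m₂) a : MvPolynomial σ ℂ) =
          X k * monomial m₂ a := by
        rw [X, monomial_mul, one_mul]
      rw [hadd, hadd', exp_zero m₂ t h2, mon_aeval]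
      have h3 : X j * (X k * Polynomial.aeval (X t : MvPolynomial σ ℂ)
          (Polynomial.C a * Polynomial.X ^ m₂ t)) =
          Polynomial.aeval (X t) (Polynomial.C a * Polynomial.X ^ m₂ t) * (X j * X k) := by
        ring
      rw [h3]
      exact IsQ.quad _ j k hj' hk'

theorem isQ_of {t : σ} {f : MvPolynomial σ ℂ} (hf : QuadricBut t f) : IsQ t f := by
  classical
  have h1 : ∀ s : Finset (σ →₀ ℕ), s ⊆ f.support →
      IsQ t (∑ m ∈ s, monomial m (coeff m f)) := by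
    intro s
    induction s using Finset.induction_on with
    | empty =>
      intro _
      rw [Finset.sum_empty]
      exact IsQ.zero
    | insert a s ha ih =>
      intro hs
      rw [Finset.sum_insert ha]
      exact (isQ_monomial t a _ (hf a (hs (Finset.mem_insert_self _ _)))).add
        (ih fun x hx => hs (Finset.mem_insert_of_mem hx))
  have h2 := h1 f.support (Finset.Subset.refl _)
  rwa [← as_sum f] at h2

/-- **Polynomials of degree at most two in all but one variable.** -/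
theorem gm_but {M : Meas ℂ (MK ℂ)} (hL : M.L = ((Lu ℂ : (MK ℂ)ˣ) : MK ℂ))
    (hχ : ∀ (ι : Type) [Fintype ι] (S : Set (Pt ℂ ι)),
      M.χ ι S = algebraMap (K0 ℂ) (MK ℂ) (cls ι S)) {t : σ} {f : MvPolynomial σ ℂ}
    (hf : QuadricBut t f) (hne : f ≠ 0) : GM M false fun _ : Fin 1 => f := by
  obtain ⟨c, b, q, rfl⟩ := isQ_of hf
  refine gm_ren hL (Equiv.optionSubtypeNe t) (Equiv.refl (Fin 1)) _ _ (fun _ => rfl)
    (gm_qb hL hχ c b q fun h => hne ?_)
  rw [h, map_zero]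

/-- **Powers.** -/
theorem gm_pow {M : Meas ℂ (MK ℂ)} (hL : M.L = ((Lu ℂ : (MK ℂ)ˣ) : MK ℂ)) {n : ℕ}
    (f : MvPolynomial (Fin n) ℂ) (a : ℕ) (ha : 1 ≤ a) (hf : GM M false fun _ : Fin 1 => f) :
    GM M false fun _ : Fin 1 => f ^ a := by
  classical
  have h1 := Pool.Agent.Q57.QT.gm_pw hL Pool.Agent.Q57.QT.tsteps (fun _ : Fin 1 => f) a ha hf
  refine gm_ren hL (Equiv.refl (Fin n)) (Equiv.ofUnique (Fin a → Fin 1) (Fin 1)) _ _
    (fun j => ?_) h1
  unfold Pool.Agent.Q57.QT.pw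
  rw [Finset.prod_const, Finset.card_univ, Fintype.card_fin, Equiv.coe_refl, rename_id]
  rfl

/-- **Products of powers in separate variables.** -/
theorem gm_products {K n : ℕ} {N : Fin K → ℕ} (f : (k : Fin K) → MvPolynomial (Fin (N k)) ℂ)
    (t : (k : Fin K) → Fin (N k)) (hf : ∀ k, QuadricBut (t k) (f k)) (hne : ∀ k, f k ≠ 0)
    (a : Fin K → ℕ) (ha : ∀ k, 1 ≤ a k)
    (e : (Σ k, Fin (N k)) ≃ Fin n) : ∃ S : Finset (ℤ × ℤ),
      GlobMC (fun _ : Fin 1 => ∏ k, rename (fun x => e ⟨k, x⟩) (f k) ^ a k) S := by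
  obtain ⟨M, hL, hχ⟩ := exists_meas ℂ
  have h1 := gm_prod hL (fun k => Fin (N k)) (fun k => f k ^ a k)
    fun k => gm_pow hL (f k) (a k) (ha k) (gm_but hL hχ (hf k) (hne k))
  have h2 := gm_ren hL e (Equiv.refl (Fin 1)) _
    (fun _ : Fin 1 => ∏ k, rename (fun x => e ⟨k, x⟩) (f k) ^ a k) (fun _ => by
      rw [map_prod]
      refine Finset.prod_congr rfl fun k _ => ?_
      rw [rename_rename, map_pow]
      rfl) h1
  obtain ⟨-, S, hS, hz⟩ := h2
  refine ⟨S, hS, ?_⟩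
  rw [SW_false] at hz
  exact (zetaId_iff hL hχ _ _).2 hz

end sup

end Pool.Agent.H1.TB
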