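import Pool.Agent.H1.QB.Germ
import Pool.Graph.R_pool_sql_team_seeded_3997aac3.Q57.MD.Rows

set_option autoImplicit false
set_option linter.unusedSectionVars false
set_option linter.unusedVariables false

/-! # Families with block forms are in the class of germs `Tower` -/

namespace Pool.Agent.H1.TB

open MvPolynomial
open Pool.Agent.H1.QB
open Pool.Agent.W749.JI (fam JInd)
open Pool.Agent.Q57.MD (Tower)

/-- the exponents are linearly independent -/
theorem jind_of_dist {k c r : ℕ} (π : Fin k → Fin r) (cl : Fin k → Fin c) (pu : Fin k → Prop)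
    (m : Fin k → Fin c → ℕ) (h : Dist cl pu m) : JInd π m := by
  classical
  intro γ _ hγ
  have h1 : ∀ e, ¬ pu e → γ e = 0 := by
    intro e he
    have h2 := hγ (cl e)
    rw [Finset.sum_eq_single e] at h2
    · exact (mul_eq_zero.1 h2).resolve_right (by exact_mod_cast h.ne e)
    · intro e' _ hne
      rw [h.priv e he e' hne, Nat.cast_zero, mul_zero]
    · exact fun hn => absurd (Finset.mem_univ _) hn
  intro e
  by_cases he : pu e
  · have h2 := hγ (cl e)
    rw [Finset.sum_eq_single e] at h2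
    · exact (mul_eq_zero.1 h2).resolve_right (by exact_mod_cast h.ne e)
    · intro e' _ hne
      by_cases he' : pu e'
      · rw [h.pure e' he' (cl e) (fun h3 => hne (h.inj h3.symm)), Nat.cast_zero, mul_zero]
      · rw [h1 e' he', zero_mul]
    · exact fun hn => absurd (Finset.mem_univ _) hn
  · exact h1 e he

/-- **Removal of units: the class of germs.** -/
theorem tower_formal {n c k r : ℕ} (hk : 0 < k) (f : Fin r → MvPolynomial (Fin n) ℂ)
    (g : Fin c → MvPolynomial (Fin n) ℂ)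
    (s : Fin c → Fin n) (hg : ∀ t, constantCoeff (g t) = 0)
    (hdet : (Matrix.of fun u t => coeff (Finsupp.single (s u) 1) (g t)).det ≠ 0)
    (π : Fin k → Fin r) (m : Fin k → Fin c → ℕ) (U : Fin k → MvPolynomial (Fin n) ℂ)
    (hU : ∀ j, constantCoeff (U j) ≠ 0)
    (D : Fin r → MvPolynomial (Fin n) ℂ) (hD : ∀ i, constantCoeff (D i) ≠ 0)
    (heq : ∀ i, D i * f i = ∑ j ∈ Finset.univ.filter (fun j => π j = i), U j * ∏ t, g t ^ m j t)
    (cl : Fin k → Fin c) (pu : Fin k → Prop) (hm : Dist cl pu m) :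
    Tower false n r f := by
  classical
  set φ : ℂ →+* ℂ := RingHom.id ℂ with hφ
  set γ : Fin k → ℂ := fun j => constantCoeff (U j) with hγ
  have hγ0 : ∀ j, γ j ≠ 0 := fun j => hU j
  have hDc : ∀ i, MvPowerSeries.constantCoeff (Th (Fin n) φ (D i)) ≠ 0 := by
    intro i
    rw [Th_cc]
    exact hD i
  set u : Fin k → MvPowerSeries (Fin n) ℂ := fun j =>
    MvPowerSeries.C ((γ j)⁻¹) * Th (Fin n) φ (U j) with hu
  have hu1 : ∀ j, MvPowerSeries.constantCoeff (u j) = 1 := by
    intro j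
    rw [hu]
    beta_reduce
    rw [map_mul, MvPowerSeries.constantCoeff_C, Th_cc]
    exact inv_mul_cancel₀ (hγ0 j)
  choose ρ hρ hρ1 using fun j => root_series (u j) (hu1 j) (m j (cl j)) (hm.ne j)
  have hρi : ∀ j, ρ j * (ρ j)⁻¹ = 1 := fun j =>
    MvPowerSeries.mul_inv_cancel _ (by rw [hρ1]; exact one_ne_zero)
  have hρi1 : ∀ j, MvPowerSeries.constantCoeff ((ρ j)⁻¹) = 1 := fun j => by
    rw [MvPowerSeries.constantCoeff_inv, hρ1, inv_one]
  set u' : Fin k → MvPowerSeries (Fin n) ℂ := fun j =>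
    u j * ∏ j' ∈ Finset.univ.filter (fun j' => pu j'), ((ρ j')⁻¹) ^ m j (cl j') with hu'
  have hu'1 : ∀ j, MvPowerSeries.constantCoeff (u' j) = 1 := by
    intro j
    rw [hu']
    beta_reduce
    rw [map_mul, hu1, one_mul, map_prod]
    refine Finset.prod_eq_one fun j' _ => ?_
    rw [map_pow, hρi1, one_pow]
  choose υ hυ hυ1 using fun j => root_series (u' j) (hu'1 j) (m j (cl j)) (hm.ne j)
  set q : Fin k → MvPowerSeries (Fin n) ℂ := fun j => if pu j then ρ j else υ j with hq
  have hq1 : ∀ j, MvPowerSeries.constantCoeff (q j) = 1 := by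
    intro j
    rw [hq]
    beta_reduce
    split_ifs
    · exact hρ1 j
    · exact hυ1 j
  have hqp : ∀ j, pu j → q j * (ρ j)⁻¹ = 1 := by
    intro j hj
    rw [hq]
    beta_reduce
    rw [if_pos hj]
    exact hρi j
  have hqp1 : ∀ j, pu j → q j ^ m j (cl j) = u j := by
    intro j hj
    rw [hq]
    beta_reduce
    rw [if_pos hj]
    exact hρ j
  have hqp2 : ∀ j, ¬ pu j → q j ^ m j (cl j) = u j * ∏ j' ∈ Finset.univ.filter
      (fun j' => pu j'), ((ρ j')⁻¹) ^ m j (cl j') := by
    intro j hj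
    rw [hq]
    beta_reduce
    rw [if_neg hj]
    exact hυ j
  set G : Fin c → MvPowerSeries (Fin n) ℂ := newG cl (fun t => Th (Fin n) φ (g t)) q with hG
  have hPi : ∀ t, MvPowerSeries.constantCoeff
      (∏ j ∈ Finset.univ.filter (fun j => cl j = t), q j) = 1 := by
    intro t
    rw [map_prod]
    exact Finset.prod_eq_one fun j _ => hq1 j
  have hG0 : ∀ t, MvPowerSeries.constantCoeff (G t) = 0 := by
    intro t
    rw [hG, newG, map_mul, Th_cc, hg t, map_zero, zero_mul]
  have hG1 : ∀ (i : Fin n) t, MvPowerSeries.coeff (Finsupp.single i 1) (G t) =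
      coeff (Finsupp.single i 1) (g t) := by
    intro i t
    rw [hG, newG, coeff1_mul, hPi, mul_one, Th_cc, hg t, map_zero, zero_mul, add_zero, Th_coeff]
    rfl
  have hdetG : (Matrix.of fun u t => MvPowerSeries.coeff (Finsupp.single (s u) 1) (G t)).det ≠ 0 := by
    have h1 : (Matrix.of fun u t => MvPowerSeries.coeff (Finsupp.single (s u) 1) (G t)) =
        (Matrix.of fun u t => coeff (Finsupp.single (s u) 1) (g t)) := by
      ext1 u t
      rw [Matrix.of_apply, hG1]
      rfl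
    rw [h1]
    exact hdet
  have hTh : ∀ A : MvPolynomial (Fin n) ℂ, Th (Fin n) φ A = (A : MvPowerSeries (Fin n) ℂ) := by
    intro A
    rw [Th_apply, hφ, MvPolynomial.map_id]
  have hae : ∀ i, aeval G (fam π m γ i) = Th (Fin n) φ (D i) * Th (Fin n) φ (f i) := by
    intro i
    rw [← map_mul (Th (Fin n) φ), heq, map_sum, fam, map_sum]
    refine Finset.sum_congr rfl fun j _ => ?_
    rw [map_mul, aeval_C, map_prod, map_mul, map_prod]
    simp only [map_pow, aeval_X]
    rw [hG, newG_prod' cl pu m hm _ q (fun j => (ρ j)⁻¹) u hqp hqp1 hqp2 j, hu]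
    beta_reduce
    have h1 : (algebraMap ℂ (MvPowerSeries (Fin n) ℂ)) (γ j) * MvPowerSeries.C ((γ j)⁻¹) = 1 := by
      change MvPowerSeries.C (γ j) * MvPowerSeries.C ((γ j)⁻¹) = 1
      rw [← map_mul, mul_inv_cancel₀ (hγ0 j), map_one]
    linear_combination ((∏ t, Th (Fin n) φ (g t) ^ m j t) * (Th (Fin n) φ (U j))) * h1
  refine Tower.formal f (fam π m γ) G s hG0 hdetG ?_
    (Tower.sparse hk π m γ (jind_of_dist π cl pu m hm) hγ0)
  apply le_antisymm
  · rw [Ideal.span_le]
    rintro _ ⟨i, rfl⟩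
    have h1 : Th (Fin n) φ (D i) * (Th (Fin n) φ (D i))⁻¹ = 1 :=
      MvPowerSeries.mul_inv_cancel _ (hDc i)
    have h2 : ((f i : MvPolynomial (Fin n) ℂ) : MvPowerSeries (Fin n) ℂ) =
        (Th (Fin n) φ (D i))⁻¹ * aeval G (fam π m γ i) := by
      rw [hae i, ← hTh]
      linear_combination (-(Th (Fin n) φ (f i))) * h1
    change ((f i : MvPolynomial (Fin n) ℂ) : MvPowerSeries (Fin n) ℂ) ∈ _
    rw [h2]
    exact Ideal.mul_mem_left _ _ (Ideal.subset_span ⟨i, rfl⟩)
  · rw [Ideal.span_le]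
    rintro _ ⟨i, rfl⟩
    change aeval G (fam π m γ i) ∈ _
    rw [hae i, hTh (f i)]
    exact Ideal.mul_mem_left _ _ (Ideal.subset_span ⟨i, rfl⟩)

end Pool.Agent.H1.TB
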